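import Pool.Agent.H58.MN.Div

/-!
# S11 (2): good sets for a chain of approximations

`p : H →* Q` (think of `H → H / N`), `π : H →* G` a homomorphism to an ordered group which factors over `p`.
`GoodP p π S`: the image of `S` in `G` is well ordered and over each element of `G` there are finitely many values of `p` on `S`.

`IsChain r p π`: `H` ordered, `p s : H →* Q s` (kernel `H_s`, `H_0 = H`, `H_r = 1`), `π j s : H →* G j s`, the approximations of `Q s`.
`Ev r p π S`: for all large `j`, `S` is good for all `s ≤ r`.  The series with support in `Ev` are a division subring `Ev.subring` of `Ser K H`.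
-/

set_option autoImplicit false
set_option linter.unusedSectionVars false

open Set Pointwise Function

namespace Pool.Agent.H55.Ch

open Pool.Agent.H58.MN

section good

variable {H Q G : Type*} [Group H] [Group Q] [Group G] [LinearOrder G] [MulLeftMono G] [MulRightMono G]

/-- the image under `π` is well ordered and there are finitely many values of `p` over each element of `G` -/
def GoodP (p : H →* Q) (π : H →* G) (S : Set H) : Prop :=
  (π '' S).IsPWO ∧ ∀ y, (p '' {x | x ∈ S ∧ π x = y}).Finite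

variable {p : H →* Q} {π : H →* G} {S T : Set H}

theorem GoodP.mono (h : GoodP p π T) (hST : S ⊆ T) : GoodP p π S :=
  ⟨h.1.mono (image_mono hST), fun y => (h.2 y).subset (image_mono fun _ hx => ⟨hST hx.1, hx.2⟩)⟩

theorem GoodP.union (h : GoodP p π S) (h' : GoodP p π T) : GoodP p π (S ∪ T) := by
  constructor
  · rw [image_union]
    exact h.1.union h'.1
  · intro y
    refine ((h.2 y).union (h'.2 y)).subset ?_
    rintro _ ⟨x, ⟨hx, hxy⟩, rfl⟩
    rcases hx with hx | hx
    · exact Or.inl ⟨x, ⟨hx, hxy⟩, rfl⟩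
    · exact Or.inr ⟨x, ⟨hx, hxy⟩, rfl⟩

theorem goodP_finite (h : S.Finite) : GoodP p π S :=
  ⟨(h.image π).isPWO, fun _ => (h.subset fun _ hx => hx.1).image p⟩

theorem GoodP.mul (h : GoodP p π S) (h' : GoodP p π T) : GoodP p π (S * T) := by
  constructor
  · rw [image_mul]
    exact isPWO_mul h.1 h'.1
  · intro y
    have h1 := finite_anti h.1 h'.1 y
    refine ((h1.biUnion fun q _ => (h.2 q.1).mul (h'.2 q.2))).subset ?_
    rintro _ ⟨_, ⟨⟨a, ha, b, hb, rfl⟩, hab⟩, rfl⟩
    simp only [map_mul] at hab ⊢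
    refine mem_biUnion (x := (π a, π b)) ?_ (mul_mem_mul ⟨a, ⟨ha, rfl⟩, rfl⟩ ⟨b, ⟨hb, rfl⟩, rfl⟩)
    exact ⟨mem_image_of_mem _ ha, mem_image_of_mem _ hb, hab⟩

theorem GoodP.image_mul_left (h : GoodP p π S) (x : H) : GoodP p π ((fun y => x * y) '' S) := by
  have h1 := (goodP_finite (p := p) (π := π) (finite_singleton x)).mul h
  refine h1.mono ?_
  rintro _ ⟨y, hy, rfl⟩
  exact mul_mem_mul (mem_singleton x) hy

theorem GoodP.image_mul_right (h : GoodP p π S) (x : H) : GoodP p π ((fun y => y * x) '' S) := by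
  have h1 := h.mul (goodP_finite (p := p) (π := π) (finite_singleton x))
  refine h1.mono ?_
  rintro _ ⟨y, hy, rfl⟩
  exact mul_mem_mul hy (mem_singleton x)

/-- finitely many lists over a given list -/
theorem finite_forall₂ {A B : Type*} {R : A → B → Prop} (hR : ∀ b, {a | R a b}.Finite) (w : List B) :
    {l : List A | List.Forall₂ R l w}.Finite := by
  induction w with
  | nil =>
    refine (finite_singleton ([] : List A)).subset fun l hl => ?_
    have hl' : List.Forall₂ R l [] := hl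
    rw [List.forall₂_nil_right_iff] at hl'
    exact hl'
  | cons b w ih =>
    refine ((hR b).image2 List.cons ih).subset fun l hl => ?_
    have hl' : List.Forall₂ R l (b :: w) := hl
    rw [List.forall₂_cons_right_iff] at hl'
    obtain ⟨a, u, ha, hu, rfl⟩ := hl'
    exact ⟨a, ha, u, hu, rfl⟩

/-- the monoid generated by a good set of elements whose nontrivial classes have images `> 1` -/
theorem GoodP.closure (hk : ∀ x, p x = 1 → π x = 1) (h : GoodP p π S) (hpos : ∀ x ∈ S, p x ≠ 1 → 1 < π x) :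
    GoodP p π (Submonoid.closure S : Set H) := by
  classical
  constructor
  · have h1 : π '' (Submonoid.closure S : Set H) = (Submonoid.closure (π '' S) : Set G) := by
      rw [← MonoidHom.map_mclosure]
      rfl
    rw [h1]
    refine isPWO_closure ?_ h.1
    rintro _ ⟨x, hx, rfl⟩
    by_cases h2 : p x = 1
    · exact (hk x h2).ge
    · exact (hpos x hx h2).le
  · intro y
    set S' : Set H := {x | x ∈ S ∧ p x ≠ 1} with hS'
    have hW : {w : List G | (∀ z ∈ w, z ∈ π '' S') ∧ w.prod = y}.Finite := by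
      refine finite_words ?_ (h.1.mono (image_mono fun _ hx => hx.1)) y
      rintro _ ⟨x, hx, rfl⟩
      exact hpos x hx.1 hx.2
    have hF : ∀ z : G, {q : Q | ∃ x ∈ S', π x = z ∧ p x = q}.Finite := by
      intro z
      refine (h.2 z).subset ?_
      rintro _ ⟨x, hx, hxz, rfl⟩
      exact ⟨x, ⟨hx.1, hxz⟩, rfl⟩
    have hL := hW.biUnion fun w _ => (finite_forall₂ hF w).image List.prod
    refine hL.subset ?_
    rintro _ ⟨m, ⟨hm, hmy⟩, rfl⟩
    obtain ⟨l, hl, rfl⟩ := Submonoid.exists_list_of_mem_closure hm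
    -- remove the letters with trivial class
    have key : ∀ l : List H, (∀ x ∈ l, x ∈ S) → ∃ l' : List H, (∀ x ∈ l', x ∈ S') ∧ p l'.prod = p l.prod ∧ π l'.prod = π l.prod := by
      intro l
      induction l with
      | nil => intro _; exact ⟨[], by simp, rfl, rfl⟩
      | cons a l ih =>
        intro hl
        obtain ⟨l', h1, h2, h3⟩ := ih fun x hx => hl x (List.mem_cons_of_mem _ hx)
        by_cases ha : p a = 1
        · refine ⟨l', h1, ?_, ?_⟩
          · rw [List.prod_cons, map_mul, ha, one_mul, h2]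
          · rw [List.prod_cons, map_mul, hk a ha, one_mul, h3]
        · refine ⟨a :: l', ?_, ?_, ?_⟩
          · intro x hx
            rcases List.mem_cons.1 hx with rfl | hx
            · exact ⟨hl x (by simp), ha⟩
            · exact h1 x hx
          · rw [List.prod_cons, List.prod_cons, map_mul, map_mul, h2]
          · rw [List.prod_cons, List.prod_cons, map_mul, map_mul, h3]
    obtain ⟨l', h1, h2, h3⟩ := key l hl
    refine mem_biUnion (x := l'.map π) ⟨?_, ?_⟩ ⟨l'.map p, ?_, ?_⟩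
    · intro z hz
      obtain ⟨x, hx, rfl⟩ := List.mem_map.1 hz
      exact ⟨x, h1 x hx, rfl⟩
    · rw [← map_list_prod, h3]
      exact hmy
    · show List.Forall₂ _ (l'.map p) (l'.map π)
      rw [List.forall₂_map_left_iff, List.forall₂_map_right_iff, List.forall₂_same]
      exact fun x hx => ⟨x, h1 x hx, rfl, rfl⟩
    · rw [← map_list_prod, h2]

end good

section chain

variable {H : Type*} [Group H] [LinearOrder H] [MulLeftMono H] [MulRightMono H]
  {Q : ℕ → Type*} [∀ s, Group (Q s)] {G : ℕ → ℕ → Type*} [∀ j s, Group (G j s)] [∀ j s, LinearOrder (G j s)]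
  [∀ j s, MulLeftMono (G j s)] [∀ j s, MulRightMono (G j s)]

/-- a chain of approximations: `p s : H →* Q s` with kernel `H_s`, `H_0 = H`, `H_r = 1`; `π j s : H →* G j s` the `j`-th approximation of `Q s` -/
structure IsChain (r : ℕ) (p : ∀ s, H →* Q s) (π : ∀ j s, H →* G j s) : Prop where
  zero : ∀ x, p 0 x = 1
  inj : ∀ x, p r x = 1 → x = 1
  ker : ∀ j s x, p s x = 1 → π j s x = 1
  pos : ∀ j s x, s < r → 1 < x → p s x = 1 → 1 ≤ π j (s + 1) x
  lex : ∀ j s x, s < r → 1 < π j s x → 1 < π j (s + 1) x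
  sep : ∀ s x, s ≤ r → p s x ≠ 1 → ∃ j₀, ∀ j, j₀ ≤ j → π j s x ≠ 1
  dec : ∀ j j' s x, s ≤ r → j ≤ j' → π j' s x = 1 → π j s x = 1

/-- good at all levels `s ≤ r`, for all large `j` -/
def Ev (r : ℕ) (p : ∀ s, H →* Q s) (π : ∀ j s, H →* G j s) (S : Set H) : Prop :=
  ∃ j₀ : ℕ, ∀ j, j₀ ≤ j → ∀ s, s ≤ r → GoodP (p s) (π j s) S

variable {r : ℕ} {p : ∀ s, H →* Q s} {π : ∀ j s, H →* G j s} {S T : Set H}

theorem Ev.mono (h : Ev r p π T) (hST : S ⊆ T) : Ev r p π S := by
  obtain ⟨j₀, h0⟩ := h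
  exact ⟨j₀, fun j hj s hs => (h0 j hj s hs).mono hST⟩

theorem ev_finite (h : S.Finite) : Ev r p π S := ⟨0, fun _ _ _ _ => goodP_finite h⟩

theorem Ev.union (h : Ev r p π S) (h' : Ev r p π T) : Ev r p π (S ∪ T) := by
  obtain ⟨j₀, h0⟩ := h
  obtain ⟨j₁, h1⟩ := h'
  exact ⟨max j₀ j₁, fun j hj s hs => (h0 j (le_of_max_le_left hj) s hs).union (h1 j (le_of_max_le_right hj) s hs)⟩

theorem Ev.mul (h : Ev r p π S) (h' : Ev r p π T) : Ev r p π (S * T) := by
  obtain ⟨j₀, h0⟩ := h
  obtain ⟨j₁, h1⟩ := h'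
  exact ⟨max j₀ j₁, fun j hj s hs => (h0 j (le_of_max_le_left hj) s hs).mul (h1 j (le_of_max_le_right hj) s hs)⟩

theorem Ev.image_mul_left (h : Ev r p π S) (x : H) : Ev r p π ((fun y => x * y) '' S) := by
  obtain ⟨j₀, h0⟩ := h
  exact ⟨j₀, fun j hj s hs => (h0 j hj s hs).image_mul_left x⟩

theorem Ev.image_mul_right (h : Ev r p π S) (x : H) : Ev r p π ((fun y => y * x) '' S) := by
  obtain ⟨j₀, h0⟩ := h
  exact ⟨j₀, fun j hj s hs => (h0 j hj s hs).image_mul_right x⟩

/-- For an eventually good set of elements `> 1` all nontrivial classes have images `> 1`, for all large `j`. -/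
theorem Ev.pos (hc : IsChain r p π) (h : Ev r p π S) (hS : ∀ x ∈ S, 1 < x) : ∀ s, s ≤ r →
    ∃ j₁ : ℕ, ∀ j, j₁ ≤ j → ∀ x ∈ S, p s x ≠ 1 → 1 < π j s x := by
  obtain ⟨j₀, h0⟩ := h
  intro s
  induction s with
  | zero => exact fun _ => ⟨0, fun j _ x _ hx => absurd (hc.zero x) hx⟩
  | succ s ih =>
    intro hs
    obtain ⟨j₁, h1⟩ := ih (by omega)
    -- the finite fibre over `1` at level `j₀`
    have hfin := (h0 j₀ le_rfl (s + 1) hs).2 1
    have h2 : ∀ q ∈ (p (s + 1)) '' {x | x ∈ S ∧ π j₀ (s + 1) x = 1}, ∃ j₂ : ℕ, q ≠ 1 → ∀ j, j₂ ≤ j → ∀ x, p (s + 1) x = q → π j (s + 1) x ≠ 1 := by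
      rintro _ ⟨x, hx, rfl⟩
      by_cases hx1 : p (s + 1) x = 1
      · exact ⟨0, fun h => absurd hx1 h⟩
      · obtain ⟨j₂, h3⟩ := hc.sep (s + 1) x hs hx1
        refine ⟨j₂, fun _ j hj y hy hy1 => h3 j hj ?_⟩
        have h4 : p (s + 1) (x * y⁻¹) = 1 := by
          rw [map_mul, map_inv, hy, mul_inv_cancel]
        have h5 := hc.ker j (s + 1) _ h4
        rw [map_mul, map_inv, hy1, inv_one, mul_one] at h5
        exact h5
    choose! J hJ using h2
    obtain ⟨j₂, hj₂⟩ := (hfin.image J).bddAbove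
    refine ⟨max j₀ (max j₁ j₂), fun j hj x hx hx1 => ?_⟩
    have ha : j₀ ≤ j := le_of_max_le_left hj
    have hb : j₁ ≤ j := le_of_max_le_left (le_of_max_le_right hj)
    have hcc : j₂ ≤ j := le_of_max_le_right (le_of_max_le_right hj)
    by_cases hx2 : p s x = 1
    · refine lt_of_le_of_ne (hc.pos j s x (by omega) (hS x hx) hx2) fun h3 => ?_
      have h4 := hc.dec j₀ j (s + 1) x hs ha h3.symm
      have h5 : p (s + 1) x ∈ (p (s + 1)) '' {x | x ∈ S ∧ π j₀ (s + 1) x = 1} := ⟨x, ⟨hx, h4⟩, rfl⟩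
      exact hJ _ h5 hx1 j ((hj₂ (mem_image_of_mem J h5)).trans hcc) x rfl h3.symm
    · exact hc.lex j s x (by omega) (h1 j hb x hx hx2)

theorem Ev.pos_all (hc : IsChain r p π) (h : Ev r p π S) (hS : ∀ x ∈ S, 1 < x) :
    ∃ j₁ : ℕ, ∀ j, j₁ ≤ j → ∀ s, s ≤ r → ∀ x ∈ S, p s x ≠ 1 → 1 < π j s x := by
  have h1 := h.pos hc hS
  choose! J hJ using h1
  refine ⟨(Finset.range (r + 1)).sup J, fun j hj s hs => ?_⟩
  exact hJ s hs j (le_trans (Finset.le_sup (f := J) (Finset.mem_range.2 (by omega))) hj)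

theorem Ev.closure (hc : IsChain r p π) (h : Ev r p π S) (hS : ∀ x ∈ S, 1 < x) : Ev r p π (Submonoid.closure S : Set H) := by
  obtain ⟨j₁, h1⟩ := h.pos_all hc hS
  obtain ⟨j₀, h0⟩ := h
  refine ⟨max j₀ j₁, fun j hj s hs => (h0 j (le_of_max_le_left hj) s hs).closure (hc.ker j s) fun x hx hx1 => ?_⟩
  exact h1 j (le_of_max_le_right hj) s hs x hx hx1

end chain

section ring

variable {K : Type*} [DivisionRing K] {H : Type*} [Group H] [LinearOrder H] [MulLeftMono H] [MulRightMono H]
  {Q : ℕ → Type*} [∀ s, Group (Q s)] {G : ℕ → ℕ → Type*} [∀ j s, Group (G j s)] [∀ j s, LinearOrder (G j s)]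
  [∀ j s, MulLeftMono (G j s)] [∀ j s, MulRightMono (G j s)]

variable (K) in
/-- the series with eventually good support -/
def evRing (r : ℕ) (p : ∀ s, H →* Q s) (π : ∀ j s, H →* G j s) : Subring (Ser K H) where
  carrier := {f | Ev r p π (support f)}
  mul_mem' {f g} hf hg := (Ev.mul hf hg).mono (Ser.support_mul f g)
  one_mem' := by
    refine ev_finite ((finite_singleton (1 : H)).subset fun x hx => ?_)
    by_contra hx1
    exact hx (Ser.single_ne hx1 _)
  add_mem' {f g} hf hg := (Ev.union hf hg).mono (support_add f g)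
  zero_mem' := ev_finite (by
    refine finite_empty.subset fun x hx => hx rfl)
  neg_mem' {f} hf := by
    refine Ev.mono hf fun x hx => ?_
    intro h
    exact hx (by rw [Ser.neg_apply, h, neg_zero])

variable {r : ℕ} {p : ∀ s, H →* Q s} {π : ∀ j s, H →* G j s}

theorem mem_evRing {f : Ser K H} : f ∈ evRing K r p π ↔ Ev r p π (support f) := Iff.rfl

theorem single_mem (x : H) (c : K) : Ser.single x c ∈ evRing K r p π := by
  refine ev_finite ((finite_singleton x).subset fun y hy => ?_)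
  by_contra hy1
  exact hy (Ser.single_ne hy1 _)

theorem tail_ev {f : Ser K H} (hf : f ∈ evRing K r p π) (h0 : f ≠ 0) : Ev r p π (support (f.tail h0)) := by
  refine (Ev.image_mul_left hf (f.lead h0)⁻¹).mono fun x hx => ?_
  rw [Ser.mem_support_tail] at hx
  exact ⟨f.lead h0 * x, hx.2, by simp⟩

theorem inv_mem (hc : IsChain r p π) {f : Ser K H} (hf : f ∈ evRing K r p π) : f⁻¹ ∈ evRing K r p π := by
  by_cases h0 : f = 0
  · rw [h0, inv_zero]
    exact (evRing K r p π).zero_mem
  · rw [Ser.inv_eq f h0, mem_evRing]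
    exact (((tail_ev hf h0).closure hc (f.tail_pos h0)).image_mul_right _).mono (Ser.support_invFun f h0)

/-- For large `j` the least element of the support is the only one with its image in `G j r`. -/
theorem lead_isolated (hc : IsChain r p π) {f : Ser K H} (hf : f ∈ evRing K r p π) (h0 : f ≠ 0) :
    ∃ j₁ : ℕ, ∀ j, j₁ ≤ j → ∀ x, f x ≠ 0 → x ≠ f.lead h0 → π j r (f.lead h0) < π j r x := by
  obtain ⟨j₁, h1⟩ := (tail_ev hf h0).pos_all hc (f.tail_pos h0)
  refine ⟨j₁, fun j hj x hx hxl => ?_⟩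
  have h2 : (f.lead h0)⁻¹ * x ∈ support (f.tail h0) := by
    rw [Ser.mem_support_tail]
    refine ⟨fun h3 => hxl ?_, by simpa using hx⟩
    rw [inv_mul_eq_one] at h3
    exact h3.symm
  have h3 := h1 j hj r le_rfl _ h2 fun h4 => (Ser.mem_support_tail.1 h2).1 (hc.inj _ h4)
  rw [map_mul, map_inv] at h3
  rwa [lt_inv_mul_iff_mul_lt, mul_one] at h3

end ring

end Pool.Agent.H55.Ch
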