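import Mathlib

/-!
# Counting intersection points on the lines of the grid
-/

open Finset

namespace Pool.Agent.H55.Dirac

/-- The offsets `3 ≤ |x| ≤ K - 2`, the central ones in `H` and the extremal ones `±(K + e)`. -/
noncomputable def gridSet (K : ℤ) (E H : Finset ℤ) : Finset ℤ :=
  Icc (-(K - 2)) (-3) ∪ Icc 3 (K - 2) ∪ H ∪ E.image (fun e => K + e) ∪ E.image (fun e => -K - e)

theorem mem_gridSet {K : ℤ} {E H : Finset ℤ} {x : ℤ} :
    x ∈ gridSet K E H ↔ (-(K - 2) ≤ x ∧ x ≤ -3) ∨ (3 ≤ x ∧ x ≤ K - 2) ∨ x ∈ H ∨ x - K ∈ E ∨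
      -K - x ∈ E := by
  unfold gridSet
  simp only [mem_union, mem_Icc, mem_image]
  constructor
  · rintro ((((h | h) | h) | ⟨e, he, rfl⟩) | ⟨e, he, rfl⟩)
    · exact Or.inl h
    · exact Or.inr (Or.inl h)
    · exact Or.inr (Or.inr (Or.inl h))
    · exact Or.inr (Or.inr (Or.inr (Or.inl (by rwa [show K + e - K = e by ring]))))
    · exact Or.inr (Or.inr (Or.inr (Or.inr (by rwa [show -K - (-K - e) = e by ring]))))
  · rintro (h | h | h | h | h)
    · exact Or.inl (Or.inl (Or.inl (Or.inl h)))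
    · exact Or.inl (Or.inl (Or.inl (Or.inr h)))
    · exact Or.inl (Or.inl (Or.inr h))
    · exact Or.inl (Or.inr ⟨_, h, by ring⟩)
    · exact Or.inr ⟨_, h, by ring⟩

/-- Bounds on the finite parameter sets. -/
def Bd (r s : ℤ) (S : Finset ℤ) : Prop := ∀ x ∈ S, r ≤ x ∧ x ≤ s

theorem gridSet_bd {K : ℤ} {E H : Finset ℤ} (hK : 54 ≤ K) (hE : Bd (-1) 2 E) (hH : Bd (-2) 2 H)
    {x : ℤ} (hx : x ∈ gridSet K E H) : -K - 2 ≤ x ∧ x ≤ K + 2 := by
  rw [mem_gridSet] at hx
  rcases hx with h | h | h | h | h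
  · omega
  · omega
  · have := hH _ h; omega
  · have := hE _ h; omega
  · have := hE _ h; omega

theorem gridSet_right {K : ℤ} {E H : Finset ℤ} (hK : 54 ≤ K) (hE : Bd (-1) 2 E)
    (hH : Bd (-2) 2 H) {x : ℤ} (hx : x ∈ gridSet K E H) (h1 : K - 1 ≤ x) : x - K ∈ E := by
  rw [mem_gridSet] at hx
  rcases hx with h | h | h | h | h
  · omega
  · omega
  · have := hH _ h; omega
  · exact h
  · have := hE _ h; omega

theorem gridSet_left {K : ℤ} {E H : Finset ℤ} (hK : 54 ≤ K) (hE : Bd (-1) 2 E)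
    (hH : Bd (-2) 2 H) {x : ℤ} (hx : x ∈ gridSet K E H) (h1 : x ≤ -K + 1) : -K - x ∈ E := by
  rw [mem_gridSet] at hx
  rcases hx with h | h | h | h | h
  · omega
  · omega
  · have := hH _ h; omega
  · have := hE _ h; omega
  · exact h

theorem gridSet_mid {K : ℤ} {E H : Finset ℤ} (hK : 54 ≤ K) (hE : Bd (-1) 2 E)
    {x : ℤ} (hx : x ∈ gridSet K E H) (h1 : -2 ≤ x) (h2 : x ≤ 2) : x ∈ H := by
  rw [mem_gridSet] at hx
  rcases hx with h | h | h | h | h
  · omega
  · omega
  · exact h
  · have := hE _ h; omega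
  · have := hE _ h; omega

theorem gridSet_neg (K : ℤ) (E H : Finset ℤ) :
    (gridSet K E H).image (fun x => -x) = gridSet K E (H.image fun x => -x) := by
  ext x
  simp only [mem_image, mem_gridSet]
  constructor
  · rintro ⟨y, hy, rfl⟩
    rcases hy with h | h | h | h | h
    · right; left; omega
    · left; omega
    · right; right; left; exact ⟨y, h, rfl⟩
    · right; right; right; right; rwa [show -K - -y = y - K by ring]
    · right; right; right; left; rwa [show -y - K = -K - y by ring]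
  · intro h
    refine ⟨-x, ?_, by ring⟩
    rcases h with h | h | ⟨y, h, rfl⟩ | h | h
    · right; left; omega
    · left; omega
    · right; right; left; rwa [neg_neg]
    · right; right; right; right; rwa [show -K - -x = x - K by ring]
    · right; right; right; left; rwa [show -x - K = -K - x by ring]

/-- The labels of the points on the line `x_i = a`. -/
def TL (A1 A2 C0 C1 C2 : Finset ℤ) (a : ℤ) : Finset ℤ :=
  A1.image (fun b => 2 * b) ∪ A2.image (fun b => -2 * a - 2 * b) ∪ C0.image (fun c => -a - c) ∪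
    C1.image (fun c => 2 * c - 4 * a) ∪ C2.image (fun c => 2 * a + 2 * c)

noncomputable def UR (E1 C2 : Finset ℤ) (j : ℤ) : Finset ℤ :=
  (Icc (-1) 16).filter fun e => e ∉ E1 ∧ e - j ∉ C2

noncomputable def UL (E2 C1 : Finset ℤ) (j : ℤ) : Finset ℤ :=
  (Icc (-1) 16).filter fun e => e ∉ E2 ∧ j - e ∉ C1

noncomputable def UC (E H : Finset ℤ) (j : ℤ) : Finset ℤ :=
  (Icc (-2) 2).filter fun h => h ∉ H ∧ -1 ≤ j + h ∧ j + h ∉ E

def OD (C : Finset ℤ) (j : ℤ) : Finset ℤ := C.filter fun c => (c + j) % 2 = 1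

theorem TL_card_neg (A1 A2 C0 C1 C2 : Finset ℤ) (a : ℤ) :
    (TL (A1.image fun x => -x) (A2.image fun x => -x) (C0.image fun x => -x)
      (C1.image fun x => -x) (C2.image fun x => -x) (-a)).card = (TL A1 A2 C0 C1 C2 a).card := by
  have h : TL (A1.image fun x => -x) (A2.image fun x => -x) (C0.image fun x => -x)
      (C1.image fun x => -x) (C2.image fun x => -x) (-a) = (TL A1 A2 C0 C1 C2 a).image
        (fun x => -x) := by
    unfold TL
    simp only [image_union, image_image]
    congr 1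
    · congr 1
      · congr 1
        · congr 1
          · refine image_congr fun x _ => ?_
            simp only [Function.comp]; ring
          · refine image_congr fun x _ => ?_
            simp only [Function.comp]; ring
        · refine image_congr fun x _ => ?_
          simp only [Function.comp]; ring
      · refine image_congr fun x _ => ?_
        simp only [Function.comp]; ring
    · refine image_congr fun x _ => ?_
      simp only [Function.comp]; ring
  rw [h, card_image_of_injective _ neg_injective]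

theorem card_UR_aux {S T : Finset ℤ} (f : ℤ → ℤ) (hf : Function.Injective f) (h : T = S.image f) :
    T.card = S.card := by rw [h, card_image_of_injective _ hf]

set_option maxHeartbeats 1000000 in
theorem count_l {K : ℤ} (hK : 54 ≤ K) (hK2 : K % 2 = 0) {E1 E2 H1 H2 C0 C1 C2 : Finset ℤ}
    (hE1 : Bd (-1) 2 E1) (hE2 : Bd (-1) 2 E2) (hH1 : Bd (-2) 2 H1) (hH2 : Bd (-2) 2 H2)
    (hC0 : Bd (-12) 12 C0) (hC1 : Bd (-12) 12 C1) (hC2 : Bd (-12) 12 C2) {j : ℤ}
    (hj1 : -36 ≤ j) (hj2 : j ≤ 2) :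
    ((TL (gridSet K E1 H1) (gridSet K E2 H2) C0 C1 C2 (K + j)).card : ℤ) + (UR E1 C2 j).card +
      (UL E2 C1 j).card + (UC E2 H1 j).card + (UC E1 H2 j).card ≤ 3 * K + j + 33 +
        (OD C0 j).card := by
  classical
  set U1 := (UR E1 C2 j).image (fun e => K + e) with hU1
  set U2 := (UL E2 C1 j).image (fun e => -2 * K - j - e) with hU2
  set U3 := UC E2 H1 j with hU3
  set U4 := (UC E1 H2 j).image (fun h => -K - j - h) with hU4
  have b1 : ∀ x ∈ U1, ∃ e, x = K + e ∧ -1 ≤ e ∧ e ≤ 16 ∧ e ∉ E1 ∧ e - j ∉ C2 := by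
    intro x hx
    simp only [hU1, UR, mem_image, mem_filter, mem_Icc] at hx
    obtain ⟨e, ⟨⟨h1, h2⟩, h3, h4⟩, rfl⟩ := hx
    exact ⟨e, rfl, h1, h2, h3, h4⟩
  have b2 : ∀ x ∈ U2, ∃ e, x = -2 * K - j - e ∧ -1 ≤ e ∧ e ≤ 16 ∧ e ∉ E2 ∧ j - e ∉ C1 := by
    intro x hx
    simp only [hU2, UL, mem_image, mem_filter, mem_Icc] at hx
    obtain ⟨e, ⟨⟨h1, h2⟩, h3, h4⟩, rfl⟩ := hx
    exact ⟨e, rfl, h1, h2, h3, h4⟩
  have b3 : ∀ x ∈ U3, -2 ≤ x ∧ x ≤ 2 ∧ x ∉ H1 ∧ -1 ≤ j + x ∧ j + x ∉ E2 := by
    intro x hx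
    simp only [hU3, UC, mem_filter, mem_Icc] at hx
    obtain ⟨⟨h1, h2⟩, h3, h4, h5⟩ := hx
    exact ⟨h1, h2, h3, h4, h5⟩
  have b4 : ∀ x ∈ U4, ∃ h, x = -K - j - h ∧ -2 ≤ h ∧ h ≤ 2 ∧ h ∉ H2 ∧ -1 ≤ j + h ∧
      j + h ∉ E1 := by
    intro x hx
    simp only [hU4, UC, mem_image, mem_filter, mem_Icc] at hx
    obtain ⟨e, ⟨⟨h1, h2⟩, h3, h4, h5⟩, rfl⟩ := hx
    exact ⟨e, rfl, h1, h2, h3, h4, h5⟩
  have d12 : Disjoint U1 U2 := by
    rw [Finset.disjoint_left]
    intro x h1 h2
    obtain ⟨e, h, _⟩ := b1 x h1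
    obtain ⟨e', h', _⟩ := b2 x h2
    omega
  have d123 : Disjoint (U1 ∪ U2) U3 := by
    rw [Finset.disjoint_left]
    intro x h1 h2
    have h3 := b3 x h2
    rcases mem_union.1 h1 with h1 | h1
    · obtain ⟨e, h, _⟩ := b1 x h1
      omega
    · obtain ⟨e, h, _⟩ := b2 x h1
      omega
  have d1234 : Disjoint (U1 ∪ U2 ∪ U3) U4 := by
    rw [Finset.disjoint_left]
    intro x h1 h2
    obtain ⟨h4, h5, h6⟩ := b4 x h2
    rcases mem_union.1 h1 with h1 | h1
    · rcases mem_union.1 h1 with h1 | h1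
      · obtain ⟨e, h, _⟩ := b1 x h1
        omega
      · obtain ⟨e, h, _⟩ := b2 x h1
        omega
    · have := b3 x h1
      omega
  have hcU : (U1 ∪ U2 ∪ U3 ∪ U4).card = (UR E1 C2 j).card + (UL E2 C1 j).card +
      (UC E2 H1 j).card + (UC E1 H2 j).card := by
    rw [card_union_of_disjoint d1234, card_union_of_disjoint d123, card_union_of_disjoint d12]
    congr 1
    · congr 1
      · congr 1
        · exact card_image_of_injective _ fun x y h => by simpa using h
        · exact card_image_of_injective _ fun x y h => by simpa using h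
    · exact card_image_of_injective _ fun x y h => by simpa using h
  have hUI : U1 ∪ U2 ∪ U3 ∪ U4 ⊆ Icc (-2 * K - j - 16) (K + 16) := by
    intro x hx
    rw [mem_Icc]
    simp only [mem_union] at hx
    rcases hx with ((h | h) | h) | h
    · obtain ⟨e, h, _⟩ := b1 x h
      omega
    · obtain ⟨e, h, _⟩ := b2 x h
      omega
    · have := b3 x h
      omega
    · obtain ⟨e, h, _⟩ := b4 x h
      omega
  have hcX : ((Icc (-2 * K - j - 16) (K + 16) \ (U1 ∪ U2 ∪ U3 ∪ U4)).card : ℤ) =
      3 * K + j + 33 - (U1 ∪ U2 ∪ U3 ∪ U4).card := by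
    rw [card_sdiff_of_subset hUI, Nat.cast_sub (card_le_card hUI), Int.card_Icc]
    rw [Int.toNat_of_nonneg (by omega)]
    ring
  -- nonmembership of uncovered points
  have key : ∀ x, x ∈ U1 ∪ U2 ∪ U3 ∪ U4 → x ∉ gridSet K E1 H1 ∧ -(K + j) - x ∉ gridSet K E2 H2 ∧
      -(K + j) - 2 * x ∉ C0 ∧ x + 2 * (K + j) ∉ C1 ∧ x - (K + j) ∉ C2 := by
    intro x hx
    simp only [mem_union] at hx
    rcases hx with ((h | h) | h) | h
    · obtain ⟨e, rfl, h1, h2, h3, h4⟩ := b1 x h
      refine ⟨fun h => ?_, fun h => ?_, fun h => ?_, fun h => ?_, fun h => ?_⟩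
      · have := gridSet_right hK hE1 hH1 h (by omega)
        rw [show K + e - K = e by ring] at this
        exact h3 this
      · have := gridSet_bd hK hE2 hH2 h
        omega
      · have := hC0 _ h
        omega
      · have := hC1 _ h
        omega
      · rw [show K + e - (K + j) = e - j by ring] at h
        exact h4 h
    · obtain ⟨e, rfl, h1, h2, h3, h4⟩ := b2 x h
      refine ⟨fun h => ?_, fun h => ?_, fun h => ?_, fun h => ?_, fun h => ?_⟩
      · have := gridSet_bd hK hE1 hH1 h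
        omega
      · have := gridSet_right hK hE2 hH2 h (by omega)
        rw [show -(K + j) - (-2 * K - j - e) - K = e by ring] at this
        exact h3 this
      · have := hC0 _ h
        omega
      · rw [show -2 * K - j - e + 2 * (K + j) = j - e by ring] at h
        exact h4 h
      · have := hC2 _ h
        omega
    · obtain ⟨h1, h2, h3, h4, h5⟩ := b3 x h
      refine ⟨fun h => ?_, fun h => ?_, fun h => ?_, fun h => ?_, fun h => ?_⟩
      · exact h3 (gridSet_mid hK hE1 h h1 h2)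
      · have := gridSet_left hK hE2 hH2 h (by omega)
        rw [show -K - (-(K + j) - x) = j + x by ring] at this
        exact h5 this
      · have := hC0 _ h
        omega
      · have := hC1 _ h
        omega
      · have := hC2 _ h
        omega
    · obtain ⟨e, rfl, h1, h2, h3, h4, h5⟩ := b4 x h
      refine ⟨fun h => ?_, fun h => ?_, fun h => ?_, fun h => ?_, fun h => ?_⟩
      · have := gridSet_left hK hE1 hH1 h (by omega)
        rw [show -K - (-K - j - e) = j + e by ring] at this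
        exact h5 this
      · rw [show -(K + j) - (-K - j - e) = e by ring] at h
        exact h3 (gridSet_mid hK hE2 h h1 h2)
      · have := hC0 _ h
        omega
      · have := hC1 _ h
        omega
      · have := hC2 _ h
        omega
  have hsub : TL (gridSet K E1 H1) (gridSet K E2 H2) C0 C1 C2 (K + j) ⊆
      (Icc (-2 * K - j - 16) (K + 16) \ (U1 ∪ U2 ∪ U3 ∪ U4)).image (fun x => 2 * x) ∪
        (OD C0 j).image (fun c => -(K + j) - c) := by
    intro t ht
    unfold TL at ht
    simp only [mem_union, mem_image] at ht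
    rw [mem_union]
    rcases ht with (((⟨b, hb, rfl⟩ | ⟨b, hb, rfl⟩) | ⟨c, hc, rfl⟩) | ⟨c, hc, rfl⟩) | ⟨c, hc, rfl⟩
    · left
      rw [mem_image]
      refine ⟨b, ?_, rfl⟩
      rw [mem_sdiff, mem_Icc]
      refine ⟨?_, fun h => (key b h).1 hb⟩
      have := gridSet_bd hK hE1 hH1 hb
      omega
    · left
      rw [mem_image]
      refine ⟨-(K + j) - b, ?_, by ring⟩
      rw [mem_sdiff, mem_Icc]
      refine ⟨?_, fun h => (key _ h).2.1 (by
        rwa [show -(K + j) - (-(K + j) - b) = b by ring])⟩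
      have := gridSet_bd hK hE2 hH2 hb
      omega
    · by_cases hodd : (c + j) % 2 = 1
      · right
        rw [mem_image]
        exact ⟨c, by rw [OD, mem_filter]; exact ⟨hc, hodd⟩, rfl⟩
      · left
        rw [mem_image]
        obtain ⟨y, hy⟩ : ∃ y, -(K + j) - c = 2 * y := ⟨(-(K + j) - c) / 2, by omega⟩
        refine ⟨y, ?_, hy.symm⟩
        rw [mem_sdiff, mem_Icc]
        refine ⟨?_, fun h => (key _ h).2.2.1 (by
          rwa [show -(K + j) - 2 * y = c by rw [← hy]; ring])⟩
        have := hC0 _ hc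
        omega
    · left
      rw [mem_image]
      refine ⟨c - 2 * (K + j), ?_, by ring⟩
      rw [mem_sdiff, mem_Icc]
      refine ⟨?_, fun h => (key _ h).2.2.2.1 (by
        rwa [show c - 2 * (K + j) + 2 * (K + j) = c by ring])⟩
      have := hC1 _ hc
      omega
    · left
      rw [mem_image]
      refine ⟨K + j + c, ?_, by ring⟩
      rw [mem_sdiff, mem_Icc]
      refine ⟨?_, fun h => (key _ h).2.2.2.2 (by
        rwa [show K + j + c - (K + j) = c by ring])⟩
      have := hC2 _ hc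
      omega
  have h1 := (card_le_card hsub).trans (card_union_le _ _)
  have h2 : ((Icc (-2 * K - j - 16) (K + 16) \ (U1 ∪ U2 ∪ U3 ∪ U4)).image
      (fun x => 2 * x)).card = (Icc (-2 * K - j - 16) (K + 16) \ (U1 ∪ U2 ∪ U3 ∪ U4)).card :=
    card_image_of_injective _ fun x y h => by simpa using h
  have h3 : ((OD C0 j).image (fun c => -(K + j) - c)).card = (OD C0 j).card :=
    card_image_of_injective _ fun x y h => by simpa using h
  rw [h2, h3] at h1
  have h4 : ((TL (gridSet K E1 H1) (gridSet K E2 H2) C0 C1 C2 (K + j)).card : ℤ) ≤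
      ((Icc (-2 * K - j - 16) (K + 16) \ (U1 ∪ U2 ∪ U3 ∪ U4)).card : ℤ) + (OD C0 j).card := by
    exact_mod_cast h1
  rw [hcX, hcU] at h4
  push_cast at h4
  linarith

end Pool.Agent.H55.Dirac
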