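import Pool.Agent.H55.DiracCount

/-!
# Counting intersection points on the lines of the grid, continued
-/

open Finset

namespace Pool.Agent.H55.Dirac

theorem count_mid {K : ℤ} (hK : 54 ≤ K) {E1 E2 H1 H2 C0 C1 C2 : Finset ℤ}
    (hE1 : Bd (-1) 2 E1) (hE2 : Bd (-1) 2 E2) (hH1 : Bd (-2) 2 H1) (hH2 : Bd (-2) 2 H2)
    {a : ℤ} (ha : 0 ≤ a) :
    ((TL (gridSet K E1 H1) (gridSet K E2 H2) C0 C1 C2 a).card : ℤ) ≤
      2 * K + 5 + a + C0.card + C1.card + C2.card := by
  classical
  have hsub : TL (gridSet K E1 H1) (gridSet K E2 H2) C0 C1 C2 a ⊆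
      (Icc (-K - 2 - a) (K + 2)).image (fun x => 2 * x) ∪ C0.image (fun c => -a - c) ∪
        C1.image (fun c => 2 * c - 4 * a) ∪ C2.image (fun c => 2 * a + 2 * c) := by
    intro t ht
    unfold TL at ht
    simp only [mem_union] at ht ⊢
    rcases ht with (((ht | ht) | ht) | ht) | ht
    · left; left; left
      rw [mem_image] at ht ⊢
      obtain ⟨b, hb, rfl⟩ := ht
      have := gridSet_bd hK hE1 hH1 hb
      exact ⟨b, by rw [mem_Icc]; omega, rfl⟩
    · left; left; left
      rw [mem_image] at ht ⊢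
      obtain ⟨b, hb, rfl⟩ := ht
      have := gridSet_bd hK hE2 hH2 hb
      exact ⟨-a - b, by rw [mem_Icc]; omega, by ring⟩
    · left; left; right; exact ht
    · left; right; exact ht
    · right; exact ht
  have h1 := (card_le_card hsub).trans (card_union_le _ _)
  have h2 := card_union_le ((Icc (-K - 2 - a) (K + 2)).image (fun x => 2 * x) ∪
    C0.image (fun c => -a - c)) (C1.image (fun c => 2 * c - 4 * a))
  have h3 := card_union_le ((Icc (-K - 2 - a) (K + 2)).image (fun x => 2 * x))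
    (C0.image (fun c => -a - c))
  have h4 : ((Icc (-K - 2 - a) (K + 2)).image (fun x => 2 * x)).card ≤
    (Icc (-K - 2 - a) (K + 2)).card := card_image_le
  have h5 : (C0.image (fun c => -a - c)).card ≤ C0.card := card_image_le
  have h6 : (C1.image (fun c => 2 * c - 4 * a)).card ≤ C1.card := card_image_le
  have h7 : (C2.image (fun c => 2 * a + 2 * c)).card ≤ C2.card := card_image_le
  have h8 : ((Icc (-K - 2 - a) (K + 2)).card : ℤ) = 2 * K + 5 + a := by
    rw [Int.card_Icc, Int.toNat_of_nonneg (by omega)]; ring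
  omega

/-- The labels of the points on the line `x_{i+2} - x_{i+1} = c`. -/
def TM (A0 A1 A2 C1 C2 : Finset ℤ) (c : ℤ) : Finset ℤ :=
  A0.image (fun a => -3 * a - 3 * c) ∪ A1.image (fun b => 6 * b) ∪
    A2.image (fun b => 6 * b - 6 * c) ∪ C1.image (fun d => -2 * d - 4 * c) ∪
    C2.image (fun d => 2 * d - 2 * c)

noncomputable def UM (E1 E2 : Finset ℤ) (c : ℤ) : Finset ℤ :=
  (Icc (-1) 16).filter fun e => e ∉ E1 ∧ -1 ≤ e + c ∧ e + c ∉ E2

def TH (C1 C2 : Finset ℤ) (c : ℤ) : Finset ℤ :=
  ((C1.filter fun d => (d - c) % 3 ≠ 0).image fun d => -d - 2 * c) ∪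
    ((C2.filter fun d => (d - c) % 3 ≠ 0).image fun d => d - c)

theorem card_parity (k p : ℤ) (hk : 2 ≤ k) :
    (((Icc 3 (2 * k - 2)).filter fun x => (x + p) % 2 = 1).card : ℤ) ≤ k - 2 := by
  rcases Int.emod_two_eq_zero_or_one p with hp | hp
  · have hsub : ((Icc 3 (2 * k - 2)).filter fun x => (x + p) % 2 = 1) ⊆
        (Icc 1 (k - 2)).image (fun y => 2 * y + 1) := by
      intro x hx
      rw [mem_filter, mem_Icc] at hx
      rw [mem_image]
      exact ⟨x / 2, by rw [mem_Icc]; omega, by omega⟩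
    have h1 := (card_le_card hsub).trans card_image_le
    rw [Int.card_Icc] at h1
    omega
  · have hsub : ((Icc 3 (2 * k - 2)).filter fun x => (x + p) % 2 = 1) ⊆
        (Icc 2 (k - 1)).image (fun y => 2 * y) := by
      intro x hx
      rw [mem_filter, mem_Icc] at hx
      rw [mem_image]
      exact ⟨x / 2, by rw [mem_Icc]; omega, by omega⟩
    have h1 := (card_le_card hsub).trans card_image_le
    rw [Int.card_Icc] at h1
    omega

theorem card_odd {K : ℤ} (hK : 54 ≤ K) (hK2 : K % 2 = 0) (E H : Finset ℤ) (c : ℤ) :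
    (((gridSet K E H).filter fun a => (a + c) % 2 = 1).card : ℤ) ≤
      K - 4 + (OD H c).card + 2 * (OD E c).card := by
  classical
  obtain ⟨k, hk⟩ : ∃ k, K = 2 * k := ⟨K / 2, by omega⟩
  have hsub : (gridSet K E H).filter (fun a => (a + c) % 2 = 1) ⊆
      ((Icc 3 (2 * k - 2)).filter fun x => (x + c) % 2 = 1).image (fun x => -x) ∪
        ((Icc 3 (2 * k - 2)).filter fun x => (x + c) % 2 = 1) ∪ OD H c ∪
          (OD E c).image (fun e => K + e) ∪ (OD E c).image (fun e => -K - e) := by
    intro x hx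
    rw [mem_filter, mem_gridSet] at hx
    obtain ⟨hx, hp⟩ := hx
    simp only [mem_union]
    rcases hx with h | h | h | h | h
    · left; left; left; left
      rw [mem_image]
      exact ⟨-x, by rw [mem_filter, mem_Icc]; omega, by ring⟩
    · left; left; left; right
      rw [mem_filter, mem_Icc]; omega
    · left; left; right
      rw [OD, mem_filter]; exact ⟨h, hp⟩
    · left; right
      rw [mem_image]
      exact ⟨x - K, by rw [OD, mem_filter]; exact ⟨h, by omega⟩, by ring⟩
    · right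
      rw [mem_image]
      exact ⟨-K - x, by rw [OD, mem_filter]; exact ⟨h, by omega⟩, by ring⟩
  have h0 := card_le_card hsub
  have h1 := card_union_le (((Icc 3 (2 * k - 2)).filter fun x => (x + c) % 2 = 1).image
    (fun x => -x) ∪ ((Icc 3 (2 * k - 2)).filter fun x => (x + c) % 2 = 1) ∪ OD H c ∪
          (OD E c).image (fun e => K + e)) ((OD E c).image (fun e => -K - e))
  have h2 := card_union_le (((Icc 3 (2 * k - 2)).filter fun x => (x + c) % 2 = 1).image
    (fun x => -x) ∪ ((Icc 3 (2 * k - 2)).filter fun x => (x + c) % 2 = 1) ∪ OD H c)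
          ((OD E c).image (fun e => K + e))
  have h3 := card_union_le (((Icc 3 (2 * k - 2)).filter fun x => (x + c) % 2 = 1).image
    (fun x => -x) ∪ ((Icc 3 (2 * k - 2)).filter fun x => (x + c) % 2 = 1)) (OD H c)
  have h4 := card_union_le (((Icc 3 (2 * k - 2)).filter fun x => (x + c) % 2 = 1).image
    (fun x => -x)) ((Icc 3 (2 * k - 2)).filter fun x => (x + c) % 2 = 1)
  have h5 : (((Icc 3 (2 * k - 2)).filter fun x => (x + c) % 2 = 1).image (fun x => -x)).card ≤
    ((Icc 3 (2 * k - 2)).filter fun x => (x + c) % 2 = 1).card := card_image_le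
  have h6 : ((OD E c).image (fun e => K + e)).card ≤ (OD E c).card := card_image_le
  have h7 : ((OD E c).image (fun e => -K - e)).card ≤ (OD E c).card := card_image_le
  have h8 := card_parity k c (by omega)
  omega

set_option maxHeartbeats 1000000 in
theorem count_m {K : ℤ} (hK : 54 ≤ K) (hK2 : K % 2 = 0) {E0 E1 E2 H0 H1 H2 C1 C2 : Finset ℤ}
    (hE0 : Bd (-1) 2 E0) (hE1 : Bd (-1) 2 E1) (hE2 : Bd (-1) 2 E2)
    (hH0 : Bd (-2) 2 H0) (hH1 : Bd (-2) 2 H1) (hH2 : Bd (-2) 2 H2)
    (hC1 : Bd (-12) 12 C1) (hC2 : Bd (-12) 12 C2) {c : ℤ}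
    (hc1 : -12 ≤ c) (hc2 : c ≤ 12) :
    ((TM (gridSet K E0 H0) (gridSet K E1 H1) (gridSet K E2 H2) C1 C2 c).card : ℤ) +
      (UM E1 E2 c).card + (UM E1 E2 (-c)).card ≤ 3 * K + 29 + (OD H0 c).card +
        2 * (OD E0 c).card + (TH C1 C2 c).card := by
  classical
  set U1 := (UM E1 E2 c).image (fun e => K + e) with hU1
  set U2 := (UM E1 E2 (-c)).image (fun e => -K - e) with hU2
  have b1 : ∀ x ∈ U1, ∃ e, x = K + e ∧ -1 ≤ e ∧ e ≤ 16 ∧ e ∉ E1 ∧ -1 ≤ e + c ∧ e + c ∉ E2 := by
    intro x hx
    simp only [hU1, UM, mem_image, mem_filter, mem_Icc] at hx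
    obtain ⟨e, ⟨⟨h1, h2⟩, h3, h4, h5⟩, rfl⟩ := hx
    exact ⟨e, rfl, h1, h2, h3, h4, h5⟩
  have b2 : ∀ x ∈ U2, ∃ e, x = -K - e ∧ -1 ≤ e ∧ e ≤ 16 ∧ e ∉ E1 ∧ -1 ≤ e + -c ∧
      e + -c ∉ E2 := by
    intro x hx
    simp only [hU2, UM, mem_image, mem_filter, mem_Icc] at hx
    obtain ⟨e, ⟨⟨h1, h2⟩, h3, h4, h5⟩, rfl⟩ := hx
    exact ⟨e, rfl, h1, h2, h3, h4, h5⟩
  have d12 : Disjoint U1 U2 := by
    rw [Finset.disjoint_left]
    intro x h1 h2
    obtain ⟨e, h, _⟩ := b1 x h1
    obtain ⟨e', h', _⟩ := b2 x h2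
    omega
  have hcU : (U1 ∪ U2).card = (UM E1 E2 c).card + (UM E1 E2 (-c)).card := by
    rw [card_union_of_disjoint d12]
    congr 1
    · exact card_image_of_injective _ fun x y h => by simpa using h
    · exact card_image_of_injective _ fun x y h => by simpa using h
  have hUI : U1 ∪ U2 ⊆ Icc (-K - 16) (K + 16) := by
    intro x hx
    rw [mem_Icc]
    rcases mem_union.1 hx with h | h
    · obtain ⟨e, h, _⟩ := b1 x h
      omega
    · obtain ⟨e, h, _⟩ := b2 x h
      omega
  have hcX : ((Icc (-K - 16) (K + 16) \ (U1 ∪ U2)).card : ℤ) =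
      2 * K + 33 - (U1 ∪ U2).card := by
    rw [card_sdiff_of_subset hUI, Nat.cast_sub (card_le_card hUI), Int.card_Icc]
    rw [Int.toNat_of_nonneg (by omega)]
    ring
  have key : ∀ x, x ∈ U1 ∪ U2 → x ∉ gridSet K E1 H1 ∧ x + c ∉ gridSet K E2 H2 ∧
      (K - 1 ≤ x ∨ x ≤ -K + 1) := by
    intro x hx
    rcases mem_union.1 hx with h | h
    · obtain ⟨e, rfl, h1, h2, h3, h4, h5⟩ := b1 x h
      refine ⟨fun h => ?_, fun h => ?_, Or.inl (by omega)⟩
      · have := gridSet_right hK hE1 hH1 h (by omega)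
        rw [show K + e - K = e by ring] at this
        exact h3 this
      · have := gridSet_right hK hE2 hH2 h (by omega)
        rw [show K + e + c - K = e + c by ring] at this
        exact h5 this
    · obtain ⟨e, rfl, h1, h2, h3, h4, h5⟩ := b2 x h
      refine ⟨fun h => ?_, fun h => ?_, Or.inr (by omega)⟩
      · have := gridSet_left hK hE1 hH1 h (by omega)
        rw [show -K - (-K - e) = e by ring] at this
        exact h3 this
      · have := gridSet_left hK hE2 hH2 h (by omega)
        rw [show -K - (-K - e + c) = e + -c by ring] at this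
        exact h5 this
  have hsub : TM (gridSet K E0 H0) (gridSet K E1 H1) (gridSet K E2 H2) C1 C2 c ⊆
      (Icc (-K - 16) (K + 16) \ (U1 ∪ U2)).image (fun x => 6 * x) ∪
        ((gridSet K E0 H0).filter fun a => (a + c) % 2 = 1).image (fun a => -3 * a - 3 * c) ∪
          (TH C1 C2 c).image (fun d => 2 * d) := by
    intro t ht
    unfold TM at ht
    simp only [mem_union, mem_image] at ht
    simp only [mem_union]
    rcases ht with (((⟨b, hb, rfl⟩ | ⟨b, hb, rfl⟩) | ⟨b, hb, rfl⟩) | ⟨d, hd, rfl⟩) | ⟨d, hd, rfl⟩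
    · by_cases hodd : (b + c) % 2 = 1
      · left; right
        rw [mem_image]
        exact ⟨b, by rw [mem_filter]; exact ⟨hb, hodd⟩, rfl⟩
      · left; left
        rw [mem_image]
        have := gridSet_bd hK hE0 hH0 hb
        refine ⟨-(b + c) / 2, ?_, by omega⟩
        rw [mem_sdiff, mem_Icc]
        refine ⟨by omega, fun h => ?_⟩
        have := (key _ h).2.2
        omega
    · left; left
      rw [mem_image]
      refine ⟨b, ?_, rfl⟩
      rw [mem_sdiff, mem_Icc]
      refine ⟨?_, fun h => (key b h).1 hb⟩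
      have := gridSet_bd hK hE1 hH1 hb
      omega
    · left; left
      rw [mem_image]
      refine ⟨b - c, ?_, by ring⟩
      rw [mem_sdiff, mem_Icc]
      refine ⟨?_, fun h => (key _ h).2.1 (by rwa [show b - c + c = b by ring])⟩
      have := gridSet_bd hK hE2 hH2 hb
      omega
    · have hb := hC1 _ hd
      by_cases h3 : (d - c) % 3 = 0
      · left; left
        rw [mem_image]
        refine ⟨(-d - 2 * c) / 3, ?_, by omega⟩
        rw [mem_sdiff, mem_Icc]
        refine ⟨by omega, fun h => ?_⟩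
        have := (key _ h).2.2
        omega
      · right
        rw [mem_image]
        refine ⟨-d - 2 * c, ?_, by ring⟩
        unfold TH
        rw [mem_union]
        left
        rw [mem_image]
        exact ⟨d, by rw [mem_filter]; exact ⟨hd, h3⟩, rfl⟩
    · have hb := hC2 _ hd
      by_cases h3 : (d - c) % 3 = 0
      · left; left
        rw [mem_image]
        refine ⟨(d - c) / 3, ?_, by omega⟩
        rw [mem_sdiff, mem_Icc]
        refine ⟨by omega, fun h => ?_⟩
        have := (key _ h).2.2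
        omega
      · right
        rw [mem_image]
        refine ⟨d - c, ?_, by ring⟩
        unfold TH
        rw [mem_union]
        right
        rw [mem_image]
        exact ⟨d, by rw [mem_filter]; exact ⟨hd, h3⟩, rfl⟩
  have h1 := card_le_card hsub
  have h2 := card_union_le ((Icc (-K - 16) (K + 16) \ (U1 ∪ U2)).image (fun x => 6 * x) ∪
        ((gridSet K E0 H0).filter fun a => (a + c) % 2 = 1).image (fun a => -3 * a - 3 * c))
          ((TH C1 C2 c).image (fun d => 2 * d))
  have h3 := card_union_le ((Icc (-K - 16) (K + 16) \ (U1 ∪ U2)).image (fun x => 6 * x))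
        (((gridSet K E0 H0).filter fun a => (a + c) % 2 = 1).image (fun a => -3 * a - 3 * c))
  have h4 : ((Icc (-K - 16) (K + 16) \ (U1 ∪ U2)).image (fun x => 6 * x)).card ≤
    (Icc (-K - 16) (K + 16) \ (U1 ∪ U2)).card := card_image_le
  have h5 : (((gridSet K E0 H0).filter fun a => (a + c) % 2 = 1).image
    (fun a => -3 * a - 3 * c)).card ≤
    ((gridSet K E0 H0).filter fun a => (a + c) % 2 = 1).card := card_image_le
  have h6 : ((TH C1 C2 c).image (fun d => 2 * d)).card ≤ (TH C1 C2 c).card := card_image_le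
  have h7 := card_odd hK hK2 E0 H0 c
  rw [hcU] at hcX
  push_cast at hcX
  omega

end Pool.Agent.H55.Dirac
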