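import Pool.Agent.H55.DiracPat

/-!
# Six patterns, one for each even residue modulo 12
-/

open Finset

namespace Pool.Agent.H55.Dirac

namespace Pat

theorem card_gridSet {K : ℤ} (hK : 54 ≤ K) {E H : Finset ℤ} (hE : Bd (-1) 2 E)
    (hH : Bd (-2) 2 H) : ((gridSet K E H).card : ℤ) = 2 * K - 8 + H.card + 2 * E.card := by
  unfold gridSet
  rw [card_union_of_disjoint, card_union_of_disjoint, card_union_of_disjoint,
    card_union_of_disjoint, card_image_of_injective, card_image_of_injective, Int.card_Icc,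
    Int.card_Icc]
  · push_cast
    rw [Int.toNat_of_nonneg (by omega), Int.toNat_of_nonneg (by omega)]
    ring
  · intro x y h; simpa using h
  · intro x y h; simpa using h
  · rw [Finset.disjoint_left]
    intro x hx hx'
    rw [mem_Icc] at hx hx'
    omega
  · rw [Finset.disjoint_left]
    intro x hx hx'
    have := hH _ hx'
    rw [mem_union, mem_Icc, mem_Icc] at hx
    omega
  · rw [Finset.disjoint_left]
    intro x hx hx'
    rw [mem_image] at hx'
    obtain ⟨e, he, rfl⟩ := hx'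
    have := hE _ he
    rw [mem_union, mem_union, mem_Icc, mem_Icc] at hx
    rcases hx with (hx | hx) | hx
    · omega
    · omega
    · have := hH _ hx; omega
  · rw [Finset.disjoint_left]
    intro x hx hx'
    rw [mem_image] at hx'
    obtain ⟨e, he, rfl⟩ := hx'
    have := hE _ he
    rw [mem_union, mem_union, mem_union, mem_Icc, mem_Icc, mem_image] at hx
    rcases hx with ((hx | hx) | hx) | ⟨e', he', hx⟩
    · omega
    · omega
    · have := hH _ hx; omega
    · have := hE _ he'; omega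

theorem card_lines {p : Pat} {K δ : ℤ} (hK : 54 ≤ K) (hp : p.Ok δ) :
    ((p.lines K).card : ℤ) = 6 * K + 2 * δ + 2 := by
  unfold lines
  rw [card_insert_of_notMem, card_union_of_disjoint, card_biUnion, card_biUnion]
  · rw [Fin.sum_univ_three, Fin.sum_univ_three]
    rw [card_image_of_injective _ (fun x y h => by cases h; rfl),
      card_image_of_injective _ (fun x y h => by cases h; rfl),
      card_image_of_injective _ (fun x y h => by cases h; rfl),
      card_image_of_injective _ (fun x y h => by cases h; rfl),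
      card_image_of_injective _ (fun x y h => by cases h; rfl),
      card_image_of_injective _ (fun x y h => by cases h; rfl)]
    have h0 := card_gridSet hK (hp.1 0) (hp.2.1 0)
    have h1 := card_gridSet hK (hp.1 1) (hp.2.1 1)
    have h2 := card_gridSet hK (hp.1 2) (hp.2.1 2)
    have h3 := hp.2.2.2.2.2.2.2.2
    push_cast
    linarith
  · intro i _ j _ hij
    rw [Function.onFun, Finset.disjoint_left]
    intro x hx hx'
    rw [mem_image] at hx hx'
    obtain ⟨a, _, rfl⟩ := hx
    obtain ⟨b, _, h⟩ := hx'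
    cases h
    exact hij rfl
  · intro i _ j _ hij
    rw [Function.onFun, Finset.disjoint_left]
    intro x hx hx'
    rw [mem_image] at hx hx'
    obtain ⟨a, _, rfl⟩ := hx
    obtain ⟨b, _, h⟩ := hx'
    cases h
    exact hij rfl
  · rw [Finset.disjoint_left]
    intro x hx hx'
    simp only [mem_biUnion, mem_univ, true_and, mem_image] at hx hx'
    obtain ⟨i, a, _, rfl⟩ := hx
    obtain ⟨j, b, _, h⟩ := hx'
    cases h
  · intro hx
    simp only [mem_union, mem_biUnion, mem_univ, true_and, mem_image] at hx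
    rcases hx with ⟨i, a, _, h⟩ | ⟨i, a, _, h⟩ <;> cases h

/-- The standard extremal offsets. -/
def stdE : Fin 3 → Finset ℤ := fun _ => {-1, 0, 2}

/-- The standard central offsets. -/
def stdH : Fin 3 → Finset ℤ := fun _ => {-2, -1, 0, 1, 2}

def p0 : Pat := ⟨stdE, stdH,
  ![{-12, -10, -9, -8, -7, -6, -4, -3, -2, 0, 1, 2, 3, 4, 6, 7, 8, 9, 10, 12},
    {-12, -10, -9, -8, -7, -6, -4, -3, -2, -1, 0, 1, 2, 3, 4, 6, 7, 8, 9, 10, 12},
    {-12, -10, -9, -8, -6, -5, -4, -3, -2, -1, 0, 1, 2, 3, 4, 5, 6, 8, 9, 10, 12}]⟩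

def p2 : Pat := ⟨stdE, stdH,
  ![{-12, -10, -9, -8, -7, -6, -5, -4, -3, -2, -1, 0, 2, 3, 4, 5, 6, 7, 8, 9, 10, 12},
    {-12, -10, -9, -8, -6, -5, -4, -3, -2, 0, 1, 2, 3, 4, 5, 6, 7, 8, 9, 10, 12},
    {-12, -10, -8, -7, -6, -5, -4, -3, -2, 0, 1, 2, 3, 4, 5, 6, 7, 8, 9, 10, 12}]⟩

def p4 : Pat := ⟨stdE, stdH, fun _ =>
    {-12, -10, -9, -8, -7, -6, -5, -4, -3, -2, 0, 1, 2, 3, 4, 5, 6, 7, 8, 9, 10, 12}⟩

def p6 : Pat := ⟨stdE, stdH, ![{-2, 0}, {-2, 0, 2}, {-2, 0, 2}]⟩

def p10 : Pat := ⟨stdE, stdH, fun _ => {-6, -3, 0, 6}⟩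

def p8 : Pat := ⟨![{-1, 1}, {0}, {-1, 1}], ![{-2, -1, 0, 1, 2}, {-2, -1, 0, 2}, {-2, -1, 0, 1, 2}],
  ![{-1, 1}, {-2, 0, 2}, {-1, 1}]⟩

instance (r s : ℤ) (S : Finset ℤ) : Decidable (Bd r s S) := by unfold Bd; infer_instance

noncomputable instance (p : Pat) (δ : ℤ) : Decidable (p.Ok δ) := by
  unfold Ok OkL OkM; infer_instance

theorem ok6 : p6.Ok 8 := by decide +kernel

theorem ok8 : p8.Ok 3 := by decide +kernel

theorem ok10 : p10.Ok 10 := by decide +kernel

theorem ok0 : p0.Ok 35 := by decide +kernel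

theorem ok2 : p2.Ok 36 := by decide +kernel

theorem ok4 : p4.Ok 37 := by decide +kernel

end Pat

end Pool.Agent.H55.Dirac
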