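import Mathlib

/-!
# Connecting lines and a determinant criterion
-/

open Set

namespace Pool.Agent.H55.Dirac

/-- The Euclidean plane. -/
abbrev Plane := EuclideanSpace ℝ (Fin 2)

/-- The connecting lines of `S`: the lines through two distinct points of `S`. -/
def connectingLines (S : Set Plane) : Set (AffineSubspace ℝ Plane) :=
  {L | ∃ p ∈ S, ∃ q ∈ S, p ≠ q ∧ L = line[ℝ, p, q]}

/-- `d_S(p)`: the number of connecting lines of `S` passing through `p`. -/
noncomputable def deg (S : Set Plane) (p : Plane) : ℕ :=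
  {L | L ∈ connectingLines S ∧ p ∈ L}.ncard

/-- A labelling of the points other than `p` in which points with equal labels are collinear
with `p` bounds the number of connecting lines through `p`. -/
theorem deg_le {ι β : Type*} (V : Set ι) (P : ι → Plane) (S : Set Plane) (hS : S ⊆ P '' V)
    (v : ι) (f : ι → β) (hinj : InjOn P V) (hv : v ∈ V)
    (hf : ∀ u ∈ V, ∀ w ∈ V, u ≠ v → w ≠ v → f u = f w → P w ∈ line[ℝ, P v, P u])
    (T : Finset β) (hT : ∀ u ∈ V, u ≠ v → f u ∈ T) : deg S (P v) ≤ T.card := by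
  classical
  let g : β → AffineSubspace ℝ Plane := fun t =>
    if h : ∃ u ∈ V, u ≠ v ∧ f u = t then line[ℝ, P v, P h.choose] else ⊥
  have hsub : {L | L ∈ connectingLines S ∧ P v ∈ L} ⊆ g '' (T : Set β) := by
    rintro L ⟨⟨q, hq, r, hr, hqr, rfl⟩, hvL⟩
    -- a point of `S` other than `P v` on the line
    have hx : ∃ u ∈ V, P u ≠ P v ∧ P u ∈ line[ℝ, q, r] := by
      by_cases h : q = P v
      · obtain ⟨u, hu, rfl⟩ := hS hr
        exact ⟨u, hu, fun h2 => hqr (h.trans h2.symm), right_mem_affineSpan_pair ℝ _ _⟩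
      · obtain ⟨u, hu, rfl⟩ := hS hq
        exact ⟨u, hu, h, left_mem_affineSpan_pair ℝ _ _⟩
    obtain ⟨u, hu, hne, huL⟩ := hx
    have huv : u ≠ v := fun h => hne (by rw [h])
    refine ⟨f u, hT u hu huv, ?_⟩
    have hex : ∃ w ∈ V, w ≠ v ∧ f w = f u := ⟨u, hu, huv, rfl⟩
    have hg : g (f u) = line[ℝ, P v, P hex.choose] := dif_pos hex
    obtain ⟨hwV, hwv, hfw⟩ := hex.choose_spec
    rw [hg]
    have h1 : P hex.choose ∈ line[ℝ, P v, P u] := hf u hu _ hwV huv hwv hfw.symm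
    have h2 : P hex.choose ≠ P v := fun h => hwv (hinj hwV hv h)
    have h3 : line[ℝ, P v, P hex.choose] = line[ℝ, P v, P u] :=
      affineSpan_pair_eq_of_mem_of_mem_of_ne
        (left_mem_affineSpan_pair ℝ _ _) h1 h2.symm
    have h4 : line[ℝ, P v, P u] = line[ℝ, q, r] :=
      affineSpan_pair_eq_of_mem_of_mem_of_ne hvL huL hne.symm
    rw [h3, h4]
  calc deg S (P v) ≤ (g '' (T : Set β)).ncard :=
        ncard_le_ncard hsub ((T.finite_toSet).image g)
    _ ≤ (T : Set β).ncard := ncard_image_le T.finite_toSet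
    _ = T.card := ncard_coe_finset T

/-- The cross product of two vectors from `p`. -/
def crossAt (p q r : Plane) : ℝ := (q 0 - p 0) * (r 1 - p 1) - (q 1 - p 1) * (r 0 - p 0)

theorem mem_line_of_cross {p q r : Plane} (hpq : p ≠ q) (h : crossAt p q r = 0) :
    r ∈ line[ℝ, p, q] := by
  set x := q 0 - p 0 with hx
  set y := q 1 - p 1 with hy
  have hxy : x ^ 2 + y ^ 2 ≠ 0 := by
    intro h0
    have hx0 : x = 0 := by nlinarith [sq_nonneg x, sq_nonneg y]
    have hy0 : y = 0 := by nlinarith [sq_nonneg x, sq_nonneg y]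
    apply hpq
    ext i
    fin_cases i
    · simp only [hx] at hx0; simp; linarith
    · simp only [hy] at hy0; simp; linarith
  rw [mem_affineSpan_pair_iff_exists_lineMap_eq]
  refine ⟨(x * (r 0 - p 0) + y * (r 1 - p 1)) / (x ^ 2 + y ^ 2), ?_⟩
  have hc : x * (r 1 - p 1) - y * (r 0 - p 0) = 0 := h
  ext i
  fin_cases i
  · simp [AffineMap.lineMap_apply]
    rw [← hx]
    field_simp
    linear_combination y * hc
  · simp [AffineMap.lineMap_apply]
    rw [← hy]
    field_simp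
    linear_combination (-x) * hc

theorem cross_of_collinear {p q r : Plane} (h : Collinear ℝ ({p, q, r} : Set Plane)) :
    crossAt p q r = 0 := by
  obtain ⟨p₀, v, hv⟩ := (collinear_iff_exists_forall_eq_smul_vadd (k := ℝ) _).1 h
  obtain ⟨a, ha⟩ := hv p (by simp)
  obtain ⟨b, hb⟩ := hv q (by simp)
  obtain ⟨c, hc⟩ := hv r (by simp)
  unfold crossAt
  rw [ha, hb, hc]
  simp
  ring

/-- Integer vectors. -/
abbrev V3 := ℤ × ℤ × ℤ

/-- The linear form `x L ^ 2 + y L + z`. -/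
def phi (L : ℤ) (v : V3) : ℤ := v.1 * L ^ 2 + v.2.1 * L + v.2.2

def det (u v w : V3) : ℤ :=
  u.1 * (v.2.1 * w.2.2 - v.2.2 * w.2.1) - u.2.1 * (v.1 * w.2.2 - v.2.2 * w.1) +
    u.2.2 * (v.1 * w.2.1 - v.2.1 * w.1)

def dot (u v : V3) : ℤ := u.1 * v.1 + u.2.1 * v.2.1 + u.2.2 * v.2.2

theorem det_eq_zero {u v w z : V3} (hu : dot u z = 0) (hv : dot v z = 0) (hw : dot w z = 0)
    (hz : z ≠ 0) : det u v w = 0 := by
  obtain ⟨a, b, c⟩ := z
  obtain ⟨u0, u1, u2⟩ := u
  obtain ⟨v0, v1, v2⟩ := v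
  obtain ⟨w0, w1, w2⟩ := w
  simp only [dot, det] at *
  by_contra hd
  apply hz
  have ha : a = 0 := by
    have : (u0 * (v1 * w2 - v2 * w1) - u1 * (v0 * w2 - v2 * w0) + u2 * (v0 * w1 - v1 * w0)) * a
        = 0 := by
      linear_combination (v1 * w2 - v2 * w1) * hu - (u1 * w2 - u2 * w1) * hv +
        (u1 * v2 - u2 * v1) * hw
    rcases mul_eq_zero.1 this with h | h
    · exact absurd h hd
    · exact h
  have hb : b = 0 := by
    have : (u0 * (v1 * w2 - v2 * w1) - u1 * (v0 * w2 - v2 * w0) + u2 * (v0 * w1 - v1 * w0)) * b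
        = 0 := by
      linear_combination -(v0 * w2 - v2 * w0) * hu + (u0 * w2 - u2 * w0) * hv -
        (u0 * v2 - u2 * v0) * hw
    rcases mul_eq_zero.1 this with h | h
    · exact absurd h hd
    · exact h
  have hc : c = 0 := by
    have : (u0 * (v1 * w2 - v2 * w1) - u1 * (v0 * w2 - v2 * w0) + u2 * (v0 * w1 - v1 * w0)) * c
        = 0 := by
      linear_combination (v0 * w1 - v1 * w0) * hu - (u0 * w1 - u1 * w0) * hv +
        (u0 * v1 - u1 * v0) * hw
    rcases mul_eq_zero.1 this with h | h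
    · exact absurd h hd
    · exact h
  rw [ha, hb, hc]
  rfl

/-- The point of the plane attached to an integer vector. -/
noncomputable def toPt (L : ℤ) (v : V3) : Plane :=
  !₂[(v.1 : ℝ) / (phi L v : ℝ), (v.2.1 : ℝ) / (phi L v : ℝ)]

theorem toPt_zero (L : ℤ) (v : V3) : toPt L v 0 = (v.1 : ℝ) / (phi L v : ℝ) := rfl

theorem toPt_one (L : ℤ) (v : V3) : toPt L v 1 = (v.2.1 : ℝ) / (phi L v : ℝ) := rfl

theorem cross_toPt (L : ℤ) (u v w : V3) (hu : phi L u ≠ 0) (hv : phi L v ≠ 0)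
    (hw : phi L w ≠ 0) :
    crossAt (toPt L u) (toPt L v) (toPt L w) * (phi L u * phi L v * phi L w) =
      (det u v w : ℝ) := by
  have hu' : (phi L u : ℝ) ≠ 0 := by exact_mod_cast hu
  have hv' : (phi L v : ℝ) ≠ 0 := by exact_mod_cast hv
  have hw' : (phi L w : ℝ) ≠ 0 := by exact_mod_cast hw
  unfold crossAt
  rw [toPt_zero, toPt_zero, toPt_zero, toPt_one, toPt_one, toPt_one]
  field_simp
  unfold phi det
  push_cast
  ring

theorem mem_line_toPt {L : ℤ} {u v w : V3} (hu : phi L u ≠ 0) (hv : phi L v ≠ 0)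
    (hw : phi L w ≠ 0) (hne : toPt L u ≠ toPt L v) (hdet : det u v w = 0) :
    toPt L w ∈ line[ℝ, toPt L u, toPt L v] := by
  apply mem_line_of_cross hne
  have h := cross_toPt L u v w hu hv hw
  rw [hdet, Int.cast_zero] at h
  have hu' : (phi L u : ℝ) ≠ 0 := by exact_mod_cast hu
  have hv' : (phi L v : ℝ) ≠ 0 := by exact_mod_cast hv
  have hw' : (phi L w : ℝ) ≠ 0 := by exact_mod_cast hw
  rcases mul_eq_zero.1 h with h | h
  · exact h
  · exact absurd h (mul_ne_zero (mul_ne_zero hu' hv') hw')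

/-- Equal points come from proportional vectors. -/
theorem minors_of_toPt_eq {L : ℤ} {u v : V3} (hu : phi L u ≠ 0) (hv : phi L v ≠ 0)
    (h : toPt L u = toPt L v) :
    u.1 * v.2.1 = u.2.1 * v.1 ∧ u.1 * v.2.2 = u.2.2 * v.1 ∧ u.2.1 * v.2.2 = u.2.2 * v.2.1 := by
  have hu' : (phi L u : ℝ) ≠ 0 := by exact_mod_cast hu
  have hv' : (phi L v : ℝ) ≠ 0 := by exact_mod_cast hv
  have h0 : (u.1 : ℝ) / (phi L u : ℝ) = (v.1 : ℝ) / (phi L v : ℝ) := by
    rw [← toPt_zero, ← toPt_zero, h]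
  have h1 : (u.2.1 : ℝ) / (phi L u : ℝ) = (v.2.1 : ℝ) / (phi L v : ℝ) := by
    rw [← toPt_one, ← toPt_one, h]
  rw [div_eq_div_iff hu' hv'] at h0 h1
  have e0 : u.1 * phi L v = v.1 * phi L u := by exact_mod_cast h0
  have e1 : u.2.1 * phi L v = v.2.1 * phi L u := by exact_mod_cast h1
  have m01 : u.1 * v.2.1 = u.2.1 * v.1 := by
    have : phi L u * phi L v * (u.1 * v.2.1 - u.2.1 * v.1) = 0 := by
      linear_combination (phi L u * v.2.1) * e0 - (phi L u * v.1) * e1
    rcases mul_eq_zero.1 this with h | h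
    · exact absurd h (mul_ne_zero hu hv)
    · linarith
  refine ⟨m01, ?_, ?_⟩
  · have hv2 : v.2.2 = phi L v - v.1 * L ^ 2 - v.2.1 * L := by unfold phi; ring
    have hu2 : u.2.2 = phi L u - u.1 * L ^ 2 - u.2.1 * L := by unfold phi; ring
    rw [hv2, hu2]
    linear_combination e0 - L * m01
  · have hv2 : v.2.2 = phi L v - v.1 * L ^ 2 - v.2.1 * L := by unfold phi; ring
    have hu2 : u.2.2 = phi L u - u.1 * L ^ 2 - u.2.1 * L := by unfold phi; ring
    rw [hv2, hu2]
    linear_combination e1 + L ^ 2 * m01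

end Pool.Agent.H55.Dirac
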