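import Pool.Agent.H55.DiracGeom

/-!
# The triangular grid with six directions, in the dual plane
-/

open Finset

namespace Pool.Agent.H55.Dirac

/-- Lines of the triangular grid `x₀ + x₁ + x₂ = 0`: the line at infinity, the lines `x_i = a`
and the lines `x_{i+2} - x_{i+1} = c`. -/
inductive Ln
  | inf : Ln
  | l : Fin 3 → ℤ → Ln
  | m : Fin 3 → ℤ → Ln
  deriving DecidableEq

namespace Ln

/-- Coefficients of the line in the coordinates `x₀, x₁, 1`. -/
def vec : Ln → V3
  | inf => (0, 0, 1)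
  | l 0 a => (1, 0, -a)
  | l 1 a => (0, 1, -a)
  | l 2 a => (1, 1, a)
  | m 0 c => (1, 2, c)
  | m 1 c => (2, 1, -c)
  | m 2 c => (1, -1, c)

/-- The label of the intersection point of `v` and `u` on `v`. -/
def lab : Ln → Ln → Option ℤ
  | l _ _, inf => none
  | l i a, l i' b => if i' = i then none else if i' = i + 1 then some (2 * b)
      else some (-2 * a - 2 * b)
  | l i a, m i' c => if i' = i then some (-a - c) else if i' = i + 1 then some (2 * c - 4 * a)
      else some (2 * a + 2 * c)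
  | m _ _, inf => none
  | m i c, l i' b => if i' = i then some (-3 * b - 3 * c) else if i' = i + 1 then some (6 * b)
      else some (6 * b - 6 * c)
  | m i c, m i' c' => if i' = i then none else if i' = i + 1 then some (-2 * c' - 4 * c)
      else some (2 * c' - 2 * c)
  | inf, inf => none
  | inf, l i _ => some i.val
  | inf, m i _ => some (3 + i.val)

/-- Homogeneous coordinates of the point with a given label on `v`. -/
def zpt : Ln → Option ℤ → V3
  | l 0 _, none => (0, 1, 0)
  | l 1 _, none => (1, 0, 0)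
  | l 2 _, none => (1, -1, 0)
  | l 0 a, some t => (2 * a, t, 2)
  | l 1 a, some t => (-2 * a - t, 2 * a, 2)
  | l 2 a, some t => (t, -2 * a - t, 2)
  | m 0 _, none => (-2, 1, 0)
  | m 1 _, none => (1, -2, 0)
  | m 2 _, none => (1, 1, 0)
  | m 0 c, some t => (-2 * t - 6 * c, t, 6)
  | m 1 c, some t => (t + 6 * c, -2 * t - 6 * c, 6)
  | m 2 c, some t => (t, t + 6 * c, 6)
  | inf, none => (1, 0, 0)
  | inf, some t => if t = 0 then (0, 1, 0) else if t = 1 then (1, 0, 0) else
      if t = 2 then (1, -1, 0) else if t = 3 then (-2, 1, 0) else if t = 4 then (1, -2, 0)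
      else (1, 1, 0)

theorem zpt_ne_zero (v : Ln) (t : Option ℤ) : zpt v t ≠ 0 := by
  rcases v with _ | ⟨i, a⟩ | ⟨i, c⟩ <;> rcases t with _ | t
  · simp [zpt]
  · simp only [zpt]
    split_ifs <;> simp
  all_goals fin_cases i <;> simp [zpt]

theorem dot_self (v : Ln) (t : Option ℤ) : dot v.vec (zpt v t) = 0 := by
  rcases v with _ | ⟨i, a⟩ | ⟨i, c⟩ <;> rcases t with _ | t
  · simp [zpt, vec, dot]
  · simp only [zpt]
    split_ifs <;> simp [vec, dot]
  all_goals fin_cases i <;> simp [zpt, vec, dot] <;> ring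

theorem dot_lab (v u : Ln) (h : u ≠ v) : dot u.vec (zpt v (lab v u)) = 0 := by
  rcases v with _ | ⟨i, a⟩ | ⟨i, c⟩ <;> rcases u with _ | ⟨i', a'⟩ | ⟨i', c'⟩
  · exact absurd rfl h
  · fin_cases i' <;> simp [zpt, vec, dot, lab]
  · fin_cases i' <;> simp [zpt, vec, dot, lab]
  · fin_cases i <;> simp [zpt, vec, dot, lab]
  · fin_cases i <;> fin_cases i' <;> simp [zpt, vec, dot, lab] <;> ring
  · fin_cases i <;> fin_cases i' <;> simp [zpt, vec, dot, lab] <;> ring
  · fin_cases i <;> simp [zpt, vec, dot, lab]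
  · fin_cases i <;> fin_cases i' <;> simp [zpt, vec, dot, lab] <;> ring
  · fin_cases i <;> fin_cases i' <;> simp [zpt, vec, dot, lab] <;> ring

/-- Lines with the same label on `v` are concurrent with `v`. -/
theorem det_of_lab {v u w : Ln} (hu : u ≠ v) (hw : w ≠ v) (h : lab v u = lab v w) :
    det v.vec u.vec w.vec = 0 :=
  det_eq_zero (dot_self v (lab v u)) (dot_lab v u hu) (by rw [h]; exact dot_lab v w hw)
    (zpt_ne_zero _ _)

theorem eq_of_minors {u v : Ln}
    (h1 : u.vec.1 * v.vec.2.1 = u.vec.2.1 * v.vec.1)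
    (h2 : u.vec.1 * v.vec.2.2 = u.vec.2.2 * v.vec.1)
    (h3 : u.vec.2.1 * v.vec.2.2 = u.vec.2.2 * v.vec.2.1) : u = v := by
  rcases v with _ | ⟨i, a⟩ | ⟨i, c⟩ <;> rcases u with _ | ⟨i', a'⟩ | ⟨i', c'⟩
  · rfl
  · fin_cases i' <;> simp [vec] at *
  · fin_cases i' <;> simp [vec] at *
  · fin_cases i <;> simp [vec] at *
  · fin_cases i <;> fin_cases i' <;> simp [vec] at * <;> omega
  · fin_cases i <;> fin_cases i' <;> simp [vec] at *
  · fin_cases i <;> simp [vec] at *
  · fin_cases i <;> fin_cases i' <;> simp [vec] at *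
  · fin_cases i <;> fin_cases i' <;> simp [vec] at * <;> omega

/-- The size of the offset of a line. -/
def Small (K : ℤ) : Ln → Prop
  | inf => True
  | l _ a => -K < a ∧ a < K
  | m _ c => -K < c ∧ c < K

theorem phi_pos {K : ℤ} (hK : 3 ≤ K) {v : Ln} (hv : v.Small K) : 0 < phi K v.vec := by
  rcases v with _ | ⟨i, a⟩ | ⟨i, c⟩
  · simp [phi, vec]
  · obtain ⟨h1, h2⟩ := hv
    fin_cases i <;> simp [phi, vec] <;> nlinarith
  · obtain ⟨h1, h2⟩ := hv
    fin_cases i <;> simp [phi, vec] <;> nlinarith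

/-- The point dual to a line. -/
noncomputable def pt (K : ℤ) (v : Ln) : Plane := toPt K v.vec

theorem pt_injOn {K : ℤ} (hK : 3 ≤ K) : Set.InjOn (pt K) {v | v.Small K} := by
  intro u hu v hv h
  have h1 := minors_of_toPt_eq (phi_pos hK hu).ne' (phi_pos hK hv).ne' h
  exact eq_of_minors h1.1 h1.2.1 h1.2.2

theorem pt_mem_line {K : ℤ} (hK : 3 ≤ K) {v u w : Ln} (hv : v.Small K) (hu : u.Small K)
    (hw : w.Small K) (huv : u ≠ v) (hwv : w ≠ v) (h : lab v u = lab v w) :
    pt K w ∈ line[ℝ, pt K v, pt K u] :=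
  mem_line_toPt (phi_pos hK hv).ne' (phi_pos hK hu).ne' (phi_pos hK hw).ne'
    (fun h2 => huv (pt_injOn hK hu hv h2.symm)) (det_of_lab huv hwv h)

end Ln

end Pool.Agent.H55.Dirac
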