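import Pool.Agent.H55.DiracLines
import Pool.Agent.H55.DiracCount2

/-!
# Assembling an arrangement from a pattern
-/

open Finset

namespace Pool.Agent.H55.Dirac

/-- A pattern: extremal offsets `E i`, central offsets `H i` of the lines `x_i = a` and the
offsets `C i` of the lines `x_{i+2} - x_{i+1} = c`. -/
structure Pat where
  E : Fin 3 → Finset ℤ
  H : Fin 3 → Finset ℤ
  C : Fin 3 → Finset ℤ

namespace Pat

def neg (p : Pat) : Pat :=
  ⟨p.E, fun i => (p.H i).image fun x => -x, fun i => (p.C i).image fun x => -x⟩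

/-- The check for the lines `x_i = a` near the positive end. -/
def OkL (p : Pat) (δ : ℤ) : Prop :=
  ∀ i : Fin 3, ∀ j ∈ Icc (-36 : ℤ) 2, (j ≤ -2 ∨ j ∈ p.E i) →
    j + 34 + (OD (p.C i) j).card ≤ δ + (UR (p.E (i + 1)) (p.C (i + 2)) j).card +
      (UL (p.E (i + 2)) (p.C (i + 1)) j).card + (UC (p.E (i + 2)) (p.H (i + 1)) j).card +
        (UC (p.E (i + 1)) (p.H (i + 2)) j).card

/-- The check for the lines `x_{i+2} - x_{i+1} = c`. -/
def OkM (p : Pat) (δ : ℤ) : Prop :=
  ∀ i : Fin 3, ∀ c ∈ p.C i,
    30 + (OD (p.H i) c).card + 2 * (OD (p.E i) c).card +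
      (TH (p.C (i + 1)) (p.C (i + 2)) c).card ≤
        δ + (UM (p.E (i + 1)) (p.E (i + 2)) c).card + (UM (p.E (i + 1)) (p.E (i + 2)) (-c)).card

/-- All checks. -/
def Ok (p : Pat) (δ : ℤ) : Prop :=
  (∀ i, Bd (-1) 2 (p.E i)) ∧ (∀ i, Bd (-2) 2 (p.H i)) ∧ (∀ i, Bd (-12) 12 (p.C i)) ∧
    p.OkL δ ∧ p.neg.OkL δ ∧ p.OkM δ ∧
      ((p.C 0).card + (p.C 1).card + (p.C 2).card : ℤ) - 31 ≤ δ ∧ -100 ≤ δ ∧
        (2 * δ + 2 : ℤ) = -23 + ((p.H 0).card + (p.H 1).card + (p.H 2).card : ℤ) +
          2 * ((p.E 0).card + (p.E 1).card + (p.E 2).card : ℤ) +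
            ((p.C 0).card + (p.C 1).card + (p.C 2).card : ℤ)

/-- The lines of the arrangement. -/
noncomputable def lines (p : Pat) (K : ℤ) : Finset Ln :=
  insert Ln.inf ((univ.biUnion fun i : Fin 3 => (gridSet K (p.E i) (p.H i)).image (Ln.l i)) ∪
    univ.biUnion fun i : Fin 3 => (p.C i).image (Ln.m i))

theorem mem_lines {p : Pat} {K : ℤ} {v : Ln} :
    v ∈ p.lines K ↔ v = Ln.inf ∨ (∃ i, ∃ a ∈ gridSet K (p.E i) (p.H i), Ln.l i a = v) ∨
      ∃ i, ∃ c ∈ p.C i, Ln.m i c = v := by
  unfold lines
  simp only [mem_insert, mem_union, mem_biUnion, mem_univ, true_and, mem_image]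

theorem l_mem_lines {p : Pat} {K : ℤ} {i : Fin 3} {a : ℤ} :
    Ln.l i a ∈ p.lines K ↔ a ∈ gridSet K (p.E i) (p.H i) := by
  rw [mem_lines]
  constructor
  · rintro (h | ⟨i', a', h, h2⟩ | ⟨i', c', h, h2⟩)
    · cases h
    · cases h2; exact h
    · cases h2
  · intro h
    exact Or.inr (Or.inl ⟨i, a, h, rfl⟩)

theorem m_mem_lines {p : Pat} {K : ℤ} {i : Fin 3} {c : ℤ} :
    Ln.m i c ∈ p.lines K ↔ c ∈ p.C i := by
  rw [mem_lines]
  constructor
  · rintro (h | ⟨i', a', h, h2⟩ | ⟨i', c', h, h2⟩)
    · cases h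
    · cases h2
    · cases h2; exact h
  · intro h
    exact Or.inr (Or.inr ⟨i, c, h, rfl⟩)

theorem inf_mem_lines {p : Pat} {K : ℤ} : Ln.inf ∈ p.lines K := mem_insert_self _ _

theorem small {p : Pat} {K δ : ℤ} (hK : 54 ≤ K) (hp : p.Ok δ) {v : Ln} (hv : v ∈ p.lines K) :
    v.Small (K + 3) := by
  rcases v with _ | ⟨i, a⟩ | ⟨i, c⟩
  · trivial
  · rw [l_mem_lines] at hv
    have := gridSet_bd hK (hp.1 i) (hp.2.1 i) hv
    simp only [Ln.Small]
    omega
  · rw [m_mem_lines] at hv
    have := hp.2.2.1 i c hv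
    simp only [Ln.Small]
    omega

/-- The number of labels on a line `x_i = a`. -/
theorem card_TL {p : Pat} {K δ : ℤ} (hK : 54 ≤ K) (hK2 : K % 2 = 0) (hp : p.Ok δ) (i : Fin 3)
    {a : ℤ} (ha : a ∈ gridSet K (p.E i) (p.H i)) (ha0 : 0 ≤ a) :
    ((TL (gridSet K (p.E (i + 1)) (p.H (i + 1))) (gridSet K (p.E (i + 2)) (p.H (i + 2)))
      (p.C i) (p.C (i + 1)) (p.C (i + 2)) a).card : ℤ) + 1 ≤ 3 * K + δ := by
  obtain ⟨hE, hH, hC, hL, -, -, hcard, -, -⟩ := hp
  by_cases h : a ≤ K - 37
  · have h1 := count_mid hK (hE (i + 1)) (hE (i + 2)) (hH (i + 1)) (hH (i + 2)) (C0 := p.C i)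
      (C1 := p.C (i + 1)) (C2 := p.C (i + 2)) ha0
    have h2 : ((p.C i).card + (p.C (i + 1)).card + (p.C (i + 2)).card : ℤ) =
        (p.C 0).card + (p.C 1).card + (p.C 2).card := by
      fin_cases i <;> simp <;> ring
    omega
  · have h3 := gridSet_bd hK (hE i) (hH i) ha
    obtain ⟨j, rfl⟩ : ∃ j, a = K + j := ⟨a - K, by ring⟩
    have h1 := count_l hK hK2 (hE (i + 1)) (hE (i + 2)) (hH (i + 1)) (hH (i + 2)) (hC i)
      (hC (i + 1)) (hC (i + 2)) (j := j) (by omega) (by omega)
    have h2 := hL i j (by rw [mem_Icc]; omega) (by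
      by_cases hj : j ≤ -2
      · exact Or.inl hj
      · right
        have := gridSet_right hK (hE i) (hH i) ha (by omega)
        rwa [show K + j - K = j by ring] at this)
    omega

theorem neg_ok_aux {p : Pat} {δ : ℤ} (hp : p.Ok δ) :
    (∀ i, Bd (-1) 2 (p.neg.E i)) ∧ (∀ i, Bd (-2) 2 (p.neg.H i)) ∧
      (∀ i, Bd (-12) 12 (p.neg.C i)) := by
  obtain ⟨hE, hH, hC, -⟩ := hp
  refine ⟨hE, fun i x hx => ?_, fun i x hx => ?_⟩
  · simp only [neg, mem_image] at hx
    obtain ⟨y, hy, rfl⟩ := hx
    have := hH i y hy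
    omega
  · simp only [neg, mem_image] at hx
    obtain ⟨y, hy, rfl⟩ := hx
    have := hC i y hy
    omega

theorem card_TL_neg {p : Pat} {K δ : ℤ} (hK : 54 ≤ K) (hK2 : K % 2 = 0) (hp : p.Ok δ) (i : Fin 3)
    {a : ℤ} (ha : a ∈ gridSet K (p.E i) (p.H i)) (ha0 : a ≤ 0) :
    ((TL (gridSet K (p.E (i + 1)) (p.H (i + 1))) (gridSet K (p.E (i + 2)) (p.H (i + 2)))
      (p.C i) (p.C (i + 1)) (p.C (i + 2)) a).card : ℤ) + 1 ≤ 3 * K + δ := by
  obtain ⟨hE, hH, hC⟩ := neg_ok_aux hp
  obtain ⟨-, -, -, -, hL, -, hcard, -, -⟩ := hp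
  rw [← TL_card_neg, gridSet_neg, gridSet_neg]
  have ha' : -a ∈ gridSet K (p.neg.E i) (p.neg.H i) := by
    have : -a ∈ (gridSet K (p.E i) (p.H i)).image (fun x => -x) := mem_image_of_mem _ ha
    rwa [gridSet_neg] at this
  change ((TL (gridSet K (p.neg.E (i + 1)) (p.neg.H (i + 1)))
    (gridSet K (p.neg.E (i + 2)) (p.neg.H (i + 2)))
      (p.neg.C i) (p.neg.C (i + 1)) (p.neg.C (i + 2)) (-a)).card : ℤ) + 1 ≤ 3 * K + δ
  have hcn : ∀ i, (p.neg.C i).card = (p.C i).card := fun i =>
    card_image_of_injective _ neg_injective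
  by_cases h : -a ≤ K - 37
  · have h1 := count_mid hK (hE (i + 1)) (hE (i + 2)) (hH (i + 1)) (hH (i + 2))
      (C0 := p.neg.C i) (C1 := p.neg.C (i + 1)) (C2 := p.neg.C (i + 2)) (a := -a) (by omega)
    rw [hcn, hcn, hcn] at h1
    have h2 : ((p.C i).card + (p.C (i + 1)).card + (p.C (i + 2)).card : ℤ) =
        (p.C 0).card + (p.C 1).card + (p.C 2).card := by
      fin_cases i <;> simp <;> ring
    omega
  · have h3 := gridSet_bd hK (hE i) (hH i) ha'
    obtain ⟨j, hj⟩ : ∃ j, -a = K + j := ⟨-a - K, by ring⟩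
    rw [hj] at ha' ⊢
    have h1 := count_l hK hK2 (hE (i + 1)) (hE (i + 2)) (hH (i + 1)) (hH (i + 2)) (hC i)
      (hC (i + 1)) (hC (i + 2)) (j := j) (by omega) (by omega)
    have h2 := hL i j (by rw [mem_Icc]; omega) (by
      by_cases hj : j ≤ -2
      · exact Or.inl hj
      · right
        have := gridSet_right hK (hE i) (hH i) ha' (by omega)
        rwa [show K + j - K = j by ring] at this)
    omega

/-- The number of labels on a line `x_{i+2} - x_{i+1} = c`. -/
theorem card_TM {p : Pat} {K δ : ℤ} (hK : 54 ≤ K) (hK2 : K % 2 = 0) (hp : p.Ok δ) (i : Fin 3)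
    {c : ℤ} (hc : c ∈ p.C i) :
    ((TM (gridSet K (p.E i) (p.H i)) (gridSet K (p.E (i + 1)) (p.H (i + 1)))
      (gridSet K (p.E (i + 2)) (p.H (i + 2))) (p.C (i + 1)) (p.C (i + 2)) c).card : ℤ) + 1 ≤
        3 * K + δ := by
  obtain ⟨hE, hH, hC, -, -, hM, -, -, -⟩ := hp
  have hcb := hC i c hc
  have h1 := count_m hK hK2 (hE i) (hE (i + 1)) (hE (i + 2)) (hH i) (hH (i + 1)) (hH (i + 2))
    (hC (i + 1)) (hC (i + 2)) hcb.1 hcb.2
  have h2 := hM i c hc
  omega

/-- The labels on any line of the arrangement. -/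
theorem labels {p : Pat} {K δ : ℤ} (hK : 54 ≤ K) (hK2 : K % 2 = 0) (hp : p.Ok δ) {v : Ln}
    (hv : v ∈ p.lines K) :
    ∃ T : Finset (Option ℤ), (T.card : ℤ) ≤ 3 * K + δ ∧
      ∀ u ∈ p.lines K, u ≠ v → v.lab u ∈ T := by
  classical
  rcases v with _ | ⟨i, a⟩ | ⟨i, c⟩
  · refine ⟨insert none ((Finset.range 6).image fun n : ℕ => some (n : ℤ)), ?_, ?_⟩
    · have h1 := card_insert_le (none : Option ℤ) ((Finset.range 6).image fun n : ℕ => some (n : ℤ))
      have h2 : ((Finset.range 6).image fun n : ℕ => some (n : ℤ)).card ≤ 6 := by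
        refine card_image_le.trans ?_
        simp
      have h3 := hp.2.2.2.2.2.2.2.1
      omega
    · intro u _ _
      rcases u with _ | ⟨i', a'⟩ | ⟨i', c'⟩
      · exact mem_insert_self _ _
      · refine mem_insert_of_mem ?_
        rw [mem_image]
        exact ⟨i'.val, by rw [mem_range]; omega, rfl⟩
      · refine mem_insert_of_mem ?_
        rw [mem_image]
        exact ⟨3 + i'.val, by rw [mem_range]; omega, by simp [Ln.lab]⟩
  · rw [l_mem_lines] at hv
    set T := TL (gridSet K (p.E (i + 1)) (p.H (i + 1))) (gridSet K (p.E (i + 2)) (p.H (i + 2)))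
      (p.C i) (p.C (i + 1)) (p.C (i + 2)) a with hT
    have hcard : (T.card : ℤ) + 1 ≤ 3 * K + δ := by
      rcases le_total 0 a with h | h
      · exact card_TL hK hK2 hp i hv h
      · exact card_TL_neg hK hK2 hp i hv h
    refine ⟨insert none (T.image some), ?_, ?_⟩
    · have h1 := card_insert_le (none : Option ℤ) (T.image some)
      have h2 : (T.image (some : ℤ → Option ℤ)).card ≤ T.card := card_image_le
      omega
    · intro u hu huv
      rcases u with _ | ⟨i', a'⟩ | ⟨i', c'⟩
      · exact mem_insert_self _ _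
      · rw [l_mem_lines] at hu
        by_cases h0 : i' = i
        · subst h0
          simp [Ln.lab]
        · by_cases h1 : i' = i + 1
          · subst h1
            refine mem_insert_of_mem (mem_image.2 ⟨2 * a', ?_, ?_⟩)
            · rw [hT]; unfold TL
              simp only [mem_union]
              left; left; left; left
              exact mem_image_of_mem _ hu
            · simp [Ln.lab]
          · have h2 : i' = i + 2 := by omega
            subst h2
            refine mem_insert_of_mem (mem_image.2 ⟨-2 * a - 2 * a', ?_, ?_⟩)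
            · rw [hT]; unfold TL
              simp only [mem_union]
              left; left; left; right
              exact mem_image_of_mem (fun b => -2 * a - 2 * b) hu
            · simp only [Ln.lab]; rw [if_neg h0, if_neg h1]
      · rw [m_mem_lines] at hu
        by_cases h0 : i' = i
        · subst h0
          refine mem_insert_of_mem (mem_image.2 ⟨-a - c', ?_, ?_⟩)
          · rw [hT]; unfold TL
            simp only [mem_union]
            left; left; right
            exact mem_image_of_mem _ hu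
          · simp [Ln.lab]
        · by_cases h1 : i' = i + 1
          · subst h1
            refine mem_insert_of_mem (mem_image.2 ⟨2 * c' - 4 * a, ?_, ?_⟩)
            · rw [hT]; unfold TL
              simp only [mem_union]
              left; right
              exact mem_image_of_mem (fun c => 2 * c - 4 * a) hu
            · simp only [Ln.lab]; rw [if_neg h0, if_pos trivial]
          · have h2 : i' = i + 2 := by omega
            subst h2
            refine mem_insert_of_mem (mem_image.2 ⟨2 * a + 2 * c', ?_, ?_⟩)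
            · rw [hT]; unfold TL
              simp only [mem_union]
              right
              exact mem_image_of_mem (fun c => 2 * a + 2 * c) hu
            · simp only [Ln.lab]; rw [if_neg h0, if_neg h1]
  · rw [m_mem_lines] at hv
    set T := TM (gridSet K (p.E i) (p.H i)) (gridSet K (p.E (i + 1)) (p.H (i + 1)))
      (gridSet K (p.E (i + 2)) (p.H (i + 2))) (p.C (i + 1)) (p.C (i + 2)) c with hT
    have hcard : (T.card : ℤ) + 1 ≤ 3 * K + δ := card_TM hK hK2 hp i hv
    refine ⟨insert none (T.image some), ?_, ?_⟩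
    · have h1 := card_insert_le (none : Option ℤ) (T.image some)
      have h2 : (T.image (some : ℤ → Option ℤ)).card ≤ T.card := card_image_le
      omega
    · intro u hu huv
      rcases u with _ | ⟨i', a'⟩ | ⟨i', c'⟩
      · exact mem_insert_self _ _
      · rw [l_mem_lines] at hu
        by_cases h0 : i' = i
        · subst h0
          refine mem_insert_of_mem (mem_image.2 ⟨-3 * a' - 3 * c, ?_, ?_⟩)
          · rw [hT]; unfold TM
            simp only [mem_union]
            left; left; left; left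
            exact mem_image_of_mem (fun a => -3 * a - 3 * c) hu
          · simp [Ln.lab]
        · by_cases h1 : i' = i + 1
          · subst h1
            refine mem_insert_of_mem (mem_image.2 ⟨6 * a', ?_, ?_⟩)
            · rw [hT]; unfold TM
              simp only [mem_union]
              left; left; left; right
              exact mem_image_of_mem (fun b => 6 * b) hu
            · simp only [Ln.lab]; rw [if_neg h0, if_pos trivial]
          · have h2 : i' = i + 2 := by omega
            subst h2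
            refine mem_insert_of_mem (mem_image.2 ⟨6 * a' - 6 * c, ?_, ?_⟩)
            · rw [hT]; unfold TM
              simp only [mem_union]
              left; left; right
              exact mem_image_of_mem (fun b => 6 * b - 6 * c) hu
            · simp only [Ln.lab]; rw [if_neg h0, if_neg h1]
      · rw [m_mem_lines] at hu
        by_cases h0 : i' = i
        · subst h0
          simp [Ln.lab]
        · by_cases h1 : i' = i + 1
          · subst h1
            refine mem_insert_of_mem (mem_image.2 ⟨-2 * c' - 4 * c, ?_, ?_⟩)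
            · rw [hT]; unfold TM
              simp only [mem_union]
              left; right
              exact mem_image_of_mem (fun d => -2 * d - 4 * c) hu
            · simp only [Ln.lab]; rw [if_neg h0, if_pos trivial]
          · have h2 : i' = i + 2 := by omega
            subst h2
            refine mem_insert_of_mem (mem_image.2 ⟨2 * c' - 2 * c, ?_, ?_⟩)
            · rw [hT]; unfold TM
              simp only [mem_union]
              right
              exact mem_image_of_mem (fun d => 2 * d - 2 * c) hu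
            · simp only [Ln.lab]; rw [if_neg h0, if_neg h1]

end Pat

end Pool.Agent.H55.Dirac
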