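import Mathlib

/-!
# S11, part (5): the square lemma, abstract form

`U` = total cochains with values in `V`, `W` = total cochains with values in `V ⊗ V` (characteristic 2), `gU q`, `gW q` the cochains of degree `q`,
`T` the exchange of the factors, `sq e` the value-wise square `e ⊗ e`.  `Sym = ker (1 + T)`, `Alt = im (1 + T)`; `repr`, `inj` say that `sq` induces
`V = Sym / Alt` on cochains of degree `q`.
If `H^q(W) = 0` for all `q ≤ 2 j` and every cocycle `a` of degree `i ≤ j` has `u_0 = a ∪_0 a, …, u_i = a ∪_i a = sq a` with `d u_(s+1) = (1 + T) u_s`,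
then `H^i(U) = 0` for `i ≤ j`.
-/

set_option autoImplicit false

namespace Pool.Agent.H55.Sq

variable {U W : Type*} [AddCommGroup U] [AddCommGroup W]

/-- The data of the square lemma. -/
structure SqData (dU : U →+ U) (dW T : W →+ W) (gU : ℤ → AddSubgroup U) (gW : ℤ → AddSubgroup W) (sq : U → W) : Prop where
  two : ∀ w : W, w + w = 0
  T_T : ∀ w, T (T w) = w
  T_dW : ∀ w, T (dW w) = dW (T w)
  dW_dW : ∀ w, dW (dW w) = 0
  dW_mem : ∀ q, ∀ w ∈ gW q, dW w ∈ gW (q + 1)
  T_mem : ∀ q, ∀ w ∈ gW q, T w ∈ gW q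
  dU_mem : ∀ q, ∀ e ∈ gU q, dU e ∈ gU (q + 1)
  sq_mem : ∀ q, ∀ e ∈ gU q, sq e ∈ gW q
  negU : ∀ q, q < 0 → ∀ e ∈ gU q, e = 0
  negW : ∀ q, q < 0 → ∀ w ∈ gW q, w = 0
  sq_sym : ∀ e, T (sq e) = sq e
  sq_d : ∀ q, ∀ e ∈ gU q, ∃ y ∈ gW (q + 1), dW (sq e) = sq (dU e) + (y + T y)
  repr : ∀ q, ∀ w ∈ gW q, T w = w → ∃ v ∈ gU q, ∃ y ∈ gW q, w = sq v + (y + T y)
  sq_zero : sq 0 = 0
  inj : ∀ q, ∀ v ∈ gU q, ∀ v' ∈ gU q, ∀ y : W, sq v = sq v' + (y + T y) → v = v'

variable {dU : U →+ U} {dW T : W →+ W} {gU : ℤ → AddSubgroup U} {gW : ℤ → AddSubgroup W} {sq : U → W}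

/-- exactness in degree `q` -/
def Ex {A : Type*} [AddCommGroup A] (d : A →+ A) (g : ℤ → AddSubgroup A) (q : ℤ) : Prop :=
  ∀ w ∈ g q, d w = 0 → ∃ x ∈ g (q - 1), d x = w

private theorem two_swap (two : ∀ w : W, w + w = 0) {a b c d : W} (h : a + b = c + d) : a + c = b + d := by
  have h1 : a + c = (a + b) + (c + b) - (b + b) := by abel
  rw [h1, h, two b, sub_zero]
  have h2 : c + d + (c + b) = (c + c) + (b + d) := by abel
  rw [h2, two c, zero_add]

/-- `(I_q)`: a symmetric cocycle of degree `q` is the coboundary of a symmetric cochain. -/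
theorem sym_exact (h : SqData dU dW T gU gW sq) (q : ℕ) (hW : ∀ i : ℤ, i ≤ q → Ex dW gW i) (hU : ∀ i : ℤ, i ≤ (q : ℤ) - 2 → Ex dU gU i) :
    ∀ z ∈ gW q, T z = z → dW z = 0 → ∃ x ∈ gW ((q : ℤ) - 1), T x = x ∧ dW x = z := by
  induction q with
  | zero =>
    intro z hz _ hdz
    obtain ⟨x, hx, hxz⟩ := hW 0 (by simp) z (by simpa using hz) hdz
    have hx0 : x = 0 := h.negW _ (by norm_num) x hx
    refine ⟨x, by simpa using hx, ?_, hxz⟩
    rw [hx0, map_zero]
  | succ q ih =>
    intro z hz hTz hdz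
    have e1 : ((q + 1 : ℕ) : ℤ) = (q : ℤ) + 1 := by push_cast; ring
    rw [e1] at hz hW hU ⊢
    obtain ⟨x, hx, hxz⟩ := hW _ le_rfl z hz hdz
    rw [show (q : ℤ) + 1 - 1 = (q : ℤ) by ring] at hx
    have hw : dW (x + T x) = 0 := by
      rw [map_add, ← h.T_dW, hxz, hTz, h.two]
    have hTw : T (x + T x) = x + T x := by
      rw [map_add, h.T_T, add_comm]
    obtain ⟨x₁, hx₁, hTx₁, hdx₁⟩ := ih (fun i hi => hW i (by omega)) (fun i hi => hU i (by omega)) (x + T x)
      ((gW _).add_mem hx (h.T_mem _ _ hx)) hTw hw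
    obtain ⟨v, hv, y, hy, hvy⟩ := h.repr _ x₁ hx₁ hTx₁
    obtain ⟨y', hy', hdv⟩ := h.sq_d _ v hv
    -- `d v = 0`
    have h1 : sq (dU v) + (y' + T y') + (dW y + T (dW y)) = x + T x := by
      rw [← hdx₁, hvy, map_add, map_add, hdv, h.T_dW]
    have hdv0 : dU v = 0 := by
      refine h.inj _ _ (h.dU_mem _ _ hv) 0 ((gU _).zero_mem) (y' + dW y + x) ?_
      rw [h.sq_zero, zero_add]
      have h2 : sq (dU v) = (sq (dU v) + (y' + T y') + (dW y + T (dW y))) + (y' + T y') + (dW y + T (dW y)) - ((y' + y') + (T y' + T y') + (dW y + dW y) + (T (dW y) + T (dW y))) := by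
        abel
      rw [h1, h.two y', h.two (T y'), h.two (dW y), h.two (T (dW y))] at h2
      rw [h2]
      simp only [map_add]
      abel
    obtain ⟨e, he, hev⟩ := hU (q - 1) (by omega) v (by simpa using hv) hdv0
    obtain ⟨y'', hy'', hde⟩ := h.sq_d _ e he
    rw [hev] at hde
    have hy2 : y'' ∈ gW ((q : ℤ) - 1) := by
      simpa using hy''
    -- `x₁ = d (sq e) + (1 + T) (y + y'')`
    have h3 : dW x₁ = dW (y + y'') + T (dW (y + y'')) := by
      have h4 : sq v = dW (sq e) + (y'' + T y'') := by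
        rw [hde]
        have : sq v + (y'' + T y'') + (y'' + T y'') = sq v + ((y'' + y'') + (T y'' + T y'')) := by abel
        rw [this, h.two, h.two]
        simp
      rw [hvy, h4]
      simp only [map_add, h.dW_dW, h.T_dW, zero_add]
      abel
    rw [hdx₁] at h3
    refine ⟨x + dW (y + y''), ?_, ?_, ?_⟩
    · rw [show (q : ℤ) + 1 - 1 = (q : ℤ) - 1 + 1 by ring]
      refine (gW _).add_mem (by simpa using hx) (h.dW_mem _ _ ((gW _).add_mem hy hy2))
    · have h5 := two_swap h.two h3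
      rw [map_add, ← h5]
    · rw [map_add, h.dW_dW, add_zero, hxz]

/-- **The square lemma.** -/
theorem square (h : SqData dU dW T gU gW sq) (j : ℕ) (hW : ∀ i : ℤ, i ≤ 2 * j → Ex dW gW i)
    (hu : ∀ i : ℕ, i ≤ j → ∀ a ∈ gU i, dU a = 0 → ∃ u : ℕ → W, (∀ s, s ≤ i → u s ∈ gW (2 * i - s)) ∧ dW (u 0) = 0 ∧
      (∀ s, s < i → dW (u (s + 1)) = u s + T (u s)) ∧ u i = sq a) :
    ∀ i : ℤ, i ≤ j → Ex dU gU i := by
  have hneg : ∀ i : ℤ, i < 0 → Ex dU gU i := by
    intro i hi a ha _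
    refine ⟨0, (gU _).zero_mem, ?_⟩
    rw [map_zero, h.negU i hi a ha]
  have key : ∀ i : ℕ, i ≤ j → Ex dU gU i := by
    intro i
    induction i using Nat.strong_induction_on with
    | _ i ih =>
      intro hij a ha hda
      have hij' : (i : ℤ) ≤ j := by exact_mod_cast hij
      have hi0 : (0 : ℤ) ≤ i := by positivity
      have hi2 : 2 * (i : ℤ) ≤ 2 * j := by linarith
      have hU : ∀ k : ℤ, k < i → Ex dU gU k := by
        intro k hk
        rcases lt_or_ge k 0 with h0 | h0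
        · exact hneg k h0
        · obtain ⟨n, rfl⟩ := Int.eq_ofNat_of_zero_le h0
          exact ih n (by exact_mod_cast hk) (by omega)
      obtain ⟨u, hum, hu0, hus, hui⟩ := hu i hij a ha hda
      -- the `x_s`
      have hx : ∀ s : ℕ, s ≤ i → ∃ x ∈ gW (2 * (i : ℤ) - s - 1), ∃ x' ∈ gW (2 * (i : ℤ) - s), dW x = u s + (x' + T x') ∧ (s = 0 → x' = 0) := by
        intro s
        induction s with
        | zero =>
          intro _
          obtain ⟨x, hx, hxu⟩ := hW (2 * i) hi2 (u 0) (by simpa using hum 0 (Nat.zero_le _)) hu0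
          exact ⟨x, by simpa using hx, 0, (gW _).zero_mem, by simp [hxu], fun _ => rfl⟩
        | succ s ihs =>
          intro hs
          obtain ⟨x, hxm, x', hx'm, hdx, -⟩ := ihs (by omega)
          have hum' := hum (s + 1) hs
          have hxm' : x ∈ gW (2 * (i : ℤ) - ((s + 1 : ℕ) : ℤ)) := by
            rw [show 2 * (i : ℤ) - ((s + 1 : ℕ) : ℤ) = 2 * (i : ℤ) - s - 1 by push_cast; ring]
            exact hxm
          have hc : dW (u (s + 1) + (x + T x)) = 0 := by
            rw [map_add, map_add, ← h.T_dW, hdx, hus s (by omega)]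
            simp only [map_add, h.T_T]
            have : u s + T (u s) + (u s + (x' + T x') + (T (u s) + (T x' + x'))) =
              (u s + u s) + (T (u s) + T (u s)) + (x' + x') + (T x' + T x') := by abel
            rw [this, h.two (u s), h.two (T (u s)), h.two x', h.two (T x')]
            simp
          obtain ⟨x₂, hx₂, hdx₂⟩ := hW (2 * (i : ℤ) - ((s + 1 : ℕ) : ℤ)) (by push_cast; linarith) _
            ((gW _).add_mem hum' ((gW _).add_mem hxm' (h.T_mem _ _ hxm'))) hc
          exact ⟨x₂, hx₂, x, hxm', hdx₂, fun h0 => absurd h0 (Nat.succ_ne_zero s)⟩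
      obtain ⟨x, hxm, x', hx'm, hdx, -⟩ := hx i le_rfl
      rw [hui] at hdx
      have e2 : 2 * (i : ℤ) - i = i := by ring
      rw [e2] at hxm hx'm
      -- `z = sq a + (1 + T) x'` is a symmetric cocycle
      obtain ⟨X, hXm, hTX, hdX⟩ := sym_exact h i (fun k hk => hW k (by linarith)) (fun k hk => hU k (by linarith))
        (sq a + (x' + T x')) ((gW _).add_mem (h.sq_mem _ _ ha) ((gW _).add_mem hx'm (h.T_mem _ _ hx'm)))
        (by simp only [map_add, h.T_T, h.sq_sym]; abel) (by rw [← hdx, h.dW_dW])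
      obtain ⟨b, hb, y, hy, hby⟩ := h.repr _ X hXm hTX
      obtain ⟨y', hy', hdb⟩ := h.sq_d _ b hb
      refine ⟨b, hb, ?_⟩
      refine h.inj i _ (by simpa using h.dU_mem _ _ hb) a ha (x' + y' + dW y) ?_
      have h6 : sq (dU b) + (y' + T y') + (dW y + T (dW y)) = sq a + (x' + T x') := by
        rw [← hdX, hby, map_add, map_add, hdb, h.T_dW]
      have h7 : sq (dU b) = (sq (dU b) + (y' + T y') + (dW y + T (dW y))) + (y' + T y') + (dW y + T (dW y)) -
          ((y' + y') + (T y' + T y') + (dW y + dW y) + (T (dW y) + T (dW y))) := by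
        abel
      rw [h6, h.two y', h.two (T y'), h.two (dW y), h.two (T (dW y))] at h7
      rw [h7]
      simp only [map_add]
      abel
  intro i hi
  rcases lt_or_ge i 0 with h0 | h0
  · exact hneg i h0
  · obtain ⟨n, rfl⟩ := Int.eq_ofNat_of_zero_le h0
    exact key n (by exact_mod_cast hi)

end Pool.Agent.H55.Sq
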