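import Mathlib

set_option autoImplicit false

namespace Pool.Agent.H55.Subword

/-- The number of distinct subwords (blocks `w i, w (i+1), ..., w (i+m-1)` of `m` consecutive
letters, `i + m ≤ n`) of the word `w` of length `n` over the alphabet `Fin k`. -/
def complexity {k n : ℕ} (w : Fin n → Fin k) (m : ℕ) : ℕ :=
  (Finset.univ.image (fun i : Fin (n + 1 - m) => fun j : Fin m =>
    w ⟨(i : ℕ) + (j : ℕ), by omega⟩)).card

/-- The subword complexity sequence `(p_w(1), ..., p_w(n))` of a word `w` of length `n`
(the entry with index `m : Fin n` is `p_w(m+1)`). -/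
def complexitySeq {k n : ℕ} (w : Fin n → Fin k) : Fin n → ℕ :=
  fun m => complexity w ((m : ℕ) + 1)

/-- `a_k(n)`: the number of distinct subword complexity sequences of words of length `n` over
an alphabet with `k` letters. -/
def numSeq (k n : ℕ) : ℕ :=
  (Finset.univ.image (fun w : Fin n → Fin k => complexitySeq w)).card

end Pool.Agent.H55.Subword
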