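import Mathlib

set_option autoImplicit false

/-!
Periods on integer intervals, and the bound on the number of maximal special blocks whose two
witnessing positions lie in two fixed short windows.
-/

namespace Pool.Agent.H55.Subword

/-- `W` has period `p` on the integer interval `[a, b)`. -/
def HasPer (W : ℤ → ℤ) (a b p : ℤ) : Prop := ∀ y, a + p ≤ y → y < b → W y = W (y - p)

lemma HasPer.sub {W : ℤ → ℤ} {a b p q : ℤ} (_hq : 0 < q) (_hpq : q < p)
    (hlen : p + q ≤ b - a) (hp : HasPer W a b p) (hqq : HasPer W a b q) :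
    HasPer W a b (p - q) := by
  intro y hy1 hy2
  by_cases h : a + p ≤ y
  · have h1 := hp y h hy2
    have h2 := hqq (y - p + q) (by linarith) (by linarith)
    rw [h1]
    have e1 : y - p + q - q = y - p := by ring
    rw [e1] at h2
    rw [← h2]
    congr 1
    ring
  · push Not at h
    have h1 := hqq (y + q) (by linarith) (by linarith)
    have h2 := hp (y + q) (by linarith) (by linarith)
    have e1 : y + q - q = y := by ring
    rw [e1] at h1
    rw [← h1, h2]
    congr 1
    ring

/-- Fine and Wilf, weak form. -/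
lemma HasPer.gcd {W : ℤ → ℤ} {a b : ℤ} :
    ∀ (n : ℕ) (p q : ℕ), p + q ≤ n → 0 < p → 0 < q → (p : ℤ) + q ≤ b - a →
      HasPer W a b p → HasPer W a b q → HasPer W a b (Nat.gcd p q) := by
  intro n
  induction n with
  | zero => intro p q h hp hq; omega
  | succ n ih =>
    intro p q h hp hq hlen h1 h2
    rcases lt_trichotomy p q with hlt | heq | hgt
    · have h3 : HasPer W a b ((q : ℤ) - p) :=
        HasPer.sub (by exact_mod_cast hp) (by exact_mod_cast hlt) (by linarith) h2 h1
      have h4 : ((q - p : ℕ) : ℤ) = (q : ℤ) - p := by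
        push_cast [Nat.cast_sub hlt.le]; ring
      rw [← h4] at h3
      have h5 := ih p (q - p) (by omega) hp (by omega) (by rw [h4]; linarith) h1 h3
      have h6 : Nat.gcd p (q - p) = Nat.gcd p q := by
        rw [Nat.gcd_sub_self_right hlt.le]
      rwa [h6] at h5
    · subst heq
      simpa using h1
    · have h3 : HasPer W a b ((p : ℤ) - q) :=
        HasPer.sub (by exact_mod_cast hq) (by exact_mod_cast hgt) (by linarith) h1 h2
      have h4 : ((p - q : ℕ) : ℤ) = (p : ℤ) - q := by
        push_cast [Nat.cast_sub hgt.le]; ring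
      rw [← h4] at h3
      have h5 := ih (p - q) q (by omega) (by omega) hq (by rw [h4]; linarith) h3 h2
      have h6 : Nat.gcd (p - q) q = Nat.gcd p q := by
        rw [Nat.gcd_sub_self_left hgt.le]
      rwa [h6] at h5

/-- Two functions with the same period on `[a, b)` which agree on a subinterval of length at
least the period agree on `[a, b)`. -/
lemma agree_extend {f g : ℤ → ℤ} {a b c0 c1 p : ℤ} (hp : 0 < p) (_hac : a ≤ c0) (_hcb : c1 ≤ b)
    (hlen : p ≤ c1 - c0) (hf : HasPer f a b p) (hg : HasPer g a b p)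
    (h : ∀ y, c0 ≤ y → y < c1 → f y = g y) : ∀ y, a ≤ y → y < b → f y = g y := by
  -- upward
  have up : ∀ n : ℕ, ∀ y, c0 ≤ y → y < b → y ≤ c0 + n → f y = g y := by
    intro n
    induction n using Nat.strong_induction_on with
    | _ n ih =>
      intro y h1 h2 h3
      by_cases hy : y < c1
      · exact h y h1 hy
      · push Not at hy
        have hy2 : c0 ≤ y - p := by linarith
        rw [hf y (by linarith) h2, hg y (by linarith) h2]
        have hn : 0 < n := by
          by_contra hn
          have : n = 0 := by omega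
          subst this
          push_cast at h3
          linarith
        exact ih (n - 1) (by omega) (y - p) hy2 (by linarith) (by
          have : ((n - 1 : ℕ) : ℤ) = (n : ℤ) - 1 := by
            push_cast [Nat.cast_sub hn]; ring
          rw [this]; linarith)
  have dn : ∀ n : ℕ, ∀ y, a ≤ y → y < b → c1 - n ≤ y → f y = g y := by
    intro n
    induction n using Nat.strong_induction_on with
    | _ n ih =>
      intro y h1 h2 h3
      by_cases hy : c0 ≤ y
      · exact up (y - c0).toNat y hy h2 (by
          have := Int.toNat_of_nonneg (sub_nonneg.mpr hy)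
          rw [this]; linarith)
      · push Not at hy
        have e1 := hf (y + p) (by linarith) (by linarith)
        have e2 := hg (y + p) (by linarith) (by linarith)
        have e3 : y + p - p = y := by ring
        rw [e3] at e1 e2
        rw [← e1, ← e2]
        have hn : 0 < n := by
          by_contra hn
          have : n = 0 := by omega
          subst this
          push_cast at h3
          linarith
        exact ih (n - 1) (by omega) (y + p) (by linarith) (by linarith) (by
          have : ((n - 1 : ℕ) : ℤ) = (n : ℤ) - 1 := by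
            push_cast [Nat.cast_sub hn]; ring
          rw [this]; linarith)
  intro y h1 h2
  by_cases hy : c0 ≤ y
  · exact up (y - c0).toNat y hy h2 (by
      have := Int.toNat_of_nonneg (sub_nonneg.mpr hy)
      rw [this]; linarith)
  · push Not at hy
    exact dn (c1 - y).toNat y h1 h2 (by
      have := Int.toNat_of_nonneg (show 0 ≤ c1 - y by linarith)
      rw [this]; linarith)

lemma HasPer.mono {W : ℤ → ℤ} {a b a' b' p : ℤ} (h : HasPer W a b p) (ha : a ≤ a') (hb : b' ≤ b) :
    HasPer W a' b' p := fun y h1 h2 => h y (by linarith) (by linarith)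

lemma HasPer.shift {W : ℤ → ℤ} {a b p : ℤ} (d : ℤ) (h : HasPer W (a - d) (b - d) p) :
    HasPer (fun y => W (y - d)) a b p := by
  intro y h1 h2
  have := h (y - d) (by linarith) (by linarith)
  show W (y - d) = W (y - p - d)
  rw [this]
  congr 1
  ring

/-- The sentinel property: equal values at different places only occur in a bounded range. -/
def Sen (W : ℤ → ℤ) (n : ℤ) : Prop := ∀ y y', W y = W y' → y ≠ y' → 0 ≤ y ∧ y < n

/-- Maximal periodic extension of an interval. -/
lemma exists_run {W : ℤ → ℤ} {n : ℤ} (hW : Sen W n) {c0 c1 p : ℤ} (hp : 0 < p)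
    (hper : HasPer W c0 c1 p) :
    ∃ a b : ℤ, a ≤ c0 ∧ c1 ≤ b ∧ HasPer W a b p ∧ W (a - 1) ≠ W (a - 1 + p) ∧
      W b ≠ W (b - p) := by
  obtain ⟨s, ⟨hs1, hs2⟩, hs3⟩ := Int.exists_greatest_of_bdd
    (P := fun y => y < c0 ∧ W y ≠ W (y + p)) ⟨c0, fun z hz => hz.1.le⟩
    ⟨min (-1) (c0 - 1), by
      constructor
      · have := min_le_right (-1) (c0 - 1); linarith
      · intro h
        have h1 := (hW _ _ h (by linarith)).1
        have := min_le_left (-1) (c0 - 1); linarith⟩
  obtain ⟨t, ⟨ht1, ht2⟩, ht3⟩ := Int.exists_least_of_bdd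
    (P := fun y => c1 ≤ y ∧ W y ≠ W (y - p)) ⟨c1, fun z hz => hz.1⟩
    ⟨max n c1, by
      constructor
      · exact le_max_right _ _
      · intro h
        have h1 := (hW _ _ h (by linarith)).2
        have := le_max_left n c1; linarith⟩
  refine ⟨s + 1, t, by linarith, ht1, ?_, ?_, ht2⟩
  · intro y h1 h2
    by_cases hy : y < c1
    · by_cases hy2 : c0 + p ≤ y
      · exact hper y hy2 hy
      · push Not at hy2
        by_contra hne
        have := hs3 (y - p) ⟨by linarith, by
          have e : y - p + p = y := by ring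
          rw [e]; exact fun h => hne h.symm⟩
        linarith
    · push Not at hy
      by_contra hne
      have := ht3 y ⟨hy, hne⟩
      linarith
  · have e : s + 1 - 1 = s := by ring
    rw [e]; exact hs2


/-- The block of length `s + 1` ending at `e` has a competitor ending at `f`: same `s` letters
before, but a smaller last letter. -/
def Val (W : ℤ → ℤ) (e f : ℤ) (s : ℕ) : Prop :=
  W f < W e ∧ ∀ j : ℤ, 1 ≤ j → j ≤ s → W (e - j) = W (f - j)

/-- The blocks of length `s + 1` ending at `e` and `e2` coincide. -/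
def SameBlk (W : ℤ → ℤ) (e e2 : ℤ) (s : ℕ) : Prop :=
  ∀ j : ℤ, 0 ≤ j → j ≤ s → W (e2 - j) = W (e - j)

/-- No occurrence of the block of length `s + 1` ending at `e` has a competitor at level `s + 1`. -/
def Leaf (W : ℤ → ℤ) (e : ℤ) (s : ℕ) : Prop :=
  ∀ e2 f2, SameBlk W e e2 s → ¬ Val W e2 f2 (s + 1)

/-- The data of a maximal match with shift `d` around the core `[c0, c1)`. -/
structure Mat (W : ℤ → ℤ) (c0 c1 d e l : ℤ) : Prop where
  hl : l ≤ c0
  he : c1 ≤ e
  hm : ∀ y, l ≤ y → y < e → W y = W (y - d)
  hr : W (e - d) < W e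
  hleft : W (l - 1) ≠ W (l - 1 - d)

lemma mat_of_leaf {W : ℤ → ℤ} {e f : ℤ} {s : ℕ} {c0 c1 : ℤ} (hv : Val W e f s)
    (hL : Leaf W e s) (h1 : e - s ≤ c0) (h2 : c1 ≤ e) : Mat W c0 c1 (e - f) e (e - s) where
  hl := h1
  he := h2
  hm := by
    intro y hy1 hy2
    have := hv.2 (e - y) (by linarith) (by linarith)
    have e1 : e - (e - y) = y := by ring
    have e2 : f - (e - y) = y - (e - f) := by ring
    rw [e1, e2] at this
    exact this
  hr := by
    have e1 : e - (e - f) = f := by ring
    rw [e1]; exact hv.1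
  hleft := by
    intro hEq
    refine hL e f (fun j _ _ => rfl) ⟨hv.1, ?_⟩
    intro j hj1 hj2
    by_cases hj : j ≤ s
    · exact hv.2 j hj1 hj
    · push Not at hj
      push_cast at hj2
      have : j = s + 1 := by linarith
      subst this
      have e1 : e - ((s : ℤ) + 1) = e - s - 1 := by ring
      have e2 : f - ((s : ℤ) + 1) = e - s - 1 - (e - f) := by ring
      rw [e1, e2]
      exact hEq

/-- Two runs of period `p`: `[a, b)` around the core `[c0, c1)` and `[α, β)` around its copies. -/
structure Runs (W : ℤ → ℤ) (c0 c1 p a b α β : ℤ) : Prop where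
  hp : 0 < p
  hlen : 2 * p ≤ c1 - c0
  ha : a ≤ c0
  hb : c1 ≤ b
  hA : HasPer W a b p
  hB : HasPer W α β p
  haL : W (a - 1) ≠ W (a - 1 + p)
  hbR : W b ≠ W (b - p)
  hαL : W (α - 1) ≠ W (α - 1 + p)
  hβR : W β ≠ W (β - p)

section
variable {W : ℤ → ℤ} {c0 c1 p a b α β : ℤ}

/-- agreement with shift `d` on the intersection of the two runs -/
lemma Runs.agree (R : Runs W c0 c1 p a b α β) {d x0 x1 : ℤ} (hx0 : a ≤ x0) (hx1 : x1 ≤ b)
    (hx2 : α + d ≤ x0) (hx3 : x1 ≤ β + d) (hx4 : p ≤ x1 - x0)
    (h : ∀ y, x0 ≤ y → y < x1 → W y = W (y - d)) {y : ℤ} (h1 : a ≤ y) (h2 : y < b)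
    (h3 : α + d ≤ y) (h4 : y < β + d) : W y = W (y - d) := by
  have hA' : HasPer W (max a (α + d)) (min b (β + d)) p :=
    R.hA.mono (le_max_left _ _) (min_le_left _ _)
  have hB' : HasPer (fun y => W (y - d)) (max a (α + d)) (min b (β + d)) p := by
    apply HasPer.shift
    refine R.hB.mono ?_ ?_
    · have := le_max_right a (α + d); linarith
    · have := min_le_right b (β + d); linarith
  exact agree_extend (c0 := x0) (c1 := x1) R.hp (max_le hx0 hx2) (le_min hx1 hx3) hx4 hA' hB' h y
    (max_le h1 h3) (lt_min h2 h4)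

variable {d e l : ℤ}

lemma Runs.right_lt (R : Runs W c0 c1 p a b α β) (M : Mat W c0 c1 d e l)
    (hα : α ≤ c0 - d) (h : b < β + d) : e = b := by
  have hp := R.hp
  have hlen := R.hlen
  have ha := R.ha
  have hb := R.hb
  have hag : ∀ y, a ≤ y → y < b → α + d ≤ y → y < β + d → W y = W (y - d) :=
    fun y h1 h2 h3 h4 => R.agree (x0 := c0) (x1 := c1) ha hb (by linarith) (by linarith)
      (by linarith) (fun y h1 h2 => M.hm y (by linarith [M.hl]) (by linarith [M.he])) h1 h2 h3 h4
  have key : W b ≠ W (b - d) := by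
    intro hEq
    apply R.hbR
    have h1 := R.hB (b - d) (by linarith) (by linarith)
    have h2 := hag (b - p) (by linarith) (by linarith) (by linarith) (by linarith)
    rw [hEq, h1, h2]
    congr 1
    ring
  rcases lt_trichotomy e b with h1 | h1 | h1
  · exfalso
    have := hag e (by linarith [M.he]) h1 (by linarith [M.he]) (by linarith)
    have h2 := M.hr
    rw [← this] at h2
    exact lt_irrefl _ h2
  · exact h1
  · exfalso
    exact key (M.hm b (by linarith [M.hl]) h1)

lemma Runs.right_gt (R : Runs W c0 c1 p a b α β) (M : Mat W c0 c1 d e l)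
    (hα : α ≤ c0 - d) (hβ : c1 - d ≤ β) (h : β + d < b) : e = β + d := by
  have hp := R.hp
  have hlen := R.hlen
  have ha := R.ha
  have hb := R.hb
  have hag : ∀ y, a ≤ y → y < b → α + d ≤ y → y < β + d → W y = W (y - d) :=
    fun y h1 h2 h3 h4 => R.agree (x0 := c0) (x1 := c1) ha hb (by linarith) (by linarith)
      (by linarith) (fun y h1 h2 => M.hm y (by linarith [M.hl]) (by linarith [M.he])) h1 h2 h3 h4
  have key : W (β + d) ≠ W (β + d - d) := by
    intro hEq
    apply R.hβR
    have h1 := R.hA (β + d) (by linarith) (by linarith)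
    have h2 := hag (β + d - p) (by linarith) (by linarith) (by linarith) (by linarith)
    have e1 : β + d - d = β := by ring
    rw [e1] at hEq
    rw [← hEq, h1, h2]
    congr 1
    ring
  rcases lt_trichotomy e (β + d) with h1 | h1 | h1
  · exfalso
    have := hag e (by linarith [M.he]) (by linarith) (by linarith [M.he]) h1
    have h2 := M.hr
    rw [← this] at h2
    exact lt_irrefl _ h2
  · exact h1
  · exfalso
    exact key (M.hm (β + d) (by linarith [M.hl]) h1)

lemma Runs.left_gt (R : Runs W c0 c1 p a b α β) (M : Mat W c0 c1 d e l)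
    (hβ : c1 - d ≤ β) (h : α + d < a) : l = a := by
  have hp := R.hp
  have hlen := R.hlen
  have ha := R.ha
  have hb := R.hb
  have hag : ∀ y, a ≤ y → y < b → α + d ≤ y → y < β + d → W y = W (y - d) :=
    fun y h1 h2 h3 h4 => R.agree (x0 := c0) (x1 := c1) ha hb (by linarith) (by linarith)
      (by linarith) (fun y h1 h2 => M.hm y (by linarith [M.hl]) (by linarith [M.he])) h1 h2 h3 h4
  have key : W (a - 1) ≠ W (a - 1 - d) := by
    intro hEq
    apply R.haL
    have h1 := R.hB (a - 1 - d + p) (by linarith) (by linarith)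
    have h2 := hag (a - 1 + p) (by linarith) (by linarith) (by linarith) (by linarith)
    have e1 : a - 1 - d + p - p = a - 1 - d := by ring
    have e2 : a - 1 + p - d = a - 1 - d + p := by ring
    rw [e1] at h1
    rw [e2] at h2
    rw [hEq, h2, h1]
  rcases lt_trichotomy l a with h1 | h1 | h1
  · exfalso
    exact key (M.hm (a - 1) (by linarith) (by linarith [M.he]))
  · exact h1
  · exfalso
    exact M.hleft (hag (l - 1) (by linarith) (by linarith [M.hl]) (by linarith)
      (by linarith [M.hl]))

lemma Runs.left_lt (R : Runs W c0 c1 p a b α β) (M : Mat W c0 c1 d e l)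
    (hα : α ≤ c0 - d) (hβ : c1 - d ≤ β) (h : a < α + d) : l = α + d := by
  have hp := R.hp
  have hlen := R.hlen
  have ha := R.ha
  have hb := R.hb
  have hag : ∀ y, a ≤ y → y < b → α + d ≤ y → y < β + d → W y = W (y - d) :=
    fun y h1 h2 h3 h4 => R.agree (x0 := c0) (x1 := c1) ha hb (by linarith) (by linarith)
      (by linarith) (fun y h1 h2 => M.hm y (by linarith [M.hl]) (by linarith [M.he])) h1 h2 h3 h4
  have key : W (α + d - 1) ≠ W (α + d - 1 - d) := by
    intro hEq
    apply R.hαL
    have h1 := R.hA (α + d - 1 + p) (by linarith) (by linarith)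
    have h2 := hag (α + d - 1 + p) (by linarith) (by linarith) (by linarith) (by linarith)
    have e1 : α + d - 1 + p - p = α + d - 1 := by ring
    have e2 : α + d - 1 + p - d = α - 1 + p := by ring
    have e3 : α + d - 1 - d = α - 1 := by ring
    rw [e1] at h1
    rw [e2] at h2
    rw [e3] at hEq
    rw [← hEq, ← h2, h1]
  rcases lt_trichotomy l (α + d) with h1 | h1 | h1
  · exfalso
    exact key (M.hm (α + d - 1) (by linarith) (by linarith [M.he]))
  · exact h1
  · exfalso
    exact M.hleft (hag (l - 1) (by linarith) (by linarith [M.hl]) (by linarith)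
      (by linarith [M.hl]))


/-- Type 2: right end at the end of the first run, left end at the start of the second. -/
lemma Runs.type2 (R : Runs W c0 c1 p a b α β) {e : ℤ} {s : ℕ}
    (M : Mat W c0 c1 d e (e - s)) (hL : Leaf W e s)
    (hα : α ≤ c0 - d) (hβ : c1 - d ≤ β) (h : b < β + d) (h' : a < α + d) :
    d ≤ b - β + p := by
  have hp := R.hp
  have hlen := R.hlen
  have ha := R.ha
  have hb := R.hb
  have he := R.right_lt M hα h
  have hl := R.left_lt M hα hβ h'
  by_contra hcon
  push Not at hcon
  -- witness `e - d + p`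
  have hag : ∀ y, a ≤ y → y < b → α + (d - p) ≤ y → y < β + (d - p) → W y = W (y - (d - p)) := by
    intro y h1 h2 h3 h4
    refine R.agree (x0 := c0) (x1 := c1) ha hb (by linarith) (by linarith)
      (by linarith) (fun z h1 h2 => ?_) h1 h2 h3 h4
    have q1 := M.hm z (by linarith [M.hl]) (by linarith [M.he])
    have q2 := R.hB (z - (d - p)) (by linarith) (by linarith)
    have e1 : z - (d - p) - p = z - d := by ring
    rw [e1] at q2
    rw [q1, q2]
  refine hL e (e - (d - p)) (fun j _ _ => rfl) ⟨?_, ?_⟩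
  · have q2 := R.hB (e - (d - p)) (by linarith) (by linarith)
    have e1 : e - (d - p) - p = e - d := by ring
    rw [e1] at q2
    rw [q2]
    exact M.hr
  · intro j hj1 hj2
    push_cast at hj2
    have := hag (e - j) (by linarith) (by linarith) (by linarith) (by linarith)
    rw [this]
    congr 1
    ring

/-- Type 4: right end at the end of the second run, left end at the start of the first. -/
lemma Runs.type4 (R : Runs W c0 c1 p a b α β) {e : ℤ} {s : ℕ}
    (M : Mat W c0 c1 d e (e - s)) (hL : Leaf W e s)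
    (hα : α ≤ c0 - d) (hβ : c1 - d ≤ β) (h : β + d < b) (h' : α + d < a) :
    b - β - p ≤ d := by
  have hp := R.hp
  have hlen := R.hlen
  have ha := R.ha
  have hb := R.hb
  have he := R.right_gt M hα hβ h
  have hl := R.left_gt M hβ h'
  by_contra hcon
  push Not at hcon
  have hag : ∀ y, a ≤ y → y < b → α + (d + p) ≤ y → y < β + (d + p) → W y = W (y - (d + p)) := by
    intro y h1 h2 h3 h4
    refine R.agree (x0 := c0 + p) (x1 := c1) (by linarith) hb (by linarith) (by linarith)
      (by linarith) (fun z h1 h2 => ?_) h1 h2 h3 h4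
    have q1 := M.hm (z - p) (by linarith [M.hl]) (by linarith [M.he])
    have q2 := R.hA z (by linarith) (by linarith)
    rw [q2, q1]
    congr 1
    ring
  refine hL (e + p) (e - d) ?_ ⟨?_, ?_⟩
  · intro j hj1 hj2
    have q := R.hA (e + p - j) (by linarith) (by linarith)
    rw [q]
    congr 1
    ring
  · have q := R.hA (e + p) (by linarith) (by linarith)
    have e1 : e + p - p = e := by ring
    rw [e1] at q
    rw [q]
    exact M.hr
  · intro j hj1 hj2
    push_cast at hj2
    have := hag (e + p - j) (by linarith) (by linarith) (by linarith) (by linarith)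
    rw [this]
    congr 1
    ring

end

/-- The bound for one pair of windows. -/
theorem fiber_bound {W : ℤ → ℤ} {n : ℤ} (hW : Sen W n) {h ℓ : ℕ} (hh : 0 < h)
    (hℓ : 8 * h ≤ ℓ) (E E' : ℤ) (F : Finset (ℤ × ℤ × ℕ))
    (hF : ∀ t ∈ F, E ≤ t.1 ∧ t.1 < E + h ∧ E' ≤ t.2.1 ∧ t.2.1 < E' + h ∧ ℓ ≤ t.2.2 ∧
      Val W t.1 t.2.1 t.2.2 ∧ Leaf W t.1 t.2.2)
    (hne : ∀ t ∈ F, ∀ t' ∈ F, t ≠ t' → ¬ (t.2.2 = t'.2.2 ∧ SameBlk W t.1 t'.1 t.2.2)) :
    F.card ≤ 6 := by
  classical
  by_cases hcard : F.card ≤ 1
  · omega
  push Not at hcard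
  have hh' : (0 : ℤ) < h := by exact_mod_cast hh
  have hℓ' : (8 : ℤ) * h ≤ ℓ := by exact_mod_cast hℓ
  set c0 : ℤ := E + h - ℓ with hc0
  set c1 : ℤ := E with hc1
  have hM : ∀ t ∈ F, Mat W c0 c1 (t.1 - t.2.1) t.1 (t.1 - t.2.2) := by
    intro t ht
    obtain ⟨h1, h2, h3, h4, h5, h6, h7⟩ := hF t ht
    have h5' : (ℓ : ℤ) ≤ t.2.2 := by exact_mod_cast h5
    exact mat_of_leaf h6 h7 (by linarith) (by linarith)
  have hd : ∀ t ∈ F, ∀ t' ∈ F, (t.1 - t.2.1) - (t'.1 - t'.2.1) < 2 * h := by
    intro t ht t' ht'
    obtain ⟨h1, h2, h3, h4, h5, h6, h7⟩ := hF t ht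
    obtain ⟨h1', h2', h3', h4', h5', h6', h7'⟩ := hF t' ht'
    linarith
  -- distinct leaves have distinct shifts
  have fact1a : ∀ t ∈ F, ∀ t' ∈ F, t.1 - t.2.1 = t'.1 - t'.2.1 → ¬ t.1 < t'.1 := by
    intro t ht t' ht' hdd hlt
    have M1 := hM t ht
    have M2 := hM t' ht'
    have q := M2.hm t.1 (by linarith [M2.hl, M1.he]) hlt
    have q2 := M1.hr
    rw [← hdd] at q
    rw [← q] at q2
    exact lt_irrefl _ q2
  have fact1b : ∀ t ∈ F, ∀ t' ∈ F, t.1 = t'.1 → t.2.1 = t'.2.1 → ¬ t.2.2 < t'.2.2 := by
    intro t ht t' ht' he hf hlt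
    obtain ⟨h1, h2, h3, h4, h5, h6, h7⟩ := hF t ht
    obtain ⟨h1', h2', h3', h4', h5', h6', h7'⟩ := hF t' ht'
    refine h7 t.1 t.2.1 (fun j _ _ => rfl) ⟨h6.1, ?_⟩
    intro j hj1 hj2
    rw [he, hf]
    refine h6'.2 j hj1 (le_trans hj2 ?_)
    exact_mod_cast hlt
  have fact1 : ∀ t ∈ F, ∀ t' ∈ F, t.1 - t.2.1 = t'.1 - t'.2.1 → t = t' := by
    intro t ht t' ht' hdd
    have e1 : t.1 = t'.1 :=
      le_antisymm (not_lt.mp (fact1a t' ht' t ht hdd.symm)) (not_lt.mp (fact1a t ht t' ht' hdd))
    have e2 : t.2.1 = t'.2.1 := by linarith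
    have e3 : t.2.2 = t'.2.2 :=
      le_antisymm (not_lt.mp (fact1b t' ht' t ht e1.symm e2.symm))
        (not_lt.mp (fact1b t ht t' ht' e1 e2))
    exact Prod.ext e1 (Prod.ext e2 e3)
  -- periods of the core
  have fact2 : ∀ t ∈ F, ∀ t' ∈ F, 0 < (t'.1 - t'.2.1) - (t.1 - t.2.1) →
      HasPer W c0 c1 ((t'.1 - t'.2.1) - (t.1 - t.2.1)) := by
    intro t ht t' ht' hpos y hy1 hy2
    have M1 := hM t ht
    have M2 := hM t' ht'
    set g := (t'.1 - t'.2.1) - (t.1 - t.2.1) with hg
    have q1 := M1.hm (y - g) (by linarith [M1.hl]) (by linarith [M1.he])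
    have q2 := M2.hm y (by linarith [M2.hl]) (by linarith [M2.he])
    rw [q1, q2]
    congr 1
    rw [hg]; ring
  obtain ⟨t0, ht0, t1, ht1, hne01⟩ := Finset.one_lt_card.mp hcard
  have hex : ∃ p : ℕ, 0 < p ∧ HasPer W c0 c1 p := by
    rcases lt_trichotomy (t0.1 - t0.2.1) (t1.1 - t1.2.1) with hlt | heq | hgt
    · refine ⟨((t1.1 - t1.2.1) - (t0.1 - t0.2.1)).toNat, by omega, ?_⟩
      rw [Int.toNat_of_nonneg (by linarith)]
      exact fact2 t0 ht0 t1 ht1 (by linarith)
    · exact absurd (fact1 t0 ht0 t1 ht1 heq) hne01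
    · refine ⟨((t0.1 - t0.2.1) - (t1.1 - t1.2.1)).toNat, by omega, ?_⟩
      rw [Int.toNat_of_nonneg (by linarith)]
      exact fact2 t1 ht1 t0 ht0 (by linarith)
  set p : ℕ := Nat.find hex with hpdef
  have hp0 : 0 < p := (Nat.find_spec hex).1
  have hpper : HasPer W c0 c1 p := (Nat.find_spec hex).2
  have hpmin : ∀ g : ℕ, 0 < g → HasPer W c0 c1 g → p ≤ g := fun g h1 h2 =>
    Nat.find_min' hex ⟨h1, h2⟩
  have hclen : c1 - c0 = ℓ - h := by rw [hc0]; ring
  -- every difference of shifts is a multiple of `p`
  have hdvd1 : ∀ t ∈ F, ∀ t' ∈ F, 0 < (t'.1 - t'.2.1) - (t.1 - t.2.1) →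
      (p : ℤ) ∣ (t'.1 - t'.2.1) - (t.1 - t.2.1) ∧ (p : ℤ) ≤ (t'.1 - t'.2.1) - (t.1 - t.2.1) := by
    intro t ht t' ht' hpos
    have h2 := fact2 t ht t' ht' hpos
    have h3 := hd t' ht' t ht
    set g := (t'.1 - t'.2.1) - (t.1 - t.2.1) with hg
    have h4 : ((g.toNat : ℕ) : ℤ) = g := Int.toNat_of_nonneg hpos.le
    have h5 : 0 < g.toNat := by omega
    rw [← h4] at h2
    have h6 : p ≤ g.toNat := hpmin _ h5 h2
    have h7 := HasPer.gcd (p + g.toNat) p g.toNat le_rfl hp0 h5 (by omega) hpper h2
    have h8 : p ≤ Nat.gcd p g.toNat := hpmin _ (Nat.gcd_pos_of_pos_left _ hp0) h7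
    have h9 : Nat.gcd p g.toNat = p := le_antisymm (Nat.gcd_le_left _ hp0) h8
    have h10 : p ∣ g.toNat := by rw [← h9]; exact Nat.gcd_dvd_right _ _
    constructor
    · rw [← h4]; exact_mod_cast h10
    · rw [← h4]; exact_mod_cast h6
  have hdvd : ∀ t ∈ F, ∀ t' ∈ F, (p : ℤ) ∣ (t'.1 - t'.2.1) - (t.1 - t.2.1) := by
    intro t ht t' ht'
    rcases lt_trichotomy 0 ((t'.1 - t'.2.1) - (t.1 - t.2.1)) with h1 | h1 | h1
    · exact (hdvd1 t ht t' ht' h1).1
    · rw [← h1]; exact dvd_zero _
    · have := (hdvd1 t' ht' t ht (by linarith)).1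
      have e : (t'.1 - t'.2.1) - (t.1 - t.2.1) = -((t.1 - t.2.1) - (t'.1 - t'.2.1)) := by ring
      rw [e]
      exact (dvd_neg).mpr this
  have hp2 : (p : ℤ) < 2 * h := by
    rcases lt_trichotomy 0 ((t1.1 - t1.2.1) - (t0.1 - t0.2.1)) with h1 | h1 | h1
    · have := (hdvd1 t0 ht0 t1 ht1 h1).2
      linarith [hd t1 ht1 t0 ht0]
    · exact absurd (fact1 t0 ht0 t1 ht1 (by linarith)) hne01
    · have := (hdvd1 t1 ht1 t0 ht0 (by linarith)).2
      linarith [hd t0 ht0 t1 ht1]
  have hp0' : (0 : ℤ) < p := by exact_mod_cast hp0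
  -- the runs
  obtain ⟨a, b, ha, hb, hA, haL, hbR⟩ := exists_run hW hp0' hpper
  have hcopy : ∀ t ∈ F, HasPer W (c0 - (t.1 - t.2.1)) (c1 - (t.1 - t.2.1)) p := by
    intro t ht y hy1 hy2
    have M1 := hM t ht
    have q1 := M1.hm (y + (t.1 - t.2.1)) (by linarith [M1.hl]) (by linarith [M1.he])
    have q2 := M1.hm (y - p + (t.1 - t.2.1)) (by linarith [M1.hl]) (by linarith [M1.he])
    have q3 := hpper (y + (t.1 - t.2.1)) (by linarith) (by linarith)
    have e1 : y + (t.1 - t.2.1) - (t.1 - t.2.1) = y := by ring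
    have e2 : y - p + (t.1 - t.2.1) - (t.1 - t.2.1) = y - p := by ring
    have e3 : y + (t.1 - t.2.1) - p = y - p + (t.1 - t.2.1) := by ring
    rw [e1] at q1
    rw [e2] at q2
    rw [e3] at q3
    rw [← q1, ← q2, q3]
  obtain ⟨α, β, hα, hβ, hB, hαL, hβR⟩ := exists_run hW hp0' (hcopy t0 ht0)
  have R : Runs W c0 c1 p a b α β :=
    ⟨hp0', by linarith, ha, hb, hA, hB, haL, hbR, hαL, hβR⟩
  have hin : ∀ t ∈ F, α ≤ c0 - (t.1 - t.2.1) ∧ c1 - (t.1 - t.2.1) ≤ β := by
    intro t ht
    have q1 := hd t ht t0 ht0
    have q2 := hd t0 ht0 t ht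
    have q3 := hcopy t ht
    constructor
    · by_contra hcon
      push Not at hcon
      apply hαL
      have := q3 (α - 1 + p) (by linarith) (by linarith)
      have e1 : α - 1 + p - p = α - 1 := by ring
      rw [e1] at this
      exact this.symm
    · by_contra hcon
      push Not at hcon
      exact hβR (q3 β (by linarith) hcon)
  -- the six types
  let ty : ℤ → Fin 6 := fun d =>
    if d = b - β then 0 else if d = a - α then 1
    else if b < β + d then (if α + d < a then 2 else 3) else (if α + d < a then 4 else 5)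
  have hinj : Set.InjOn (fun t : ℤ × ℤ × ℕ => ty (t.1 - t.2.1)) (F : Set (ℤ × ℤ × ℕ)) := by
    intro t ht t' ht' hEq
    have ht : t ∈ F := ht
    have ht' : t' ∈ F := ht'
    by_contra hnett
    have hdne : (t.1 - t.2.1) ≠ (t'.1 - t'.2.1) := fun hdd => hnett (fact1 t ht t' ht' hdd)
    have M1 := hM t ht
    have M2 := hM t' ht'
    obtain ⟨h1, h2, h3, h4, h5, h6, h7⟩ := hF t ht
    obtain ⟨h1', h2', h3', h4', h5', h6', h7'⟩ := hF t' ht'
    obtain ⟨i1, i2⟩ := hin t ht
    obtain ⟨i1', i2'⟩ := hin t' ht'
    have hdv := hdvd t ht t' ht'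
    -- closeness
    have hclose : ¬ (|(t'.1 - t'.2.1) - (t.1 - t.2.1)| < (p : ℤ)) := by
      intro hc
      have := Int.eq_zero_of_abs_lt_dvd hdv hc
      exact hdne (by linarith)
    simp only [ty] at hEq
    by_cases k0 : t.1 - t.2.1 = b - β
    · by_cases k0' : t'.1 - t'.2.1 = b - β
      · exact hdne (by linarith)
      · exfalso
        rw [if_pos k0, if_neg k0'] at hEq
        split_ifs at hEq <;> simp at hEq
    by_cases k0' : t'.1 - t'.2.1 = b - β
    · exfalso
      rw [if_neg k0, if_pos k0'] at hEq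
      split_ifs at hEq <;> simp at hEq
    rw [if_neg k0, if_neg k0'] at hEq
    by_cases k1 : t.1 - t.2.1 = a - α
    · by_cases k1' : t'.1 - t'.2.1 = a - α
      · exact hdne (by linarith)
      · exfalso
        rw [if_pos k1, if_neg k1'] at hEq
        split_ifs at hEq <;> simp at hEq
    by_cases k1' : t'.1 - t'.2.1 = a - α
    · exfalso
      rw [if_neg k1, if_pos k1'] at hEq
      split_ifs at hEq <;> simp at hEq
    rw [if_neg k1, if_neg k1'] at hEq
    by_cases k2 : b < β + (t.1 - t.2.1)
    · by_cases k2' : b < β + (t'.1 - t'.2.1)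
      · rw [if_pos k2, if_pos k2'] at hEq
        by_cases k3 : α + (t.1 - t.2.1) < a
        · by_cases k3' : α + (t'.1 - t'.2.1) < a
          · -- type 1
            have q1 := R.right_lt M1 i1 k2
            have q2 := R.right_lt M2 i1' k2'
            have q3 := R.left_gt M1 i2 k3
            have q4 := R.left_gt M2 i2' k3'
            have q5 : t.1 = t'.1 := by linarith
            have q6 : (t.2.2 : ℤ) = t'.2.2 := by linarith
            have q7 : t.2.2 = t'.2.2 := by exact_mod_cast q6
            exact hne t ht t' ht' hnett ⟨q7, fun j _ _ => by rw [q5]⟩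
          · exfalso
            rw [if_pos k3, if_neg k3'] at hEq
            simp at hEq
        · by_cases k3' : α + (t'.1 - t'.2.1) < a
          · exfalso
            rw [if_neg k3, if_pos k3'] at hEq
            simp at hEq
          · -- type 2
            have k4 : a < α + (t.1 - t.2.1) := by
              rcases lt_or_eq_of_le (not_lt.mp k3) with hk | hk
              · exact hk
              · exact absurd (by linarith) k1
            have k4' : a < α + (t'.1 - t'.2.1) := by
              rcases lt_or_eq_of_le (not_lt.mp k3') with hk | hk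
              · exact hk
              · exact absurd (by linarith) k1'
            have q1 := R.type2 M1 h7 i1 i2 k2 k4
            have q2 := R.type2 M2 h7' i1' i2' k2' k4'
            apply hclose
            rw [abs_lt]
            constructor <;> linarith
      · exfalso
        rw [if_pos k2, if_neg k2'] at hEq
        split_ifs at hEq <;> simp at hEq
    · by_cases k2' : b < β + (t'.1 - t'.2.1)
      · exfalso
        rw [if_neg k2, if_pos k2'] at hEq
        split_ifs at hEq <;> simp at hEq
      · rw [if_neg k2, if_neg k2'] at hEq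
        have k5 : β + (t.1 - t.2.1) < b := by
          rcases lt_or_eq_of_le (not_lt.mp k2) with hk | hk
          · exact hk
          · exact absurd (by linarith) k0
        have k5' : β + (t'.1 - t'.2.1) < b := by
          rcases lt_or_eq_of_le (not_lt.mp k2') with hk | hk
          · exact hk
          · exact absurd (by linarith) k0'
        by_cases k3 : α + (t.1 - t.2.1) < a
        · by_cases k3' : α + (t'.1 - t'.2.1) < a
          · -- type 4
            have q1 := R.type4 M1 h7 i1 i2 k5 k3
            have q2 := R.type4 M2 h7' i1' i2' k5' k3'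
            apply hclose
            rw [abs_lt]
            constructor <;> linarith
          · exfalso
            rw [if_pos k3, if_neg k3'] at hEq
            simp at hEq
        · by_cases k3' : α + (t'.1 - t'.2.1) < a
          · exfalso
            rw [if_neg k3, if_pos k3'] at hEq
            simp at hEq
          · -- type 3
            have k4 : a < α + (t.1 - t.2.1) := by
              rcases lt_or_eq_of_le (not_lt.mp k3) with hk | hk
              · exact hk
              · exact absurd (by linarith) k1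
            have k4' : a < α + (t'.1 - t'.2.1) := by
              rcases lt_or_eq_of_le (not_lt.mp k3') with hk | hk
              · exact hk
              · exact absurd (by linarith) k1'
            have q1 := R.right_gt M1 i1 i2 k5
            have q2 := R.right_gt M2 i1' i2' k5'
            have q3 := R.left_lt M1 i1 i2 k4
            have q4 := R.left_lt M2 i1' i2' k4'
            have q6 : (t.2.2 : ℤ) = t'.2.2 := by linarith
            have q7 : t.2.2 = t'.2.2 := by exact_mod_cast q6
            refine hne t ht t' ht' hnett ⟨q7, fun j hj0 hjs => ?_⟩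
            rcases eq_or_lt_of_le hj0 with hj | hj
            · subst hj
              have r1 := R.hA (β + (t.1 - t.2.1)) (by linarith [M1.he, M1.hl]) (by linarith)
              have r2 := R.hA (β + (t'.1 - t'.2.1)) (by linarith [M2.he, M2.hl]) (by linarith)
              have r3 := M1.hm (β + (t.1 - t.2.1) - p) (by linarith [M1.he, M1.hl]) (by linarith)
              have r4 := M2.hm (β + (t'.1 - t'.2.1) - p) (by linarith [M2.he, M2.hl]) (by linarith)
              have e1 : β + (t.1 - t.2.1) - p - (t.1 - t.2.1) = β - p := by ring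
              have e2 : β + (t'.1 - t'.2.1) - p - (t'.1 - t'.2.1) = β - p := by ring
              rw [e1] at r3
              rw [e2] at r4
              have e3 : t'.1 - 0 = β + (t'.1 - t'.2.1) := by linarith
              have e4 : t.1 - 0 = β + (t.1 - t.2.1) := by linarith
              rw [e3, e4, r1, r2, r3, r4]
            · have r3 := M1.hm (t.1 - j) (by linarith) (by linarith)
              have hjs' : j ≤ (t'.2.2 : ℤ) := by rw [← q6]; exact hjs
              have r4 := M2.hm (t'.1 - j) (by linarith) (by linarith)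
              have e1 : t.1 - j - (t.1 - t.2.1) = β - j := by linarith
              have e2 : t'.1 - j - (t'.1 - t'.2.1) = β - j := by linarith
              rw [e1] at r3
              rw [e2] at r4
              rw [r3, r4]
  have := Finset.card_le_card_of_injOn (t := (Finset.univ : Finset (Fin 6)))
    (fun t : ℤ × ℤ × ℕ => ty (t.1 - t.2.1)) (fun t _ => Finset.mem_univ _) hinj
  simpa using this

end Pool.Agent.H55.Subword
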