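import Mathlib
import Pool.Agent.H55.SubwordRuns
import Pool.Agent.H55.SubwordDefs

set_option autoImplicit false

/-!
From the bound on leaves to the bound on the number of complexity sequences.
-/

namespace Pool.Agent.H55.Subword

open Finset

/-! ### Generalities on cardinalities of images -/

lemma card_image_le_card_image {A B X Y : Type*} [DecidableEq X] [DecidableEq Y]
    {s : Finset A} {t : Finset B} {f : A → X} {g : B → Y}
    (ψ : A → B) (hψ : ∀ a ∈ s, ψ a ∈ t)
    (h : ∀ a ∈ s, ∀ a' ∈ s, g (ψ a) = g (ψ a') → f a = f a') :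
    (s.image f).card ≤ (t.image g).card := by
  classical
  rcases s.eq_empty_or_nonempty with hs | ⟨a0, _⟩
  · subst hs; simp
  · -- choose a preimage
    let c : X → A := fun x => if hx : ∃ a ∈ s, f a = x then hx.choose else a0
    have hc : ∀ x ∈ s.image f, c x ∈ s ∧ f (c x) = x := by
      intro x hx
      have hx' : ∃ a ∈ s, f a = x := by simpa using hx
      simp only [c, dif_pos hx']
      exact hx'.choose_spec
    refine Finset.card_le_card_of_injOn (fun x => g (ψ (c x))) ?_ ?_
    · intro x hx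
      have := hc x (by simpa using hx)
      exact Finset.mem_coe.mpr (Finset.mem_image_of_mem _ (hψ _ this.1))
    · intro x hx y hy hxy
      have h1 := hc x (by simpa using hx)
      have h2 := hc y (by simpa using hy)
      rw [← h1.2, ← h2.2]
      exact h _ h1.1 _ h2.1 hxy

/-- Incremental counting of the classes of a decreasing family of equivalences. -/
lemma exists_intervals {A X : Type*} [DecidableEq A] [DecidableEq X] (lev : A → ℕ)
    (bl : ℕ → A → X) (L : Finset A)
    (hbl : ∀ m m' : ℕ, m ≤ m' → ∀ a b : A, bl m' a = bl m' b → bl m a = bl m b) :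
    ∃ g : A → ℕ, (∀ a ∈ L, g a ≤ lev a + 1) ∧ ∀ m,
      ((L.filter (fun a => m ≤ lev a)).image (bl m)).card =
        (L.filter (fun a => g a ≤ m ∧ m ≤ lev a)).card := by
  classical
  induction L using Finset.induction_on with
  | empty => exact ⟨fun _ => 0, by simp, by simp⟩
  | insert a L ha ih =>
    obtain ⟨g, hg1, hg2⟩ := ih
    have hex : ∃ m, m = lev a + 1 ∨ ¬ ∃ b ∈ L, m ≤ lev b ∧ bl m b = bl m a := ⟨lev a + 1, Or.inl rfl⟩
    set G := Nat.find hex with hG
    have hG1 : G ≤ lev a + 1 := Nat.find_min' hex (Or.inl rfl)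
    have hG2 : ∀ m, m < G → ∃ b ∈ L, m ≤ lev b ∧ bl m b = bl m a := by
      intro m hm
      have := Nat.find_min hex hm
      push Not at this
      exact this.2
    have hG3 : ∀ m, G ≤ m → m ≤ lev a → ¬ ∃ b ∈ L, m ≤ lev b ∧ bl m b = bl m a := by
      rintro m h1 h2 ⟨b, hb, hb1, hb2⟩
      rcases Nat.find_spec hex with h | h
      · rw [← hG] at h; omega
      · exact h ⟨b, hb, le_trans h1 hb1, hbl _ _ h1 _ _ hb2⟩
    refine ⟨Function.update g a G, ?_, ?_⟩
    · intro b hb
      by_cases hba : b = a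
      · subst hba; simpa using hG1
      · rw [Function.update_of_ne hba]
        exact hg1 b (Finset.mem_of_mem_insert_of_ne hb hba)
    · intro m
      have hLne : ∀ b ∈ L, b ≠ a := fun b hb h => ha (h ▸ hb)
      have hfil : L.filter (fun b => Function.update g a G b ≤ m ∧ m ≤ lev b) =
          L.filter (fun b => g b ≤ m ∧ m ≤ lev b) := by
        apply Finset.filter_congr
        intro b hb
        rw [Function.update_of_ne (hLne b hb)]
      by_cases h1 : m ≤ lev a
      · rw [Finset.filter_insert, if_pos h1, Finset.image_insert]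
        by_cases h2 : G ≤ m
        · have h3 := hG3 m h2 h1
          rw [Finset.card_insert_of_notMem, hg2 m, Finset.filter_insert, if_pos,
            Finset.card_insert_of_notMem, hfil]
          · intro h; exact ha (Finset.mem_of_mem_filter _ h)
          · exact ⟨by simpa using h2, h1⟩
          · intro h
            obtain ⟨b, hb, hb2⟩ := Finset.mem_image.mp h
            obtain ⟨hb3, hb4⟩ := Finset.mem_filter.mp hb
            exact h3 ⟨b, hb3, hb4, hb2⟩
        · obtain ⟨b, hb, hb1, hb2⟩ := hG2 m (by omega)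
          rw [Finset.insert_eq_of_mem, hg2 m, Finset.filter_insert, if_neg, hfil]
          · simp [h2]
          · rw [← hb2]
            exact Finset.mem_image_of_mem _ (Finset.mem_filter.mpr ⟨hb, hb1⟩)
      · rw [Finset.filter_insert, if_neg h1, Finset.filter_insert, if_neg, hfil, hg2 m]
        simp [h1]

/-- Counting intervals of a finite family through a fixed index set `Fin T`. -/
lemma exists_data {A : Type*} (L : Finset A) (g lev : A → ℕ) (T B : ℕ) (hT : L.card ≤ T)
    (hB1 : ∀ a ∈ L, g a ≤ B) (hB2 : ∀ a ∈ L, lev a ≤ B) (hB : 1 ≤ B) :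
    ∃ D : Fin T → Fin (B + 1) × Fin (B + 1), ∀ m : ℕ,
      (L.filter (fun a => g a ≤ m ∧ m ≤ lev a)).card =
        (Finset.univ.filter (fun i : Fin T => ((D i).1 : ℕ) ≤ m ∧ m ≤ ((D i).2 : ℕ))).card := by
  classical
  -- an embedding of L into Fin T
  let φ : {a // a ∈ L} ↪ Fin T :=
    (L.equivFin.toEmbedding).trans (Fin.castLEEmb hT)
  let D : Fin T → Fin (B + 1) × Fin (B + 1) := fun i =>
    if h : ∃ a, φ a = i then
      (⟨g h.choose.1, Nat.lt_succ_of_le (hB1 _ h.choose.2)⟩,
        ⟨lev h.choose.1, Nat.lt_succ_of_le (hB2 _ h.choose.2)⟩)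
    else (⟨1, by omega⟩, ⟨0, by omega⟩)
  have hD : ∀ a : {a // a ∈ L}, ((D (φ a)).1 : ℕ) = g a.1 ∧ ((D (φ a)).2 : ℕ) = lev a.1 := by
    intro a
    have h : ∃ a', φ a' = φ a := ⟨a, rfl⟩
    have h2 : h.choose = a := φ.injective h.choose_spec
    simp only [D, dif_pos h]
    constructor <;> simp [h2]
  refine ⟨D, fun m => ?_⟩
  refine Finset.card_bij (fun a ha => φ ⟨a, Finset.mem_of_mem_filter _ ha⟩) ?_ ?_ ?_
  · intro a ha
    have := hD ⟨a, Finset.mem_of_mem_filter _ ha⟩
    rw [Finset.mem_filter] at ha ⊢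
    refine ⟨Finset.mem_univ _, ?_⟩
    rw [this.1, this.2]
    exact ha.2
  · intro a ha b hb hab
    have := φ.injective hab
    simpa using this
  · intro i hi
    rw [Finset.mem_filter] at hi
    by_cases h : ∃ a, φ a = i
    · obtain ⟨a, rfl⟩ := h
      have := hD a
      rw [this.1, this.2] at hi
      exact ⟨a.1, Finset.mem_filter.mpr ⟨a.2, hi.2⟩, rfl⟩
    · exfalso
      simp only [D, dif_neg h] at hi
      omega

/-! ### The word as a function on the integers -/

/-- The word `w`, extended by pairwise different negative values outside its range. -/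
def ext {k n : ℕ} (w : Fin n → Fin k) (y : ℤ) : ℤ :=
  if h : 0 ≤ y ∧ y < n then ((w ⟨y.toNat, by omega⟩ : Fin k) : ℕ)
  else if y < 0 then 2 * y else -1 - 2 * y

lemma ext_of_mem {k n : ℕ} (w : Fin n → Fin k) {i : ℕ} (h : i < n) :
    ext w (i : ℤ) = ((w ⟨i, h⟩ : Fin k) : ℕ) := by
  unfold ext
  rw [dif_pos ⟨by omega, by exact_mod_cast h⟩]
  simp

lemma ext_neg_of_not_mem {k n : ℕ} (w : Fin n → Fin k) {y : ℤ} (h : ¬ (0 ≤ y ∧ y < n)) :
    ext w y < 0 := by
  unfold ext
  rw [dif_neg h]
  split_ifs with h2 <;> omega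

lemma ext_nonneg_of_mem {k n : ℕ} (w : Fin n → Fin k) {y : ℤ} (h : 0 ≤ y ∧ y < n) :
    0 ≤ ext w y := by
  unfold ext
  rw [dif_pos h]
  positivity

lemma ext_sen {k n : ℕ} (w : Fin n → Fin k) : Sen (ext w) n := by
  intro y y' h hne
  by_contra hcon
  have h1 := ext_neg_of_not_mem w hcon
  have h2 : ¬ (0 ≤ y' ∧ y' < n) := by
    intro h3
    have := ext_nonneg_of_mem w h3
    omega
  unfold ext at h
  rw [dif_neg hcon, dif_neg h2] at h
  split_ifs at h <;> omega

variable {k n : ℕ} (w : Fin n → Fin k)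

/-- Level-`m` blocks ending at `e`, as total functions. -/
def blk (m : ℕ) (e : ℕ) : ℕ → ℤ := fun j => if j ≤ m then ext w ((e : ℤ) - j) else 0

/-- the `m` letters before `e` -/
def pre (m : ℕ) (e : ℕ) : ℕ → ℤ := fun j => if 1 ≤ j ∧ j ≤ m then ext w ((e : ℤ) - j) else 0

lemma blk_eq_iff {m e e' : ℕ} :
    blk w m e = blk w m e' ↔ ∀ j : ℕ, j ≤ m → ext w ((e : ℤ) - j) = ext w ((e' : ℤ) - j) := by
  constructor
  · intro h j hj
    have := congrFun h j
    simpa [blk, hj] using this
  · intro h
    funext j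
    by_cases hj : j ≤ m
    · simp [blk, hj, h j hj]
    · simp [blk, hj]

lemma pre_eq_iff {m e e' : ℕ} :
    pre w m e = pre w m e' ↔
      ∀ j : ℕ, 1 ≤ j → j ≤ m → ext w ((e : ℤ) - j) = ext w ((e' : ℤ) - j) := by
  constructor
  · intro h j hj1 hj
    have := congrFun h j
    simpa [pre, hj, hj1] using this
  · intro h
    funext j
    by_cases hj : 1 ≤ j ∧ j ≤ m
    · simp [pre, hj, h j hj.1 hj.2]
    · simp [pre, hj]

lemma blk_eq_iff_sameBlk {m e e' : ℕ} :
    blk w m e = blk w m e' ↔ SameBlk (ext w) e e' m := by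
  rw [blk_eq_iff]
  constructor
  · intro h j hj0 hj
    obtain ⟨i, rfl⟩ := Int.eq_ofNat_of_zero_le hj0
    exact (h i (by exact_mod_cast hj)).symm
  · intro h j hj
    exact (h j (by positivity) (by exact_mod_cast hj)).symm

lemma blk_mono {m m' : ℕ} (h : m ≤ m') {e e' : ℕ} (hb : blk w m' e = blk w m' e') :
    blk w m e = blk w m e' := by
  rw [blk_eq_iff] at hb ⊢
  exact fun j hj => hb j (le_trans hj h)

/-- node predicate -/
def Node (m : ℕ) (e : ℕ) : Prop := ∃ f : ℤ, Val (ext w) e f m

lemma Node.mono {m m' : ℕ} (h : m ≤ m') {e : ℕ} (hn : Node w m' e) : Node w m e := by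
  obtain ⟨f, h1, h2⟩ := hn
  exact ⟨f, h1, fun j hj1 hj2 => h2 j hj1 (le_trans hj2 (by exact_mod_cast h))⟩

lemma Node.congr {m : ℕ} {e e' : ℕ} (hb : blk w m e = blk w m e') (hn : Node w m e) :
    Node w m e' := by
  rw [blk_eq_iff] at hb
  obtain ⟨f, h1, h2⟩ := hn
  refine ⟨f, ?_, ?_⟩
  · have := hb 0 (Nat.zero_le _)
    simp only [Nat.cast_zero, sub_zero] at this
    rw [← this]; exact h1
  · intro j hj1 hj2
    obtain ⟨i, rfl⟩ := Int.eq_ofNat_of_zero_le (show 0 ≤ j by linarith)
    rw [← hb i (by exact_mod_cast hj2)]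
    exact h2 _ hj1 hj2

/-- positions of a competitor are inside the word -/
lemma val_range {m : ℕ} (hm : 1 ≤ m) {e f : ℤ} (hv : Val (ext w) e f m) :
    (m : ℤ) ≤ e ∧ e < n ∧ (m : ℤ) ≤ f ∧ f ≤ n := by
  obtain ⟨h1, h2⟩ := hv
  have hne : e ≠ f := by
    rintro rfl
    exact lt_irrefl _ h1
  have hm' : (1 : ℤ) ≤ m := by exact_mod_cast hm
  have a1 := h2 1 le_rfl hm'
  have a2 := h2 m hm' le_rfl
  have b1 := ext_sen w _ _ a1 (by intro h; apply hne; linarith)
  have b2 := ext_sen w _ _ a2 (by intro h; apply hne; linarith)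
  have b3 := ext_sen w _ _ a1.symm (by intro h; apply hne; linarith)
  have b4 := ext_sen w _ _ a2.symm (by intro h; apply hne; linarith)
  refine ⟨by linarith, ?_, by linarith, by linarith⟩
  by_contra hcon
  have he : e = n := by linarith
  have h3 : ext w e = -1 - 2 * (n : ℤ) := by
    rw [he]
    unfold ext
    rw [dif_neg (by omega), if_neg (by omega)]
  by_cases hf : f < n
  · have := ext_nonneg_of_mem w (y := f) ⟨by linarith, hf⟩
    omega
  · have hf' : f = n := by linarith
    exact hne (by linarith)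


/-! ### The basic identity -/

lemma fac_iff {m i i' : ℕ} (hi : i + m ≤ n) (hi' : i' + m ≤ n) :
    ((fun j : Fin m => w ⟨i + (j : ℕ), by omega⟩) = fun j : Fin m => w ⟨i' + (j : ℕ), by omega⟩) ↔
      ∀ j : ℕ, j < m → ext w ((i : ℤ) + j) = ext w ((i' : ℤ) + j) := by
  constructor
  · intro h j hj
    have := congrFun h ⟨j, hj⟩
    have e1 : ((i : ℤ) + j) = ((i + j : ℕ) : ℤ) := by push_cast; ring
    have e2 : ((i' : ℤ) + j) = ((i' + j : ℕ) : ℤ) := by push_cast; ring
    rw [e1, e2, ext_of_mem w (show i + j < n by omega), ext_of_mem w (show i' + j < n by omega)]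
    simp only at this
    rw [this]
  · intro h
    funext j
    have := h j j.2
    have e1 : ((i : ℤ) + (j : ℕ)) = ((i + (j : ℕ) : ℕ) : ℤ) := by push_cast; ring
    have e2 : ((i' : ℤ) + (j : ℕ)) = ((i' + (j : ℕ) : ℕ) : ℤ) := by push_cast; ring
    rw [e1, e2, ext_of_mem w (show i + j < n by omega), ext_of_mem w (show i' + j < n by omega)]
      at this
    have h3 : ((w ⟨i + (j : ℕ), by omega⟩ : Fin k) : ℕ) = ((w ⟨i' + (j : ℕ), by omega⟩ : Fin k) : ℕ) := by
      exact_mod_cast this
    exact Fin.ext h3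

open Classical in
lemma complexity_eq_pre {m : ℕ} (hm : m ≤ n) :
    complexity w m = ((Finset.Icc m n).image (pre w m)).card := by
  classical
  unfold complexity
  apply le_antisymm
  · refine card_image_le_card_image (fun i => (i : ℕ) + m) ?_ ?_
    · intro i _
      have := i.2
      rw [Finset.mem_Icc]
      omega
    · intro i _ i' _ h
      have := i.2
      have := i'.2
      rw [pre_eq_iff] at h
      rw [fac_iff w (by omega) (by omega)]
      intro j hj
      have := h (m - j) (by omega) (by omega)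
      have e1 : (((i : ℕ) + m : ℕ) : ℤ) - ((m - j : ℕ) : ℤ) = (i : ℕ) + j := by
        push_cast [Nat.cast_sub hj.le]; ring
      have e2 : (((i' : ℕ) + m : ℕ) : ℤ) - ((m - j : ℕ) : ℤ) = (i' : ℕ) + j := by
        push_cast [Nat.cast_sub hj.le]; ring
      rw [e1, e2] at this
      exact this
  · refine card_image_le_card_image
      (fun e => if h : e - m < n + 1 - m then (⟨e - m, h⟩ : Fin (n + 1 - m)) else ⟨0, by omega⟩) ?_ ?_
    · intro e _; exact Finset.mem_univ _
    · intro e he e' he' h
      rw [Finset.mem_Icc] at he he'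
      simp only [dif_pos (show e - m < n + 1 - m by omega),
        dif_pos (show e' - m < n + 1 - m by omega)] at h
      rw [fac_iff w (by omega) (by omega)] at h
      rw [pre_eq_iff]
      intro j hj1 hj2
      have := h (m - j) (by omega)
      have e1 : ((e - m : ℕ) : ℤ) + ((m - j : ℕ) : ℤ) = (e : ℤ) - j := by
        push_cast [Nat.cast_sub hj2, Nat.cast_sub he.1]; ring
      have e2 : ((e' - m : ℕ) : ℤ) + ((m - j : ℕ) : ℤ) = (e' : ℤ) - j := by
        push_cast [Nat.cast_sub hj2, Nat.cast_sub he'.1]; ring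
      rw [e1, e2] at this
      exact this

open Classical in
lemma complexity_eq_blk {m : ℕ} (hm : m + 1 ≤ n) :
    complexity w (m + 1) = ((Finset.Ico m n).image (blk w m)).card := by
  classical
  unfold complexity
  apply le_antisymm
  · refine card_image_le_card_image (fun i => (i : ℕ) + m) ?_ ?_
    · intro i _
      have := i.2
      rw [Finset.mem_Ico]
      omega
    · intro i _ i' _ h
      have := i.2
      have := i'.2
      rw [blk_eq_iff] at h
      rw [fac_iff w (by omega) (by omega)]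
      intro j hj
      have := h (m - j) (by omega)
      have e1 : (((i : ℕ) + m : ℕ) : ℤ) - ((m - j : ℕ) : ℤ) = (i : ℕ) + j := by
        push_cast [Nat.cast_sub (show j ≤ m by omega)]; ring
      have e2 : (((i' : ℕ) + m : ℕ) : ℤ) - ((m - j : ℕ) : ℤ) = (i' : ℕ) + j := by
        push_cast [Nat.cast_sub (show j ≤ m by omega)]; ring
      rw [e1, e2] at this
      exact this
  · refine card_image_le_card_image
      (fun e => if h : e - m < n + 1 - (m + 1) then (⟨e - m, h⟩ : Fin (n + 1 - (m + 1)))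
        else ⟨0, by omega⟩) ?_ ?_
    · intro e _; exact Finset.mem_univ _
    · intro e he e' he' h
      rw [Finset.mem_Ico] at he he'
      simp only [dif_pos (show e - m < n + 1 - (m + 1) by omega),
        dif_pos (show e' - m < n + 1 - (m + 1) by omega)] at h
      rw [fac_iff w (by omega) (by omega)] at h
      rw [blk_eq_iff]
      intro j hj2
      have := h (m - j) (by omega)
      have e1 : ((e - m : ℕ) : ℤ) + ((m - j : ℕ) : ℤ) = (e : ℤ) - j := by
        push_cast [Nat.cast_sub hj2, Nat.cast_sub he.1]; ring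
      have e2 : ((e' - m : ℕ) : ℤ) + ((m - j : ℕ) : ℤ) = (e' : ℤ) - j := by
        push_cast [Nat.cast_sub hj2, Nat.cast_sub he'.1]; ring
      rw [e1, e2] at this
      exact this

open Classical in
/-- number of node blocks at level `m` -/
noncomputable def numNode (m : ℕ) : ℕ :=
  (((Finset.range (n + 1)).filter (fun e => Node w m e)).image (blk w m)).card

lemma pre_of_blk {m e e' : ℕ} (h : blk w m e = blk w m e') : pre w m e = pre w m e' := by
  rw [blk_eq_iff] at h
  rw [pre_eq_iff]
  exact fun j _ hj => h j hj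

lemma blk_of_pre {m e e' : ℕ} (h : pre w m e = pre w m e')
    (h0 : ext w (e : ℤ) = ext w (e' : ℤ)) : blk w m e = blk w m e' := by
  rw [pre_eq_iff] at h
  rw [blk_eq_iff]
  intro j hj
  rcases Nat.eq_zero_or_pos j with hj0 | hj0
  · subst hj0; simpa using h0
  · exact h j hj0 hj

lemma val_of_pre {m e e' : ℕ} (h : pre w m e = pre w m e')
    (h0 : ext w (e' : ℤ) < ext w (e : ℤ)) : Node w m e := by
  rw [pre_eq_iff] at h
  refine ⟨e', h0, ?_⟩
  intro j hj1 hj2
  obtain ⟨i, rfl⟩ := Int.eq_ofNat_of_zero_le (show 0 ≤ j by linarith)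
  exact h i (by exact_mod_cast hj1) (by exact_mod_cast hj2)

theorem basic_identity {m : ℕ} (hm1 : 1 ≤ m) (hm : m + 1 ≤ n) :
    complexity w (m + 1) + 1 = complexity w m + numNode w m := by
  classical
  set Z := (Finset.Icc m n).image (blk w m) with hZ
  have hZ1 : Z.card = complexity w (m + 1) + 1 := by
    rw [complexity_eq_blk w hm]
    have h1 : Finset.Icc m n = insert n (Finset.Ico m n) := by
      ext x; simp only [Finset.mem_Icc, Finset.mem_insert, Finset.mem_Ico]; omega
    rw [hZ, h1, Finset.image_insert, Finset.card_insert_of_notMem]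
    intro h
    obtain ⟨e, he, he2⟩ := Finset.mem_image.mp h
    rw [Finset.mem_Ico] at he
    rw [blk_eq_iff] at he2
    have h0 := he2 0 (Nat.zero_le _)
    simp only [Nat.cast_zero, sub_zero] at h0
    have h3 := ext_nonneg_of_mem w (y := (e : ℤ)) ⟨by positivity, by exact_mod_cast he.2⟩
    have h4 := ext_neg_of_not_mem w (y := (n : ℤ)) (by omega)
    omega
  -- split Z
  have hnode : ((Finset.range (n + 1)).filter (fun e => Node w m e)) =
      (Finset.Icc m n).filter (fun e => Node w m e) := by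
    ext e
    simp only [Finset.mem_filter, Finset.mem_range, Finset.mem_Icc]
    constructor
    · rintro ⟨h1, f, hf⟩
      have := val_range w hm1 hf
      refine ⟨⟨by exact_mod_cast this.1, by omega⟩, f, hf⟩
    · rintro ⟨h1, h2⟩
      exact ⟨by omega, h2⟩
  have hsplit : Z.card = (((Finset.Icc m n).filter (fun e => Node w m e)).image (blk w m)).card +
      (((Finset.Icc m n).filter (fun e => ¬ Node w m e)).image (blk w m)).card := by
    rw [hZ, ← Finset.card_union_of_disjoint, ← Finset.image_union, Finset.filter_union_filter_not_eq]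
    rw [Finset.disjoint_left]
    intro x hx hy
    obtain ⟨e, he, rfl⟩ := Finset.mem_image.mp hx
    obtain ⟨e', he', h⟩ := Finset.mem_image.mp hy
    rw [Finset.mem_filter] at he he'
    exact he'.2 (Node.congr w h.symm he.2)
  have hmin : (((Finset.Icc m n).filter (fun e => ¬ Node w m e)).image (blk w m)).card =
      complexity w m := by
    rw [complexity_eq_pre w (by omega)]
    apply le_antisymm
    · refine card_image_le_card_image (fun e => e) ?_ ?_
      · intro e he; exact (Finset.mem_filter.mp he).1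
      · intro e he e' he' h
        rw [Finset.mem_filter] at he he'
        apply blk_of_pre w h
        rcases lt_trichotomy (ext w (e : ℤ)) (ext w (e' : ℤ)) with h1 | h1 | h1
        · exact absurd (val_of_pre w h.symm h1) he'.2
        · exact h1
        · exact absurd (val_of_pre w h h1) he.2
    · -- choose minimal representatives
      have hch : ∀ e ∈ Finset.Icc m n, ∃ e' ∈ (Finset.Icc m n).filter (fun e => ¬ Node w m e),
          pre w m e = pre w m e' := by
        intro e he
        obtain ⟨e', he', hmin⟩ := Finset.exists_min_image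
          ((Finset.Icc m n).filter (fun x => pre w m e = pre w m x)) (fun x => ext w (x : ℤ))
          ⟨e, Finset.mem_filter.mpr ⟨he, rfl⟩⟩
        rw [Finset.mem_filter] at he'
        refine ⟨e', Finset.mem_filter.mpr ⟨he'.1, ?_⟩, he'.2⟩
        rintro ⟨f, hf⟩
        have hr := val_range w hm1 hf
        obtain ⟨f', rfl⟩ := Int.eq_ofNat_of_zero_le (show 0 ≤ f by omega)
        have hpf : pre w m e = pre w m f' := by
          rw [he'.2, pre_eq_iff]
          intro j hj1 hj2
          exact hf.2 j (by exact_mod_cast hj1) (by exact_mod_cast hj2)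
        have := hmin f' (Finset.mem_filter.mpr ⟨Finset.mem_Icc.mpr ⟨by exact_mod_cast hr.2.2.1,
          by exact_mod_cast hr.2.2.2⟩, hpf⟩)
        exact absurd hf.1 (not_lt.mpr this)
      choose! c hc1 hc2 using hch
      refine card_image_le_card_image c hc1 ?_
      intro e he e' he' h
      rw [hc2 e he, hc2 e' he']
      exact pre_of_blk w h
  rw [← hZ1, hsplit, hmin, numNode, hnode, add_comm]


/-! ### Leaves -/

open Classical in
/-- representatives of the maximal node blocks of level at least `ℓ` -/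
noncomputable def leaves (ℓ : ℕ) : Finset (ℕ × ℕ) :=
  ((Finset.range (n + 1)) ×ˢ (Finset.range (n + 1))).filter (fun t =>
    ℓ ≤ t.2 ∧ Node w t.2 t.1 ∧ Leaf (ext w) t.1 t.2 ∧ ∀ e' < t.1, blk w t.2 e' ≠ blk w t.2 t.1)

theorem card_leaves {h ℓ : ℕ} (hh : 0 < h) (hℓ : 8 * h ≤ ℓ) :
    (leaves w ℓ).card ≤ 6 * ((n / h + 1) * (n / h + 1)) := by
  classical
  have hwit : ∀ t ∈ leaves w ℓ, ∃ f : ℕ, f ≤ n ∧ Val (ext w) t.1 f t.2 := by
    intro t ht
    rw [leaves, Finset.mem_filter] at ht
    obtain ⟨_, h1, ⟨f, hf⟩, _, _⟩ := ht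
    have hr := val_range w (show 1 ≤ t.2 by omega) hf
    obtain ⟨f', rfl⟩ := Int.eq_ofNat_of_zero_le (show 0 ≤ f by omega)
    exact ⟨f', by exact_mod_cast hr.2.2.2, hf⟩
  choose! f hf1 hf2 using hwit
  have hmain := Finset.card_le_mul_card_image_of_maps_to
    (s := leaves w ℓ) (t := (Finset.range (n / h + 1)) ×ˢ (Finset.range (n / h + 1)))
    (f := fun t => (t.1 / h, f t / h)) (n := 6) ?_ ?_
  · rw [Finset.card_product, Finset.card_range] at hmain
    exact hmain
  · intro t ht
    have h2 := hf1 t ht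
    rw [leaves, Finset.mem_filter, Finset.mem_product, Finset.mem_range, Finset.mem_range] at ht
    rw [Finset.mem_product, Finset.mem_range, Finset.mem_range]
    exact ⟨Nat.lt_succ_of_le (Nat.div_le_div_right (by omega)),
      Nat.lt_succ_of_le (Nat.div_le_div_right h2)⟩
  · rintro ⟨a, b⟩ _
    set G := (leaves w ℓ).filter (fun t => (t.1 / h, f t / h) = (a, b)) with hG
    have hinj : Set.InjOn (fun t : ℕ × ℕ => (((t.1 : ℕ) : ℤ), ((f t : ℕ) : ℤ), t.2)) (G : Set (ℕ × ℕ)) := by
      intro t _ t' _ hEq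
      simp only [Prod.mk.injEq, Nat.cast_inj] at hEq
      exact Prod.ext hEq.1 hEq.2.2
    rw [← Finset.card_image_of_injOn hinj]
    refine fiber_bound (ext_sen w) hh hℓ ((a * h : ℕ) : ℤ) ((b * h : ℕ) : ℤ) _ ?_ ?_
    · intro x hx
      obtain ⟨t, ht, rfl⟩ := Finset.mem_image.mp hx
      rw [hG, Finset.mem_filter] at ht
      obtain ⟨ht1, ht2⟩ := ht
      simp only [Prod.mk.injEq] at ht2
      have h2 := hf2 t ht1
      rw [leaves, Finset.mem_filter] at ht1
      obtain ⟨_, g1, _, g3, _⟩ := ht1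
      obtain ⟨k1, k2⟩ := ht2
      have l1 : a * h ≤ t.1 := by rw [← k1]; exact Nat.div_mul_le_self _ _
      have l2 : t.1 < a * h + h := by
        rw [← k1]
        have := Nat.lt_div_mul_add (a := t.1) hh
        linarith
      have l3 : b * h ≤ f t := by rw [← k2]; exact Nat.div_mul_le_self _ _
      have l4 : f t < b * h + h := by
        rw [← k2]
        have := Nat.lt_div_mul_add (a := f t) hh
        linarith
      have l1' : ((a * h : ℕ) : ℤ) ≤ (t.1 : ℤ) := by exact_mod_cast l1
      have l2' : (t.1 : ℤ) < ((a * h : ℕ) : ℤ) + (h : ℤ) := by exact_mod_cast l2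
      have l3' : ((b * h : ℕ) : ℤ) ≤ ((f t : ℕ) : ℤ) := by exact_mod_cast l3
      have l4' : ((f t : ℕ) : ℤ) < ((b * h : ℕ) : ℤ) + (h : ℤ) := by exact_mod_cast l4
      exact ⟨l1', l2', l3', l4', g1, h2, g3⟩
    · intro x hx x' hx' hne
      obtain ⟨t, ht, rfl⟩ := Finset.mem_image.mp hx
      obtain ⟨t', ht', rfl⟩ := Finset.mem_image.mp hx'
      rw [hG, Finset.mem_filter] at ht ht'
      have q1 := ht.1
      have q2 := ht'.1
      rw [leaves, Finset.mem_filter] at q1 q2
      obtain ⟨_, _, _, _, m1⟩ := q1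
      obtain ⟨_, _, _, _, m2⟩ := q2
      rintro ⟨hs, hsb⟩
      simp only at hs hsb
      rw [← blk_eq_iff_sameBlk] at hsb
      apply hne
      have he : t.1 = t'.1 := by
        rcases lt_trichotomy t.1 t'.1 with hlt | heq | hgt
        · exfalso
          apply m2 t.1 hlt
          rw [← hs]; exact hsb
        · exact heq
        · exfalso
          exact m1 t'.1 hgt hsb.symm
      have : t = t' := Prod.ext he hs
      rw [this]

theorem leaves_cover {ℓ m e : ℕ} (hm1 : 1 ≤ m) (hℓ : ℓ ≤ m) (hn : Node w m e) :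
    ∃ t ∈ leaves w ℓ, m ≤ t.2 ∧ blk w m e = blk w m t.1 := by
  classical
  -- the levels reached by the occurrences of the block
  let P : ℕ → Prop := fun s => m ≤ s ∧ ∃ e2 : ℕ, blk w m e = blk w m e2 ∧ Node w s e2
  have hP0 : P m := ⟨le_rfl, e, rfl, hn⟩
  have hbd : ∀ s, P s → s ≤ n := by
    rintro s ⟨h1, e2, _, f, hf⟩
    have := val_range w (show 1 ≤ s by omega) hf
    omega
  obtain ⟨s, hs, hmax⟩ : ∃ s, P s ∧ ∀ s', P s' → s' ≤ s := by
    have hfin : {s | P s}.Finite := (Set.finite_Iic n).subset (fun s hs => hbd s hs)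
    obtain ⟨s, hs, hmax⟩ := hfin.exists_maximal ⟨m, hP0⟩
    refine ⟨s, hs, fun s' hs' => ?_⟩
    by_contra hcon
    push Not at hcon
    exact absurd (hmax hs' hcon.le) (not_le.mpr hcon)
  obtain ⟨hms, e2, he2, hne2⟩ := hs
  -- minimal representative
  have hex : ∃ e' : ℕ, blk w s e' = blk w s e2 := ⟨e2, rfl⟩
  set e' := Nat.find hex with he'
  have hspec : blk w s e' = blk w s e2 := Nat.find_spec hex
  have hnode' : Node w s e' := Node.congr w hspec.symm hne2
  refine ⟨(e', s), ?_, hms, ?_⟩
  · rw [leaves, Finset.mem_filter, Finset.mem_product, Finset.mem_range, Finset.mem_range]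
    obtain ⟨f, hf⟩ := hnode'
    have hr := val_range w (show 1 ≤ s by omega) hf
    refine ⟨⟨?_, ?_⟩, by simp only; omega, ⟨f, hf⟩, ?_, ?_⟩
    · have := hr.2.1
      simp only
      omega
    · have := hr.1
      have := hr.2.1
      simp only
      omega
    · intro e3 f3 hsb hv
      simp only at hsb hv
      have hr3 := val_range w (show 1 ≤ s + 1 by omega) hv
      obtain ⟨e4, rfl⟩ := Int.eq_ofNat_of_zero_le (show 0 ≤ e3 by
        have := hr3.1
        push_cast at this
        linarith)
      have h1 : blk w s e' = blk w s e4 := by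
        rw [blk_eq_iff_sameBlk]; exact hsb
      have h2 : P (s + 1) := by
        refine ⟨by omega, e4, ?_, f3, hv⟩
        rw [he2]
        exact blk_mono w hms (hspec.symm.trans h1)
      have := hmax _ h2
      omega
    · intro e'' hlt
      simp only at hlt ⊢
      rw [hspec]
      exact Nat.find_min hex hlt
  · simp only
    rw [he2]
    exact blk_mono w hms hspec.symm

open Classical in
theorem numNode_eq {ℓ m : ℕ} (hm1 : 1 ≤ m) (hℓ : ℓ ≤ m) :
    numNode w m =
      (((leaves w ℓ).filter (fun t => m ≤ t.2)).image (fun t => blk w m t.1)).card := by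
  unfold numNode
  apply le_antisymm
  · apply Finset.card_le_card
    intro x hx
    obtain ⟨e, he, rfl⟩ := Finset.mem_image.mp hx
    rw [Finset.mem_filter] at he
    obtain ⟨t, ht, h1, h2⟩ := leaves_cover w hm1 hℓ he.2
    rw [h2]
    have ht' : t ∈ (leaves w ℓ).filter (fun t => m ≤ t.2) := Finset.mem_filter.mpr ⟨ht, h1⟩
    exact Finset.mem_image.mpr ⟨t, ht', rfl⟩
  · apply Finset.card_le_card
    intro x hx
    obtain ⟨t, ht, rfl⟩ := Finset.mem_image.mp hx
    rw [Finset.mem_filter] at ht
    obtain ⟨ht1, ht2⟩ := ht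
    rw [leaves, Finset.mem_filter, Finset.mem_product] at ht1
    have ht' : t.1 ∈ (Finset.range (n + 1)).filter (fun e => Node w m e) :=
      Finset.mem_filter.mpr ⟨ht1.1.1, Node.mono w ht2 ht1.2.2.1⟩
    exact Finset.mem_image.mpr ⟨t.1, ht', rfl⟩

/-- the count attached to interval data -/
def cnt {T B : ℕ} (D : Fin T → Fin B × Fin B) (m : ℕ) : ℕ :=
  (Finset.univ.filter (fun i : Fin T => ((D i).1 : ℕ) ≤ m ∧ m ≤ ((D i).2 : ℕ))).card

open Classical in
theorem exists_tail_data {h ℓ : ℕ} (hh : 0 < h) (hℓ : 8 * h ≤ ℓ) {T : ℕ}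
    (hT : T = 6 * ((n / h + 1) * (n / h + 1))) :
    ∃ D : Fin T → Fin (n + 1 + 1) × Fin (n + 1 + 1),
      ∀ m, ℓ ≤ m → numNode w m = cnt D m := by
  obtain ⟨g, hg1, hg2⟩ := exists_intervals (fun t : ℕ × ℕ => t.2) (fun m t => blk w m t.1)
    (leaves w ℓ) (fun m m' hmm a b hab => blk_mono w hmm hab)
  have hlev : ∀ t ∈ leaves w ℓ, t.2 ≤ n := by
    intro t ht
    rw [leaves, Finset.mem_filter, Finset.mem_product, Finset.mem_range, Finset.mem_range] at ht
    omega
  obtain ⟨D, hD⟩ := exists_data (leaves w ℓ) g (fun t => t.2) T (n + 1)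
    (by rw [hT]; exact card_leaves w hh hℓ)
    (fun a ha => by have h1 := hg1 a ha; have h2 := hlev a ha; omega)
    (fun a ha => by have h2 := hlev a ha; omega) (by omega)
  refine ⟨D, fun m hm => ?_⟩
  have e1 := numNode_eq w (ℓ := ℓ) (m := m) (by omega) hm
  have e2 := hg2 m
  have e3 := hD m
  rw [e1, e2, e3]
  rfl

lemma complexity_le (m : ℕ) : complexity w m ≤ n + 1 - m := by
  classical
  unfold complexity
  refine le_trans Finset.card_image_le ?_
  simp

lemma tail_sum {ℓ : ℕ} (hℓ1 : 1 ≤ ℓ) :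
    ∀ m, ℓ ≤ m → m ≤ n →
      complexity w m + (m - ℓ) = complexity w ℓ + ∑ j ∈ Finset.Ico ℓ m, numNode w j := by
  intro m hm
  induction m, hm using Nat.le_induction with
  | base => intro _; simp
  | succ m hm ih =>
    intro hmn
    have h1 := ih (by omega)
    have h2 := basic_identity w (m := m) (by omega) hmn
    rw [Finset.sum_Ico_succ_top hm, ← add_assoc, ← h1]
    omega

/-- The number of complexity sequences of words of length `n` over `k` letters. -/
theorem numSeq_le (k n : ℕ) {h : ℕ} (hh : 0 < h) :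
    numSeq k n ≤ (n + 2) ^ (8 * h + 1) *
      ((n + 2) * (n + 2)) ^ (6 * ((n / h + 1) * (n / h + 1))) := by
  classical
  obtain ⟨ℓ, hℓ⟩ : ∃ ℓ, ℓ = 8 * h := ⟨_, rfl⟩
  obtain ⟨T, hT⟩ : ∃ T, T = 6 * ((n / h + 1) * (n / h + 1)) := ⟨_, rfl⟩
  rw [← hℓ, ← hT]
  let Ψ : (Fin (ℓ + 1) → Fin (n + 2)) × (Fin T → Fin (n + 2) × Fin (n + 2)) → (Fin n → ℕ) :=
    fun HD i => if hi : (i : ℕ) + 1 ≤ ℓ then (HD.1 ⟨(i : ℕ) + 1, by omega⟩ : ℕ)
      else (HD.1 ⟨ℓ, by omega⟩ : ℕ) + ∑ j ∈ Finset.Ico ℓ ((i : ℕ) + 1), cnt HD.2 j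
        - ((i : ℕ) + 1 - ℓ)
  have hsub : (Finset.univ.image (fun w : Fin n → Fin k => complexitySeq w)) ⊆
      Finset.univ.image Ψ := by
    intro x hx
    obtain ⟨w, _, rfl⟩ := Finset.mem_image.mp hx
    obtain ⟨D, hD⟩ := exists_tail_data w hh (le_of_eq hℓ.symm) hT
    refine Finset.mem_image.mpr ⟨(fun j => ⟨complexity w j, ?_⟩, D), Finset.mem_univ _, ?_⟩
    · have := complexity_le w (j : ℕ)
      omega
    · funext i
      simp only [Ψ, complexitySeq]
      split_ifs with hi
      · rfl
      · have h1 := tail_sum w (ℓ := ℓ) (by omega) ((i : ℕ) + 1) (by omega) (by omega)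
        have h2 : ∑ j ∈ Finset.Ico ℓ ((i : ℕ) + 1), numNode w j =
            ∑ j ∈ Finset.Ico ℓ ((i : ℕ) + 1), cnt D j := by
          apply Finset.sum_congr rfl
          intro j hj
          rw [Finset.mem_Ico] at hj
          exact hD j hj.1
        rw [h2] at h1
        omega
  unfold numSeq
  refine le_trans (Finset.card_le_card hsub) (le_trans Finset.card_image_le ?_)
  simp [Fintype.card_prod]

end Pool.Agent.H55.Subword
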